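import Mathlib

/-!
# Numerical radius, accretive matrices, fractional powers: the definitions
-/

namespace Pool.Agent.Lib.MP_cf7953_an

open MeasureTheory Matrix

/-- The numerical radius of `A`: the supremum of `|x* A x|` over the unit vectors `x` of `ℂ^n`
(with `x* x = 1`). -/
noncomputable def numRadius {n : ℕ} (A : Matrix (Fin n) (Fin n) ℂ) : ℝ :=
  sSup {r : ℝ | ∃ x : Fin n → ℂ, star x ⬝ᵥ x = 1 ∧ r = ‖star x ⬝ᵥ (A *ᵥ x)‖}

/-- `A` is accretive: `Re (x* A x) > 0` for every `x ≠ 0`, that is, the numerical range of `A` lies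
in the open right half-plane. -/
def IsAccretive {n : ℕ} (A : Matrix (Fin n) (Fin n) ℂ) : Prop :=
  ∀ x : Fin n → ℂ, x ≠ 0 → 0 < (star x ⬝ᵥ (A *ᵥ x)).re

/-- The fractional power `A^t = (sin (t π) / π) ∫_0^∞ s^(t-1) A (s I + A)⁻¹ ds`, the integral being
taken entry by entry. -/
noncomputable def fracPow {n : ℕ} (A : Matrix (Fin n) (Fin n) ℂ) (t : ℝ) :
    Matrix (Fin n) (Fin n) ℂ :=
  Matrix.of fun i j => ((Real.sin (t * Real.pi) / Real.pi : ℝ) : ℂ) *
    ∫ s in Set.Ioi (0 : ℝ),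
      ((s ^ (t - 1) : ℝ) : ℂ) * (A * ((s : ℂ) • (1 : Matrix (Fin n) (Fin n) ℂ) + A)⁻¹) i j

end Pool.Agent.Lib.MP_cf7953_an
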