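import Mathlib

/-!
# Elementary real inequalities
-/

namespace Pool.Agent.Lib.MP_cf7953_an

open Filter Topology Set

/-- `sinh u ≤ u cosh u` for `u ≥ 0`. -/
lemma sinh_le_mul_cosh {u : ℝ} (hu : 0 ≤ u) : Real.sinh u ≤ u * Real.cosh u := by
  have hmono : MonotoneOn (fun x : ℝ => x * Real.cosh x - Real.sinh x) (Ici 0) := by
    refine monotoneOn_of_deriv_nonneg (convex_Ici 0) ?_ ?_ ?_
    · exact (continuous_id.mul Real.continuous_cosh |>.sub Real.continuous_sinh).continuousOn
    · exact ((differentiable_id.mul Real.differentiable_cosh).sub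
        Real.differentiable_sinh).differentiableOn
    · intro x hx
      rw [interior_Ici, mem_Ioi] at hx
      have h1 : HasDerivAt (fun x : ℝ => x * Real.cosh x - Real.sinh x)
          (1 * Real.cosh x + x * Real.sinh x - Real.cosh x) x :=
        ((hasDerivAt_id x).mul (Real.hasDerivAt_cosh x)).sub (Real.hasDerivAt_sinh x)
      rw [h1.deriv]
      have := Real.sinh_pos_iff.mpr hx
      nlinarith
  have h := hmono (mem_Ici.mpr le_rfl) (mem_Ici.mpr hu) hu
  simp at h
  exact h

/-- `x cos x ≤ sin x` for `0 ≤ x ≤ π`. -/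
lemma mul_cos_le_sin {x : ℝ} (h0 : 0 ≤ x) (hpi : x ≤ Real.pi) : x * Real.cos x ≤ Real.sin x := by
  have hmono : MonotoneOn (fun x : ℝ => Real.sin x - x * Real.cos x) (Icc 0 Real.pi) := by
    refine monotoneOn_of_deriv_nonneg (convex_Icc 0 Real.pi) ?_ ?_ ?_
    · exact (Real.continuous_sin.sub (continuous_id.mul Real.continuous_cos)).continuousOn
    · exact (Real.differentiable_sin.sub
        (differentiable_id.mul Real.differentiable_cos)).differentiableOn
    · intro x hx
      rw [interior_Icc, mem_Ioo] at hx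
      have h1 : HasDerivAt (fun x : ℝ => Real.sin x - x * Real.cos x)
          (Real.cos x - (1 * Real.cos x + x * (-Real.sin x))) x :=
        (Real.hasDerivAt_sin x).sub ((hasDerivAt_id x).mul (Real.hasDerivAt_cos x))
      rw [h1.deriv]
      have := Real.sin_nonneg_of_nonneg_of_le_pi hx.1.le hx.2.le
      nlinarith [hx.1]
  have h := hmono (mem_Icc.mpr ⟨le_rfl, Real.pi_pos.le⟩) (mem_Icc.mpr ⟨h0, hpi⟩) h0
  simp at h
  exact h

/-- The numerator function. -/
noncomputable def nn (u φ : ℝ) : ℝ :=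
  u * (1 - Real.cosh u * Real.cos φ) +
    Real.sinh u * (Real.cosh u - Real.cos φ - φ * Real.sin φ)

lemma nn_nonneg {u φ : ℝ} (hu : 0 ≤ u) (h0 : 0 ≤ φ) (hpi : φ ≤ Real.pi) : 0 ≤ nn u φ := by
  have hS : 0 ≤ Real.sinh u := Real.sinh_nonneg_iff.mpr hu
  have hSu : u ≤ Real.sinh u := Real.self_le_sinh_iff.mpr hu
  have hC : 1 ≤ Real.cosh u := Real.one_le_cosh u
  have hSC := sinh_le_mul_cosh hu
  have hmono : MonotoneOn (fun x : ℝ => nn u x) (Icc 0 Real.pi) := by
    refine monotoneOn_of_deriv_nonneg (convex_Icc 0 Real.pi) ?_ ?_ ?_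
    · unfold nn; fun_prop
    · unfold nn; fun_prop
    · intro x hx
      rw [interior_Icc, mem_Ioo] at hx
      have h1 : HasDerivAt (fun x : ℝ => nn u x)
          (u * (0 - Real.cosh u * (-Real.sin x)) +
            Real.sinh u * ((0 - (-Real.sin x)) - (1 * Real.sin x + x * Real.cos x))) x := by
        unfold nn
        refine HasDerivAt.add ?_ ?_
        · exact ((hasDerivAt_const x 1).sub ((Real.hasDerivAt_cos x).const_mul _)).const_mul _
        · exact (((hasDerivAt_const x (Real.cosh u)).sub (Real.hasDerivAt_cos x)).sub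
            ((hasDerivAt_id x).mul (Real.hasDerivAt_sin x))).const_mul _
      rw [h1.deriv]
      have hs := Real.sin_nonneg_of_nonneg_of_le_pi hx.1.le hx.2.le
      have hc := mul_cos_le_sin hx.1.le hx.2.le
      have e1 : u * (0 - Real.cosh u * (-Real.sin x)) +
            Real.sinh u * ((0 - (-Real.sin x)) - (1 * Real.sin x + x * Real.cos x)) =
            (u * Real.cosh u - Real.sinh u) * Real.sin x +
              Real.sinh u * (Real.sin x - x * Real.cos x) := by ring
      rw [e1]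
      have := mul_nonneg (sub_nonneg.mpr hSC) hs
      have := mul_nonneg hS (sub_nonneg.mpr hc)
      linarith
  have h := hmono (mem_Icc.mpr ⟨le_rfl, Real.pi_pos.le⟩) (mem_Icc.mpr ⟨h0, hpi⟩) h0
  simp only at h
  refine le_trans ?_ h
  unfold nn
  simp only [Real.cos_zero, Real.sin_zero, mul_one, mul_zero, sub_zero]
  have : u * (1 - Real.cosh u) + Real.sinh u * (Real.cosh u - 1) =
    (Real.sinh u - u) * (Real.cosh u - 1) := by ring
  rw [this]
  exact mul_nonneg (by linarith) (by linarith)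

lemma nn_le {u φ : ℝ} (hu : 0 ≤ u) (h0 : 0 ≤ φ) (hpi : φ ≤ Real.pi) :
    nn u φ ≤ u * (Real.cosh u - Real.cos φ) ^ 2 := by
  have hS : 0 ≤ Real.sinh u := Real.sinh_nonneg_iff.mpr hu
  have hSu : u ≤ Real.sinh u := Real.self_le_sinh_iff.mpr hu
  have hC : 1 ≤ Real.cosh u := Real.one_le_cosh u
  have hSC := sinh_le_mul_cosh hu
  have hs := Real.sin_nonneg_of_nonneg_of_le_pi h0 hpi
  have hs1 : Real.sin φ ≤ φ := Real.sin_le h0
  have hc1 : Real.cos φ ≤ 1 := Real.cos_le_one φ
  have hc2 : -1 ≤ Real.cos φ := Real.neg_one_le_cos φ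
  have hsc : Real.sin φ ^ 2 = 1 - Real.cos φ ^ 2 := Real.sin_sq φ
  have hphi : 1 - Real.cos φ ^ 2 ≤ φ * Real.sin φ := by nlinarith
  unfold nn
  set C := Real.cosh u with hCdef
  set S := Real.sinh u with hSdef
  set c := Real.cos φ with hcdef
  set s := Real.sin φ with hsdef
  have h1 : S * (1 - c ^ 2) ≤ S * (φ * s) := mul_le_mul_of_nonneg_left hphi hS
  -- reduce to the concave quadratic in c
  have h2 : 0 ≤ u * (c ^ 2 - c * C + C ^ 2 - 1) + S * (1 - c ^ 2 - C + c) := by
    -- value = ((1+c)/2) * (value at 1) + ((1-c)/2) * (value at -1) + (S-u)(1-c^2)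
    have e : u * (c ^ 2 - c * C + C ^ 2 - 1) + S * (1 - c ^ 2 - C + c) =
        (1 + c) / 2 * ((C - 1) * (u * C - S)) + (1 - c) / 2 * ((C + 1) * (u * C - S)) +
          (S - u) * (1 - c ^ 2) := by ring
    rw [e]
    have t1 : 0 ≤ (C - 1) * (u * C - S) := mul_nonneg (by linarith) (by linarith)
    have t2 : 0 ≤ (C + 1) * (u * C - S) := mul_nonneg (by linarith) (by linarith)
    have t3 : 0 ≤ (S - u) * (1 - c ^ 2) := mul_nonneg (by linarith) (by nlinarith)
    have t4 : 0 ≤ (1 + c) / 2 * ((C - 1) * (u * C - S)) := mul_nonneg (by linarith) t1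
    have t5 : 0 ≤ (1 - c) / 2 * ((C + 1) * (u * C - S)) := mul_nonneg (by linarith) t2
    linarith
  nlinarith

end Pool.Agent.Lib.MP_cf7953_an
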