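import Mathlib
import Pool.Agent.Lib.MP_cf7953_an.RealIneq

namespace Pool.Agent.Lib.MP_cf7953_an

open Complex Filter Topology Set

/-- The function `G`. -/
noncomputable def G (d : ℂ) : ℂ := (d * log d + 1 - d) / (1 - d) ^ 2

lemma G_zero : G 0 = 1 := by simp [G]

lemma nn_neg (u φ : ℝ) : nn u (-φ) = nn u φ := by
  unfold nn; rw [Real.cos_neg, Real.sin_neg]; ring

lemma nn_abs (u φ : ℝ) : nn u |φ| = nn u φ := by
  rcases abs_cases φ with ⟨h, _⟩ | ⟨h, _⟩ <;> rw [h]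
  exact nn_neg u φ

lemma G_re_formula {d : ℂ} (h0 : d ≠ 0) (h1 : ‖d‖ < 1) :
    (G d).re - 1 / 2 = nn (-Real.log ‖d‖) (arg d) /
      (2 * (Real.cosh (-Real.log ‖d‖) - Real.cos (arg d)) ^ 2) := by
  set r := ‖d‖ with hr
  have hrpos : 0 < r := norm_pos_iff.mpr h0
  set φ := arg d with hφ
  set L := -Real.log r with hL
  have ha : d.re = r * Real.cos φ := by
    rw [hr, hφ, Complex.norm_mul_cos_arg]
  have hb : d.im = r * Real.sin φ := by
    rw [hr, hφ, Complex.norm_mul_sin_arg]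
  have hlre : (log d).re = -L := by rw [Complex.log_re, hL, neg_neg]
  have hlim : (log d).im = φ := by rw [Complex.log_im]
  have hcosh : Real.cosh L = (r⁻¹ + r) / 2 := by
    rw [hL, Real.cosh_neg, Real.cosh_log hrpos]; ring
  have hsinh : Real.sinh L = (r⁻¹ - r) / 2 := by
    rw [hL, Real.sinh_neg, Real.sinh_log hrpos]; ring
  have hs : Real.sin φ ^ 2 = 1 - Real.cos φ ^ 2 := Real.sin_sq φ
  set c := Real.cos φ with hc
  set s := Real.sin φ with hsd
  have hc1 : c ≤ 1 := Real.cos_le_one φ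
  have hP : 0 < (1 - r * c) ^ 2 + (r * s) ^ 2 := by
    have : (1 - r * c) ^ 2 + (r * s) ^ 2 = (1 - r) ^ 2 + 2 * r * (1 - c) := by
      linear_combination r ^ 2 * hs
    rw [this]
    have h2 : 0 < (1 - r) ^ 2 := by
      have : 0 < 1 - r := by linarith
      positivity
    have h3 : 0 ≤ 2 * r * (1 - c) := by
      have : 0 ≤ 1 - c := by linarith
      positivity
    linarith
  set P := (1 - r * c) ^ 2 + (r * s) ^ 2 with hPdef
  have hCc : Real.cosh L - c = P / (2 * r) := by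
    rw [hcosh, hPdef]
    field_simp
    linear_combination -(r ^ 2) * hs
  have hden : normSq ((1 - d) ^ 2) = P ^ 2 := by
    rw [map_pow, Complex.normSq_apply]
    simp only [sub_re, one_re, sub_im, one_im, ha, hb]
    rw [hPdef]; ring
  have hre : (G d).re = ((-(r * c) * L - r * s * φ + 1 - r * c) * ((1 - r * c) ^ 2 - (r * s) ^ 2)
      - (r * c * φ - r * s * L - r * s) * (2 * (1 - r * c) * (r * s))) / P ^ 2 := by
    unfold G
    rw [Complex.div_re, hden, ← add_div]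
    congr 1
    simp only [pow_two, mul_re, mul_im, sub_re, sub_im, add_re, add_im, one_re, one_im, hlre, hlim,
      ha, hb]
    ring
  rw [hre, hCc]
  unfold nn
  rw [hcosh, hsinh]
  have hr0 : r ≠ 0 := hrpos.ne'
  have hP0 : P ≠ 0 := hP.ne'
  have key : 2 * ((-(r * c) * L - r * s * φ + 1 - r * c) * ((1 - r * c) ^ 2 - (r * s) ^ 2)
      - (r * c * φ - r * s * L - r * s) * (2 * (1 - r * c) * (r * s))) - P ^ 2 =
      4 * r ^ 2 * (L * (1 - (r⁻¹ + r) / 2 * c) + (r⁻¹ - r) / 2 * ((r⁻¹ + r) / 2 - c - φ * s)) := by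
    have e1 : 4 * r ^ 2 * (L * (1 - (r⁻¹ + r) / 2 * c) +
        (r⁻¹ - r) / 2 * ((r⁻¹ + r) / 2 - c - φ * s)) =
        L * (4 * r ^ 2 - 2 * r * (1 + r ^ 2) * c) +
          (1 - r ^ 2) * (1 + r ^ 2 - 2 * r * c - 2 * r * φ * s) := by
      field_simp
      ring
    rw [e1, hPdef]
    have hs2 : s ^ 2 = 1 - c ^ 2 := hs
    have e2 : s ^ 3 = s * (1 - c ^ 2) := by rw [← hs2]; ring
    have e3 : s ^ 4 = (1 - c ^ 2) ^ 2 := by rw [← hs2]; ring
    ring_nf
    simp only [e2, e3, hs2]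
    ring
  generalize (-(r * c) * L - r * s * φ + 1 - r * c) * ((1 - r * c) ^ 2 - (r * s) ^ 2)
      - (r * c * φ - r * s * L - r * s) * (2 * (1 - r * c) * (r * s)) = X at key ⊢
  generalize L * (1 - (r⁻¹ + r) / 2 * c) + (r⁻¹ - r) / 2 * ((r⁻¹ + r) / 2 - c - φ * s) = N
    at key ⊢
  have hX : X = (4 * r ^ 2 * N + P ^ 2) / 2 := by linarith
  rw [hX]
  field_simp
  ring

/-- The bounds `0 ≤ Re G(d) - 1/2 ≤ -log|d|/2` in the punctured unit disc. -/
lemma G_re_bounds {d : ℂ} (h0 : d ≠ 0) (h1 : ‖d‖ < 1) :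
    0 ≤ (G d).re - 1 / 2 ∧ (G d).re - 1 / 2 ≤ -Real.log ‖d‖ / 2 := by
  have hrpos : 0 < ‖d‖ := norm_pos_iff.mpr h0
  have hL : 0 < -Real.log ‖d‖ := by
    have := Real.log_neg hrpos h1
    linarith
  rw [G_re_formula h0 h1]
  set u := -Real.log ‖d‖ with hu
  have habs : |arg d| ≤ Real.pi := Complex.abs_arg_le_pi d
  have e1 : nn u (arg d) = nn u |arg d| := (nn_abs u _).symm
  have e2 : Real.cos (arg d) = Real.cos |arg d| := (Real.cos_abs _).symm
  rw [e1, e2]
  have hn0 := nn_nonneg hL.le (abs_nonneg (arg d)) habs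
  have hn1 := nn_le hL.le (abs_nonneg (arg d)) habs
  have hC : 1 < Real.cosh u := Real.one_lt_cosh.mpr hL.ne'
  have hc : Real.cos |arg d| ≤ 1 := Real.cos_le_one _
  have hpos : 0 < (Real.cosh u - Real.cos |arg d|) ^ 2 := by
    have : 0 < Real.cosh u - Real.cos |arg d| := by linarith
    positivity
  constructor
  · positivity
  · rw [div_le_div_iff₀ (by positivity) two_pos]
    nlinarith

end Pool.Agent.Lib.MP_cf7953_an
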