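import Mathlib
import Pool.Agent.Lib.MP_cf7953_an.Scalar

/-!
# The boundary density `q`
-/

namespace Pool.Agent.Lib.MP_cf7953_an

open Complex Filter Topology Set MeasureTheory

/-- `G` tends to `1` at `0`. -/
lemma tendsto_G_zero : Tendsto G (𝓝 0) (𝓝 1) := by
  have h1 : Tendsto (fun d : ℂ => d * log d) (𝓝 0) (𝓝 0) := by
    rw [tendsto_zero_iff_norm_tendsto_zero]
    have h2 : Tendsto (fun d : ℂ => |‖d‖ * Real.log ‖d‖| + Real.pi * ‖d‖) (𝓝 0) (𝓝 0) := by
      have hn : Tendsto (fun d : ℂ => ‖d‖) (𝓝 0) (𝓝 0) := by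
        simpa using (continuous_norm (E := ℂ)).tendsto 0
      have h3 : Tendsto (fun d : ℂ => ‖d‖ * Real.log ‖d‖) (𝓝 0) (𝓝 0) := by
        have := (Real.continuous_mul_log.tendsto 0).comp hn
        simp only [zero_mul] at this
        exact this
      have := h3.abs.add (hn.const_mul Real.pi)
      simpa using this
    refine squeeze_zero (fun d => norm_nonneg _) (fun d => ?_) h2
    rw [norm_mul]
    have h4 : ‖log d‖ ≤ |Real.log ‖d‖| + Real.pi := by
      calc ‖log d‖ ≤ |(log d).re| + |(log d).im| := Complex.norm_le_abs_re_add_abs_im _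
        _ ≤ |Real.log ‖d‖| + Real.pi := by
          rw [Complex.log_re, Complex.log_im]
          exact add_le_add le_rfl (Complex.abs_arg_le_pi d)
    calc ‖d‖ * ‖log d‖ ≤ ‖d‖ * (|Real.log ‖d‖| + Real.pi) :=
          mul_le_mul_of_nonneg_left h4 (norm_nonneg d)
      _ = |‖d‖ * Real.log ‖d‖| + Real.pi * ‖d‖ := by
          rw [abs_mul, abs_norm]; ring
  have h5 : Tendsto (fun d : ℂ => (d * log d + 1 - d) / (1 - d) ^ 2) (𝓝 0)
      (𝓝 ((0 + 1 - 0) / (1 - 0) ^ 2)) := by
    refine Tendsto.div ?_ ?_ (by norm_num)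
    · exact (h1.add tendsto_const_nhds).sub tendsto_id
    · exact (tendsto_const_nhds.sub tendsto_id).pow 2
  have h6 : ((0 : ℂ) + 1 - 0) / (1 - 0) ^ 2 = 1 := by norm_num
  rw [h6] at h5
  exact h5

lemma continuousAt_G {d : ℂ} (h0 : d ∈ slitPlane) (h1 : d ≠ 1) : ContinuousAt G d := by
  unfold G
  refine ContinuousAt.div ?_ ?_ ?_
  · exact ((continuousAt_id.mul (continuousAt_clog h0)).add continuousAt_const).sub continuousAt_id
  · exact (continuousAt_const.sub continuousAt_id).pow 2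
  · exact pow_ne_zero 2 (sub_ne_zero.mpr (Ne.symm h1))

lemma continuousAt_G_zero : ContinuousAt G 0 := by
  unfold ContinuousAt
  rw [G_zero]
  exact tendsto_G_zero

lemma differentiableAt_G {d : ℂ} (h0 : d ∈ slitPlane) (h1 : d ≠ 1) : DifferentiableAt ℂ G d := by
  unfold G
  refine DifferentiableAt.div ?_ ?_ ?_
  · exact ((differentiableAt_id.mul (differentiableAt_id.clog h0)).add
      (differentiableAt_const _)).sub differentiableAt_id
  · exact ((differentiableAt_const _).sub differentiableAt_id).pow 2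
  · exact pow_ne_zero 2 (sub_ne_zero.mpr (Ne.symm h1))

/-- The unimodular rotation. -/
noncomputable def rot (α : ℝ) : ℂ := Complex.exp (α * I)

lemma norm_rot (α : ℝ) : ‖rot α‖ = 1 := Complex.norm_exp_ofReal_mul_I α

lemma rot_re (α : ℝ) : (rot α).re = Real.cos α := by
  unfold rot; rw [Complex.exp_ofReal_mul_I_re]

lemma rot_im (α : ℝ) : (rot α).im = Real.sin α := by
  unfold rot; rw [Complex.exp_ofReal_mul_I_im]

lemma rot_mul_im (α x : ℝ) : (rot α * x).im = Real.sin α * x := by
  rw [Complex.mul_im, rot_im]; simp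

/-- Values of `rot α * x` lie in the slit plane and are not `1`, for real `x ≠ 0`. -/
lemma rot_mul_mem {α : ℝ} (h0 : 0 < α) (hpi : α < Real.pi) {x : ℝ} (hx : x ≠ 0) :
    rot α * x ∈ slitPlane ∧ rot α * x ≠ 1 := by
  have hs : 0 < Real.sin α := Real.sin_pos_of_pos_of_lt_pi h0 hpi
  have him : (rot α * x).im ≠ 0 := by
    rw [rot_mul_im]; exact mul_ne_zero hs.ne' hx
  refine ⟨Or.inr him, fun h => him ?_⟩
  rw [h]; simp

/-- The boundary density. -/
noncomputable def q (α x : ℝ) : ℝ := if |x| < 1 then (G (rot α * x)).re - 1 / 2 else 0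

lemma q_zero (α : ℝ) : q α 0 = 1 / 2 := by
  simp [q, G_zero]; norm_num

lemma norm_rot_mul (α x : ℝ) : ‖rot α * x‖ = |x| := by
  rw [norm_mul, norm_rot, one_mul, Complex.norm_real, Real.norm_eq_abs]

lemma q_nonneg (α x : ℝ) : 0 ≤ q α x := by
  unfold q
  split_ifs with h
  · rcases eq_or_ne x 0 with h0 | h0
    · subst h0; simp [G_zero]; norm_num
    · refine (G_re_bounds ?_ ?_).1
      · rw [← norm_ne_zero_iff, norm_rot_mul]; exact abs_ne_zero.mpr h0
      · rw [norm_rot_mul]; exact h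
  · exact le_rfl

lemma q_eq_zero {α x : ℝ} (h : 1 ≤ |x|) : q α x = 0 := by
  unfold q; rw [if_neg (not_lt.mpr h)]

lemma q_le_log {α x : ℝ} (h0 : x ≠ 0) (h1 : |x| ≤ 1) : q α x ≤ -Real.log |x| / 2 := by
  unfold q
  split_ifs with h
  · have := (G_re_bounds (d := rot α * x) ?_ ?_).2
    · rwa [norm_rot_mul] at this
    · rw [← norm_ne_zero_iff, norm_rot_mul]; exact abs_ne_zero.mpr h0
    · rw [norm_rot_mul]; exact h
  · have := Real.log_nonpos (abs_nonneg x) h1
    linarith

/-- `-log t ≤ (1 - t)/√t` for `0 < t ≤ 1`. -/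
lemma neg_log_le {t : ℝ} (h0 : 0 < t) (h1 : t ≤ 1) : -Real.log t ≤ (1 - t) / √t := by
  set v := √t with hv
  have hvpos : 0 < v := Real.sqrt_pos.mpr h0
  have htv : t = v ^ 2 := (Real.sq_sqrt h0.le).symm
  have hv1 : v ≤ 1 := by rw [hv]; exact Real.sqrt_le_one.mpr h1
  have hlog : Real.log t = 2 * Real.log v := by rw [htv, Real.log_pow]; norm_num
  -- `sinh u ≥ u` with `u = -log v`
  have hu : 0 ≤ -Real.log v := by
    have := Real.log_nonpos hvpos.le hv1; linarith
  have hsinh := Real.self_le_sinh_iff.mpr hu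
  rw [Real.sinh_neg, Real.sinh_log hvpos] at hsinh
  rw [hlog, htv, le_div_iff₀ hvpos]
  have h2 : -(2 * Real.log v) ≤ v⁻¹ - v := by linarith
  calc -(2 * Real.log v) * v ≤ (v⁻¹ - v) * v := mul_le_mul_of_nonneg_right h2 hvpos.le
    _ = 1 - v ^ 2 := by rw [sub_mul, inv_mul_cancel₀ hvpos.ne']; ring

lemma q_le_sqrt {α x : ℝ} (h0 : x ≠ 0) (h1 : |x| ≤ 1) : q α x ≤ (1 - |x|) / (2 * √|x|) := by
  refine (q_le_log h0 h1).trans ?_
  have := neg_log_le (abs_pos.mpr h0) h1
  have hpos : 0 < √|x| := Real.sqrt_pos.mpr (abs_pos.mpr h0)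
  rw [div_le_div_iff₀ two_pos (by positivity)]
  rw [le_div_iff₀ hpos] at this
  nlinarith

lemma continuous_q {α : ℝ} (h0 : 0 < α) (hpi : α < Real.pi) : Continuous (q α) := by
  rw [continuous_iff_continuousAt]
  intro x
  rcases lt_trichotomy |x| 1 with hx | hx | hx
  · -- interior point
    have hev : q α =ᶠ[𝓝 x] fun y => (G (rot α * y)).re - 1 / 2 := by
      have : ∀ᶠ y : ℝ in 𝓝 x, |y| < 1 := (continuous_abs.tendsto x).eventually (gt_mem_nhds hx)
      filter_upwards [this] with y hy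
      simp [q, hy]
    refine ContinuousAt.congr ?_ hev.symm
    have hG : ContinuousAt G (rot α * x) := by
      rcases eq_or_ne x 0 with hx0 | hx0
      · subst hx0; simpa using continuousAt_G_zero
      · exact continuousAt_G (rot_mul_mem h0 hpi hx0).1 (rot_mul_mem h0 hpi hx0).2
    have hlin : ContinuousAt (fun y : ℝ => rot α * (y : ℂ)) x := by fun_prop
    have hc : ContinuousAt (fun y : ℝ => G (rot α * (y : ℂ))) x :=
      ContinuousAt.comp (g := G) (f := fun y : ℝ => rot α * (y : ℂ)) hG hlin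
    exact (Complex.continuous_re.continuousAt.comp hc).sub continuousAt_const
  · -- |x| = 1
    have hx0 : x ≠ 0 := by
      intro h; rw [h] at hx; simp at hx
    unfold ContinuousAt
    rw [q_eq_zero hx.ge]
    have hb : Tendsto (fun y : ℝ => |(-Real.log |y| / 2)|) (𝓝 x) (𝓝 0) := by
      have h1 : ContinuousAt (fun y : ℝ => |(-Real.log |y| / 2)|) x := by
        have : |x| ≠ 0 := abs_ne_zero.mpr hx0
        have h2 : ContinuousAt (fun y : ℝ => Real.log |y|) x :=
          ContinuousAt.log continuous_abs.continuousAt this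
        exact (h2.neg.div_const 2).abs
      have h3 := h1.tendsto
      rw [hx] at h3
      simpa using h3
    refine squeeze_zero' (Eventually.of_forall fun y => q_nonneg α y) ?_ hb
    have : ∀ᶠ y : ℝ in 𝓝 x, y ≠ 0 := isOpen_ne.mem_nhds hx0
    filter_upwards [this] with y hy
    by_cases h1 : |y| ≤ 1
    · exact (q_le_log hy h1).trans (le_abs_self _)
    · rw [q_eq_zero (not_le.mp h1).le]; exact abs_nonneg _
  · -- outside
    have hev : q α =ᶠ[𝓝 x] fun _ => (0 : ℝ) := by
      have : ∀ᶠ y : ℝ in 𝓝 x, 1 < |y| := (continuous_abs.tendsto x).eventually (lt_mem_nhds hx)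
      filter_upwards [this] with y hy
      exact q_eq_zero hy.le
    exact ContinuousAt.congr continuousAt_const hev.symm

lemma hasCompactSupport_q (α : ℝ) : HasCompactSupport (q α) := by
  refine HasCompactSupport.of_support_subset_isCompact (isCompact_Icc (a := (-1 : ℝ)) (b := 1)) ?_
  intro x hx
  rw [Function.mem_support] at hx
  by_contra hcon
  apply hx
  apply q_eq_zero
  rw [mem_Icc, ← abs_le] at hcon
  exact (not_le.mp hcon).le

lemma exists_q_bound {α : ℝ} (h0 : 0 < α) (hpi : α < Real.pi) : ∃ M : ℝ, ∀ x, q α x ≤ M := by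
  obtain ⟨M, hM⟩ := (hasCompactSupport_q α).exists_bound_of_continuous (continuous_q h0 hpi)
  exact ⟨M, fun x => (le_abs_self _).trans (by simpa using hM x)⟩

lemma integrable_q {α : ℝ} (h0 : 0 < α) (hpi : α < Real.pi) : Integrable (q α) :=
  (continuous_q h0 hpi).integrable_of_hasCompactSupport (hasCompactSupport_q α)

/-! ## The majorants -/

/-- `∫_0^1 dt / (√t (1 + t)) = π / 2`, with integrability. -/
lemma integral_aux :
    IntegrableOn (fun t : ℝ => 1 / (√t * (1 + t))) (Ioc 0 1) ∧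
      ∫ t in Ioc (0 : ℝ) 1, 1 / (√t * (1 + t)) = Real.pi / 2 := by
  have hderiv : ∀ x ∈ Ioo (0 : ℝ) 1,
      HasDerivAt (fun t : ℝ => 2 * Real.arctan (√t)) (1 / (√x * (1 + x))) x := by
    intro x hx
    have hx0 : x ≠ 0 := hx.1.ne'
    have h1 := ((Real.hasDerivAt_sqrt hx0).arctan).const_mul 2
    have hs : 0 < √x := Real.sqrt_pos.mpr hx.1
    refine h1.congr_deriv ?_
    rw [Real.sq_sqrt hx.1.le]
    field_simp
  have hcont : ContinuousOn (fun t : ℝ => 2 * Real.arctan (√t)) (Icc 0 1) := by fun_prop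
  have hpos : ∀ x ∈ Ioo (0 : ℝ) 1, 0 ≤ 1 / (√x * (1 + x)) := by
    intro x hx
    have : 0 ≤ √x := Real.sqrt_nonneg x
    have := hx.1
    positivity
  have hint : IntervalIntegrable (fun t : ℝ => 1 / (√t * (1 + t))) volume 0 1 := by
    rw [intervalIntegrable_iff_integrableOn_Ioc_of_le zero_le_one]
    exact intervalIntegral.integrableOn_deriv_of_nonneg hcont hderiv hpos
  refine ⟨(intervalIntegrable_iff_integrableOn_Ioc_of_le zero_le_one).mp hint, ?_⟩
  rw [← intervalIntegral.integral_of_le zero_le_one]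
  rw [intervalIntegral.integral_eq_sub_of_hasDerivAt_of_le zero_le_one hcont hderiv hint]
  simp
  ring

end Pool.Agent.Lib.MP_cf7953_an
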