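import Mathlib
import Pool.Agent.Lib.MP_cf7953_an.QFun

/-!
# Integrable majorants for the boundary density
-/

namespace Pool.Agent.Lib.MP_cf7953_an

open Complex Filter Topology Set MeasureTheory

/-- Majorant on the half line. -/
noncomputable def hmaj (t : ℝ) : ℝ := (Ioc (0 : ℝ) 1).indicator (fun t => 1 / (√t * (1 + t))) t

lemma hmaj_nonneg (t : ℝ) : 0 ≤ hmaj t := by
  unfold hmaj
  refine indicator_nonneg (fun t ht => ?_) t
  have := ht.1
  positivity

lemma integral_hmaj : ∫ x : ℝ, hmaj |x| = Real.pi := by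
  rw [integral_comp_abs (f := hmaj)]
  unfold hmaj
  rw [setIntegral_indicator measurableSet_Ioc]
  have : Ioi (0 : ℝ) ∩ Ioc 0 1 = Ioc 0 1 := by
    ext x; simp only [mem_inter_iff, mem_Ioi, mem_Ioc]; tauto
  rw [this, integral_aux.2]
  ring

lemma integrable_hmaj : Integrable (fun x : ℝ => hmaj |x|) := by
  by_contra hcon
  have h1 := integral_undef hcon
  rw [integral_hmaj] at h1
  exact Real.pi_ne_zero h1

lemma q_div_le_hmaj {α x : ℝ} (hx : x ≠ 0) : q α x / (1 - |x|) ≤ hmaj |x| := by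
  by_cases h1 : |x| < 1
  · have hpos : 0 < |x| := abs_pos.mpr hx
    have hs : 0 < √|x| := Real.sqrt_pos.mpr hpos
    have hmem : |x| ∈ Ioc (0 : ℝ) 1 := ⟨hpos, h1.le⟩
    unfold hmaj
    rw [indicator_of_mem hmem]
    have h2 := q_le_sqrt (α := α) hx h1.le
    have h3 : 0 < 1 - |x| := by linarith
    rw [div_le_div_iff₀ h3 (by positivity), one_mul]
    have h4 : q α x * (2 * √|x|) ≤ 1 - |x| := by
      rwa [le_div_iff₀ (by positivity)] at h2
    have h5 := q_nonneg α x
    have h6 : q α x * (√|x| * (1 + |x|)) ≤ q α x * (2 * √|x|) := by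
      apply mul_le_mul_of_nonneg_left _ h5
      nlinarith
    linarith
  · rw [q_eq_zero (not_lt.mp h1), zero_div]
    exact hmaj_nonneg _

lemma q_div_sq_le_hmaj {α x : ℝ} (hx : x ≠ 0) : q α x / (1 - x ^ 2) ≤ 1 / 2 * hmaj |x| := by
  by_cases h1 : |x| < 1
  · have hpos : 0 < |x| := abs_pos.mpr hx
    have hs : 0 < √|x| := Real.sqrt_pos.mpr hpos
    have hmem : |x| ∈ Ioc (0 : ℝ) 1 := ⟨hpos, h1.le⟩
    unfold hmaj
    rw [indicator_of_mem hmem]
    have h2 := q_le_sqrt (α := α) hx h1.le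
    have h3 : 0 < 1 - |x| := by linarith
    have hsq : x ^ 2 = |x| ^ 2 := (sq_abs x).symm
    rw [hsq]
    have h4 : q α x * (2 * √|x|) ≤ 1 - |x| := by
      rwa [le_div_iff₀ (by positivity)] at h2
    have h5 : 0 < 1 - |x| ^ 2 := by nlinarith
    rw [div_mul_div_comm, one_mul, div_le_div_iff₀ h5 (by positivity), one_mul]
    calc q α x * (2 * (√|x| * (1 + |x|))) = (q α x * (2 * √|x|)) * (1 + |x|) := by ring
      _ ≤ (1 - |x|) * (1 + |x|) := mul_le_mul_of_nonneg_right h4 (by positivity)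
      _ = 1 - |x| ^ 2 := by ring
  · rw [q_eq_zero (not_lt.mp h1), zero_div]
    have := hmaj_nonneg |x|
    linarith

lemma ae_ne_zero : ∀ᵐ x : ℝ, x ≠ 0 := by
  have : ({0} : Set ℝ)ᶜ ∈ ae (volume : Measure ℝ) :=
    compl_mem_ae_iff.mpr (by simp)
  filter_upwards [this] with x hx using hx

lemma q_div_nonneg (α x : ℝ) : 0 ≤ q α x / (1 - |x|) := by
  by_cases h1 : |x| < 1
  · exact div_nonneg (q_nonneg α x) (by linarith)
  · rw [q_eq_zero (not_lt.mp h1), zero_div]

lemma q_div_sq_nonneg (α x : ℝ) : 0 ≤ q α x / (1 - x ^ 2) := by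
  by_cases h1 : |x| < 1
  · refine div_nonneg (q_nonneg α x) ?_
    have : x ^ 2 = |x| ^ 2 := (sq_abs x).symm
    rw [this]
    have := abs_nonneg x
    nlinarith
  · rw [q_eq_zero (not_lt.mp h1), zero_div]

lemma integrable_q_div {α : ℝ} (h0 : 0 < α) (hpi : α < Real.pi) :
    Integrable (fun x : ℝ => q α x / (1 - |x|)) := by
  refine Integrable.mono' integrable_hmaj ?_ ?_
  · exact ((continuous_q h0 hpi).measurable.div
      (measurable_const.sub continuous_abs.measurable)).aestronglyMeasurable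
  · filter_upwards [ae_ne_zero] with x hx
    rw [Real.norm_of_nonneg (q_div_nonneg α x)]
    exact q_div_le_hmaj hx

lemma integrable_q_div_sq {α : ℝ} (h0 : 0 < α) (hpi : α < Real.pi) :
    Integrable (fun x : ℝ => q α x / (1 - x ^ 2)) := by
  refine Integrable.mono' (integrable_hmaj.const_mul (1 / 2)) ?_ ?_
  · exact ((continuous_q h0 hpi).measurable.div
      (measurable_const.sub (measurable_id.pow_const 2))).aestronglyMeasurable
  · filter_upwards [ae_ne_zero] with x hx
    rw [Real.norm_of_nonneg (q_div_sq_nonneg α x)]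
    exact q_div_sq_le_hmaj hx

/-- The crucial bound. -/
lemma integral_q_div_sq_le {α : ℝ} (h0 : 0 < α) (hpi : α < Real.pi) :
    ∫ x : ℝ, q α x / (1 - x ^ 2) ≤ Real.pi / 2 := by
  calc ∫ x : ℝ, q α x / (1 - x ^ 2) ≤ ∫ x : ℝ, 1 / 2 * hmaj |x| := by
        refine integral_mono_ae (integrable_q_div_sq h0 hpi) (integrable_hmaj.const_mul (1 / 2)) ?_
        filter_upwards [ae_ne_zero] with x hx
        exact q_div_sq_le_hmaj hx
    _ = Real.pi / 2 := by
        rw [integral_const_mul, integral_hmaj]; ring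

end Pool.Agent.Lib.MP_cf7953_an
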