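import Mathlib

/-!
# A maximum principle
-/

namespace Pool.Agent.Lib.MP_cf7953_an

open Complex Filter Topology Set

lemma re_nonpos_of_boundary {U : Set ℂ} (hU : IsOpen U) (hb : Bornology.IsBounded U)
    (hc : IsPreconnected U) {f : ℂ → ℂ} (hf : DifferentiableOn ℂ f U)
    (hlim : ∀ z₀ ∈ frontier U, Tendsto (fun z => (f z).re) (𝓝[U] z₀) (𝓝 0)) :
    ∀ z ∈ U, (f z).re ≤ 0 := by
  classical
  intro z hz
  set u : ℂ → ℝ := fun z => if z ∈ U then (f z).re else 0 with hu
  have huU : ∀ z ∈ U, u z = (f z).re := fun z hz => by simp [hu, hz]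
  have huU' : ∀ z, z ∉ U → u z = 0 := fun z hz => by simp [hu, hz]
  have hcont : ContinuousOn u (closure U) := by
    intro z₀ hz₀
    by_cases h : z₀ ∈ U
    · have h1 : ContinuousAt f z₀ := (hf.differentiableAt (hU.mem_nhds h)).continuousAt
      have h2 : ContinuousAt (fun z => (f z).re) z₀ := Complex.continuous_re.continuousAt.comp h1
      have h3 : u =ᶠ[𝓝 z₀] fun z => (f z).re := by
        filter_upwards [hU.mem_nhds h] with z hz using huU z hz
      exact (h2.congr h3.symm).continuousWithinAt
    · have hfr : z₀ ∈ frontier U := by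
        rw [hU.frontier_eq]; exact ⟨hz₀, h⟩
      have h1 := hlim z₀ hfr
      unfold ContinuousWithinAt
      rw [huU' z₀ h]
      have h2 : Tendsto u (𝓝[U] z₀) (𝓝 0) := by
        refine h1.congr' ?_
        filter_upwards [self_mem_nhdsWithin] with z hz using (huU z hz).symm
      have h3 : Tendsto u (𝓝[Uᶜ] z₀) (𝓝 0) := by
        refine tendsto_const_nhds.congr' ?_
        filter_upwards [self_mem_nhdsWithin] with z hz using (huU' z hz).symm
      have h4 : Tendsto u (𝓝[U ∪ Uᶜ] z₀) (𝓝 0) := by
        rw [nhdsWithin_union]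
        exact h2.sup h3
      refine h4.mono_left (nhdsWithin_mono _ ?_)
      rw [union_compl_self]; exact subset_univ _
  have hcpt : IsCompact (closure U) := hb.isCompact_closure
  obtain ⟨p, hp, hmax⟩ := hcpt.exists_isMaxOn ⟨z, subset_closure hz⟩ hcont
  have hzp : u z ≤ u p := hmax (subset_closure hz)
  rw [huU z hz] at hzp
  refine hzp.trans ?_
  by_cases hpU : p ∈ U
  · -- `exp ∘ f` is constant on `U`
    have hmax2 : IsMaxOn (norm ∘ fun z => Complex.exp (f z)) U p := by
      intro y hy
      simp only [Function.comp_apply]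
      show ‖Complex.exp (f y)‖ ≤ ‖Complex.exp (f p)‖
      rw [Complex.norm_exp, Complex.norm_exp]
      apply Real.exp_le_exp.mpr
      have := hmax (subset_closure hy)
      rw [← huU y hy, ← huU p hpU]
      exact this
    have hconst := Complex.eqOn_of_isPreconnected_of_isMaxOn_norm hc hU hf.cexp hpU hmax2
    have hval : ∀ y ∈ U, (f y).re = (f p).re := by
      intro y hy
      have h1 := congrArg norm (hconst hy)
      simp only [Function.const_apply, Complex.norm_exp] at h1
      exact Real.exp_injective h1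
    have hne : (frontier U).Nonempty := by
      rw [nonempty_frontier_iff]
      refine ⟨⟨p, hpU⟩, ?_⟩
      intro huniv
      rw [huniv] at hb
      exact (NormedSpace.unbounded_univ ℝ ℂ) hb
    obtain ⟨z₀, hz₀⟩ := hne
    have h1 := hlim z₀ hz₀
    have h2 : Tendsto (fun z => (f z).re) (𝓝[U] z₀) (𝓝 (f p).re) := by
      refine tendsto_const_nhds.congr' ?_
      filter_upwards [self_mem_nhdsWithin] with y hy using (hval y hy).symm
    have hnb : (𝓝[U] z₀).NeBot := mem_closure_iff_nhdsWithin_neBot.mp (frontier_subset_closure hz₀)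
    have h3 := tendsto_nhds_unique h2 h1
    rw [huU p hpU, h3]
  · rw [huU' p hpU]

lemma const_of_boundary {U : Set ℂ} (hU : IsOpen U) (hb : Bornology.IsBounded U)
    (hc : IsPreconnected U) {f : ℂ → ℂ} (hf : DifferentiableOn ℂ f U)
    (hlim : ∀ z₀ ∈ frontier U, Tendsto (fun z => (f z).re) (𝓝[U] z₀) (𝓝 0)) :
    ∃ c : ℝ, ∀ z ∈ U, f z = c * I := by
  have h1 := re_nonpos_of_boundary hU hb hc hf hlim
  have h2 := re_nonpos_of_boundary hU hb hc hf.neg (fun z₀ hz₀ => by
    have := (hlim z₀ hz₀).neg
    simpa using this)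
  have hre : ∀ z ∈ U, (f z).re = 0 := by
    intro z hz
    have a := h1 z hz
    have b := h2 z hz
    simp at b
    linarith
  have han : AnalyticOnNhd ℂ f U := hf.analyticOnNhd hU
  rcases han.is_constant_or_isOpen hc with ⟨w, hw⟩ | hopen
  · rcases U.eq_empty_or_nonempty with hE | ⟨z, hz⟩
    · exact ⟨0, fun z hz => by rw [hE] at hz; exact hz.elim⟩
    · refine ⟨w.im, fun y hy => ?_⟩
      rw [hw y hy]
      have : w.re = 0 := by rw [← hw z hz]; exact hre z hz
      apply Complex.ext <;> simp [this]
  · rcases U.eq_empty_or_nonempty with hE | ⟨z, hz⟩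
    · exact ⟨0, fun z hz => by rw [hE] at hz; exact hz.elim⟩
    · exfalso
      have ho := hopen U Subset.rfl hU
      have hmem : f z ∈ f '' U := mem_image_of_mem f hz
      obtain ⟨ε, hε, hball⟩ := Metric.isOpen_iff.mp ho (f z) hmem
      have h3 : f z + ((ε / 2 : ℝ) : ℂ) ∈ Metric.ball (f z) ε := by
        rw [Metric.mem_ball, dist_eq_norm, add_sub_cancel_left, Complex.norm_real,
          Real.norm_of_nonneg (by positivity)]
        linarith
      obtain ⟨y, hy, hyz⟩ := hball h3
      have h4 := hre y hy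
      rw [hyz, Complex.add_re, hre z hz, Complex.ofReal_re] at h4
      linarith

end Pool.Agent.Lib.MP_cf7953_an
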