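import Mathlib
import Pool.Agent.Lib.MP_cf7953_an.Major
import Pool.Agent.Lib.MP_cf7953_an.MaxPrin

/-!
# The Schwarz type formula in the half disc
-/

namespace Pool.Agent.Lib.MP_cf7953_an

open Complex Filter Topology Set MeasureTheory

noncomputable def IA (α : ℝ) (z : ℂ) : ℂ := ∫ x : ℝ, (q α x : ℂ) * (1 / ((x : ℂ) - z))

noncomputable def IR (α : ℝ) (z : ℂ) : ℂ := ∫ x : ℝ, (q α x : ℂ) * (z / (1 - (x : ℂ) * z))

section

variable {α : ℝ}

lemma meas_A (h0 : 0 < α) (hpi : α < Real.pi) (z : ℂ) :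
    AEStronglyMeasurable (fun x : ℝ => (q α x : ℂ) * (1 / ((x : ℂ) - z))) := by
  have hq : Measurable (q α) := (continuous_q h0 hpi).measurable
  have h1 : Measurable fun x : ℝ => ((q α x : ℝ) : ℂ) := Complex.measurable_ofReal.comp hq
  have h2 : Measurable fun x : ℝ => (1 / ((x : ℂ) - z)) :=
    measurable_const.div (Complex.measurable_ofReal.sub_const z)
  exact (h1.mul h2).aestronglyMeasurable

lemma meas_R (h0 : 0 < α) (hpi : α < Real.pi) (z : ℂ) :
    AEStronglyMeasurable (fun x : ℝ => (q α x : ℂ) * (z / (1 - (x : ℂ) * z))) := by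
  have hq : Measurable (q α) := (continuous_q h0 hpi).measurable
  have h1 : Measurable fun x : ℝ => ((q α x : ℝ) : ℂ) := Complex.measurable_ofReal.comp hq
  have h2 : Measurable fun x : ℝ => (z / (1 - (x : ℂ) * z)) :=
    measurable_const.div (measurable_const.sub (Complex.measurable_ofReal.mul_const z))
  exact (h1.mul h2).aestronglyMeasurable

lemma im_le_norm_sub (x : ℝ) (z : ℂ) : -z.im ≤ ‖(x : ℂ) - z‖ := by
  have h := Complex.abs_im_le_norm ((x : ℂ) - z)
  simp only [Complex.sub_im, Complex.ofReal_im, zero_sub] at h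
  exact (le_abs_self _).trans h

lemma sub_ne_zero_of_im {x : ℝ} {z : ℂ} (hz : z.im < 0) : (x : ℂ) - z ≠ 0 := by
  intro h
  have h1 := im_le_norm_sub x z
  rw [h, norm_zero] at h1
  linarith

lemma integrable_A (h0 : 0 < α) (hpi : α < Real.pi) {z : ℂ} (hz : z.im < 0) :
    Integrable (fun x : ℝ => (q α x : ℂ) * (1 / ((x : ℂ) - z))) := by
  refine Integrable.mono' ((integrable_q h0 hpi).mul_const (1 / (-z.im))) (meas_A h0 hpi z) ?_
  refine Eventually.of_forall fun x => ?_
  rw [norm_mul, norm_div, norm_one, Complex.norm_real, Real.norm_of_nonneg (q_nonneg α x)]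
  apply mul_le_mul_of_nonneg_left _ (q_nonneg α x)
  exact one_div_le_one_div_of_le (by linarith) (im_le_norm_sub x z)

lemma diff_A (h0 : 0 < α) (hpi : α < Real.pi) {z₀ : ℂ} (hz : z₀.im < 0) :
    DifferentiableAt ℂ (IA α) z₀ := by
  set b := -z₀.im with hb
  have hbpos : 0 < b := by linarith
  have hball : ∀ w ∈ Metric.ball z₀ (b / 2), w.im < 0 ∧ ∀ x : ℝ, b / 2 ≤ ‖(x : ℂ) - w‖ := by
    intro w hw
    rw [Metric.mem_ball, dist_eq_norm] at hw
    have h1 := Complex.abs_im_le_norm (w - z₀)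
    rw [Complex.sub_im] at h1
    have h2 := (abs_le.mp (h1.trans hw.le)).2
    refine ⟨by linarith, fun x => ?_⟩
    have := im_le_norm_sub x w
    linarith
  have hmeas' : AEStronglyMeasurable
      (fun x : ℝ => (q α x : ℂ) * (1 / ((x : ℂ) - z₀) ^ 2)) := by
    have hq : Measurable (q α) := (continuous_q h0 hpi).measurable
    have h1 : Measurable fun x : ℝ => ((q α x : ℝ) : ℂ) := Complex.measurable_ofReal.comp hq
    have h2 : Measurable fun x : ℝ => (1 / ((x : ℂ) - z₀) ^ 2) :=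
      measurable_const.div ((Complex.measurable_ofReal.sub_const z₀).pow_const 2)
    exact (h1.mul h2).aestronglyMeasurable
  have := hasDerivAt_integral_of_dominated_loc_of_deriv_le
    (F := fun (z : ℂ) (x : ℝ) => (q α x : ℂ) * (1 / ((x : ℂ) - z)))
    (F' := fun (z : ℂ) (x : ℝ) => (q α x : ℂ) * (1 / ((x : ℂ) - z) ^ 2))
    (bound := fun x => q α x * (1 / (b / 2) ^ 2)) (μ := volume)
    (Metric.ball_mem_nhds z₀ (half_pos hbpos))
    (Eventually.of_forall fun z => meas_A h0 hpi z) (integrable_A h0 hpi hz) hmeas'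
    (Eventually.of_forall fun x w hw => ?_) ((integrable_q h0 hpi).mul_const _)
    (Eventually.of_forall fun x w hw => ?_)
  · exact this.2.differentiableAt
  · rw [norm_mul, norm_div, norm_one, norm_pow, Complex.norm_real,
      Real.norm_of_nonneg (q_nonneg α x)]
    apply mul_le_mul_of_nonneg_left _ (q_nonneg α x)
    have h1 := (hball w hw).2 x
    exact one_div_le_one_div_of_le (by positivity) (pow_le_pow_left₀ (by positivity) h1 2)
  · have hne : (x : ℂ) - w ≠ 0 := sub_ne_zero_of_im (hball w hw).1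
    have h1 : HasDerivAt (fun z : ℂ => (x : ℂ) - z) (-1) w := by
      simpa using (hasDerivAt_id w).const_sub (x : ℂ)
    have h2 := (h1.inv hne).const_mul (q α x : ℂ)
    refine (h2.congr_deriv ?_).congr_of_eventuallyEq ?_
    · field_simp
    · refine Eventually.of_forall fun z => ?_
      simp only [one_div, Pi.inv_apply]

lemma one_sub_abs_le {x : ℝ} {z : ℂ} (hz : ‖z‖ ≤ 1) : 1 - |x| ≤ ‖1 - (x : ℂ) * z‖ := by
  have h1 : ‖(1 : ℂ)‖ - ‖(x : ℂ) * z‖ ≤ ‖1 - (x : ℂ) * z‖ := norm_sub_norm_le _ _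
  rw [norm_one, norm_mul, Complex.norm_real, Real.norm_eq_abs] at h1
  have h2 : |x| * ‖z‖ ≤ |x| := by
    have := abs_nonneg x
    nlinarith
  linarith

lemma bound_R {x : ℝ} {z : ℂ} (hz : ‖z‖ ≤ 1) :
    ‖(q α x : ℂ) * (z / (1 - (x : ℂ) * z))‖ ≤ q α x / (1 - |x|) := by
  rw [norm_mul, norm_div, Complex.norm_real, Real.norm_of_nonneg (q_nonneg α x)]
  by_cases hx : |x| < 1
  · have h1 := one_sub_abs_le (x := x) hz
    have h2 : 0 < 1 - |x| := by linarith
    rw [div_eq_mul_one_div (q α x)]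
    apply mul_le_mul_of_nonneg_left _ (q_nonneg α x)
    exact div_le_div₀ zero_le_one hz h2 h1
  · rw [q_eq_zero (not_lt.mp hx)]; simp

lemma integrable_R (h0 : 0 < α) (hpi : α < Real.pi) {z : ℂ} (hz : ‖z‖ ≤ 1) :
    Integrable (fun x : ℝ => (q α x : ℂ) * (z / (1 - (x : ℂ) * z))) :=
  Integrable.mono' (integrable_q_div h0 hpi) (meas_R h0 hpi z)
    (Eventually.of_forall fun _ => bound_R hz)

lemma one_sub_mul_ne_zero {x : ℝ} {z : ℂ} (hx : |x| < 1) (hz : ‖z‖ ≤ 1) :
    1 - (x : ℂ) * z ≠ 0 := by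
  intro h
  have h1 := one_sub_abs_le (x := x) hz
  rw [h, norm_zero] at h1
  linarith

lemma cont_R (h0 : 0 < α) (hpi : α < Real.pi) {z₀ : ℂ} (hz : ‖z₀‖ ≤ 1) :
    Tendsto (IR α) (𝓝[Metric.closedBall 0 1] z₀) (𝓝 (IR α z₀)) := by
  unfold IR
  refine tendsto_integral_filter_of_dominated_convergence (fun x => q α x / (1 - |x|)) ?_ ?_
    (integrable_q_div h0 hpi) ?_
  · exact Eventually.of_forall fun z => meas_R h0 hpi z
  · filter_upwards [self_mem_nhdsWithin] with z hz'
    have hz1 : ‖z‖ ≤ 1 := by simpa using hz'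
    exact Eventually.of_forall fun x => bound_R hz1
  · refine Eventually.of_forall fun x => ?_
    by_cases hx : |x| < 1
    · have hne := one_sub_mul_ne_zero hx hz
      have : ContinuousAt (fun z : ℂ => (q α x : ℂ) * (z / (1 - (x : ℂ) * z))) z₀ := by
        refine continuousAt_const.mul (continuousAt_id.div ?_ hne)
        exact continuousAt_const.sub (continuousAt_const.mul continuousAt_id)
      exact this.tendsto.mono_left nhdsWithin_le_nhds
    · simp only [q_eq_zero (not_lt.mp hx), Complex.ofReal_zero, zero_mul]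
      exact tendsto_const_nhds

lemma diff_R (h0 : 0 < α) (hpi : α < Real.pi) {z₀ : ℂ} (hz : ‖z₀‖ < 1) :
    DifferentiableAt ℂ (IR α) z₀ := by
  set ρ := (1 - ‖z₀‖) / 2 with hρ
  have hρpos : 0 < ρ := by rw [hρ]; linarith
  have hball : ∀ w ∈ Metric.ball z₀ ρ, ‖w‖ ≤ 1 ∧ ∀ x : ℝ, |x| < 1 → ρ ≤ ‖1 - (x : ℂ) * w‖ := by
    intro w hw
    rw [Metric.mem_ball, dist_eq_norm] at hw
    have h1 : ‖w‖ ≤ ‖w - z₀‖ + ‖z₀‖ := by
      have := norm_add_le (w - z₀) z₀
      simpa using this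
    have h2 : ‖w‖ ≤ 1 - ρ := by rw [hρ] at hw ⊢; linarith
    refine ⟨by linarith, fun x hx => ?_⟩
    have h3 : ‖(1 : ℂ)‖ - ‖(x : ℂ) * w‖ ≤ ‖1 - (x : ℂ) * w‖ := norm_sub_norm_le _ _
    rw [norm_one, norm_mul, Complex.norm_real, Real.norm_eq_abs] at h3
    have h4 : |x| * ‖w‖ ≤ ‖w‖ := by
      have := norm_nonneg w
      nlinarith
    linarith
  have hmeas' : AEStronglyMeasurable
      (fun x : ℝ => (q α x : ℂ) * (1 / (1 - (x : ℂ) * z₀) ^ 2)) := by
    have hq : Measurable (q α) := (continuous_q h0 hpi).measurable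
    have h1 : Measurable fun x : ℝ => ((q α x : ℝ) : ℂ) := Complex.measurable_ofReal.comp hq
    have h2 : Measurable fun x : ℝ => (1 / (1 - (x : ℂ) * z₀) ^ 2) :=
      measurable_const.div ((measurable_const.sub (Complex.measurable_ofReal.mul_const z₀)).pow_const 2)
    exact (h1.mul h2).aestronglyMeasurable
  have := hasDerivAt_integral_of_dominated_loc_of_deriv_le
    (F := fun (z : ℂ) (x : ℝ) => (q α x : ℂ) * (z / (1 - (x : ℂ) * z)))
    (F' := fun (z : ℂ) (x : ℝ) => (q α x : ℂ) * (1 / (1 - (x : ℂ) * z) ^ 2))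
    (bound := fun x => q α x * (1 / ρ ^ 2)) (μ := volume)
    (Metric.ball_mem_nhds z₀ hρpos)
    (Eventually.of_forall fun z => meas_R h0 hpi z) (integrable_R h0 hpi hz.le) hmeas'
    (Eventually.of_forall fun x w hw => ?_) ((integrable_q h0 hpi).mul_const _)
    (Eventually.of_forall fun x w hw => ?_)
  · exact this.2.differentiableAt
  · rw [norm_mul, norm_div, norm_one, norm_pow, Complex.norm_real,
      Real.norm_of_nonneg (q_nonneg α x)]
    by_cases hx : |x| < 1
    · apply mul_le_mul_of_nonneg_left _ (q_nonneg α x)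
      have h1 := (hball w hw).2 x hx
      exact one_div_le_one_div_of_le (by positivity) (pow_le_pow_left₀ (by positivity) h1 2)
    · rw [q_eq_zero (not_lt.mp hx)]; simp
  · by_cases hx : |x| < 1
    · have hne : 1 - (x : ℂ) * w ≠ 0 := one_sub_mul_ne_zero hx (hball w hw).1
      have h1 : HasDerivAt (fun z : ℂ => 1 - (x : ℂ) * z) (-((x : ℂ) * 1)) w :=
        ((hasDerivAt_id w).const_mul (x : ℂ)).const_sub 1
      have h2 := ((hasDerivAt_id w).div h1 hne).const_mul (q α x : ℂ)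
      refine h2.congr_deriv ?_
      simp only [id_eq]
      congr 2
      ring
    · simp only [q_eq_zero (not_lt.mp hx), Complex.ofReal_zero, zero_mul]
      exact hasDerivAt_const w 0

lemma re_R_real (x₀ : ℝ) : ((I / Real.pi) * IR α (x₀ : ℂ)).re = 0 := by
  have h1 : IR α (x₀ : ℂ) = ((∫ x : ℝ, q α x * (x₀ / (1 - x * x₀)) : ℝ) : ℂ) := by
    unfold IR
    rw [← integral_complex_ofReal]
    congr 1
    ext x
    push_cast
    ring
  rw [h1]
  have h2 : (I / (Real.pi : ℂ)) = ((1 / Real.pi : ℝ) : ℂ) * I := by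
    push_cast; ring
  rw [h2, mul_right_comm, ← Complex.ofReal_mul, Complex.re_ofReal_mul]
  simp

lemma kernel_circle {x : ℝ} {z : ℂ} (hz : ‖z‖ = 1) (him : z.im < 0) :
    1 / ((x : ℂ) - z) - z / (1 - (x : ℂ) * z) = ((2 * (1 / ((x : ℂ) - z)).re : ℝ) : ℂ) := by
  have hne : (x : ℂ) - z ≠ 0 := sub_ne_zero_of_im him
  have hz0 : z ≠ 0 := by
    intro h; rw [h, norm_zero] at hz; exact zero_ne_one hz
  have hconj : z * (starRingEnd ℂ) z = 1 := by
    rw [Complex.mul_conj, Complex.normSq_eq_norm_sq, hz]; simp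
  have hne' : (x : ℂ) - (starRingEnd ℂ) z ≠ 0 := by
    intro h
    apply hne
    have := congrArg (starRingEnd ℂ) h
    simpa using this
  have h1 : 1 - (x : ℂ) * z = -z * ((x : ℂ) - (starRingEnd ℂ) z) := by
    linear_combination -hconj
  have h2 : z / (1 - (x : ℂ) * z) = -(1 / ((x : ℂ) - (starRingEnd ℂ) z)) := by
    rw [h1, neg_mul, div_neg, div_mul_eq_div_div, div_self hz0]
  have h3 : ((2 * (1 / ((x : ℂ) - z)).re : ℝ) : ℂ) =
      1 / ((x : ℂ) - z) + (starRingEnd ℂ) (1 / ((x : ℂ) - z)) := by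
    rw [Complex.add_conj]
  rw [h2, h3, sub_neg_eq_add]
  congr 1
  simp

lemma re_circle (h0 : 0 < α) (hpi : α < Real.pi) {z : ℂ} (hz : ‖z‖ = 1) (him : z.im < 0) :
    ((I / Real.pi) * (IA α z - IR α z)).re = 0 := by
  have h1 : IA α z - IR α z = ((∫ x : ℝ, q α x * (2 * (1 / ((x : ℂ) - z)).re) : ℝ) : ℂ) := by
    unfold IA IR
    rw [← integral_sub (integrable_A h0 hpi him) (integrable_R h0 hpi hz.le),
      ← integral_complex_ofReal]
    congr 1
    ext x
    rw [← mul_sub, kernel_circle hz him]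
    push_cast
    ring
  rw [h1]
  have h2 : (I / (Real.pi : ℂ)) = ((1 / Real.pi : ℝ) : ℂ) * I := by
    push_cast; ring
  rw [h2, mul_right_comm, ← Complex.ofReal_mul, Complex.re_ofReal_mul]
  simp

/-- The Poisson integral. -/
lemma re_A_eq (h0 : 0 < α) (hpi : α < Real.pi) {z : ℂ} (hz : z.im < 0) :
    ((I / Real.pi) * IA α z).re =
      1 / Real.pi * ∫ t : ℝ, q α (z.re + (-z.im) * t) * (1 + t ^ 2)⁻¹ := by
  set b := -z.im with hb
  have hbpos : 0 < b := by linarith
  have h1 : ((I / Real.pi) * IA α z).re = ∫ x : ℝ, 1 / Real.pi * (q α x * (b / ((x - z.re) ^ 2 + b ^ 2))) := by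
    unfold IA
    rw [← integral_const_mul]
    have h2 := integral_re (𝕜 := ℂ) ((integrable_A h0 hpi hz).const_mul (I / Real.pi))
    simp only [RCLike.re_to_complex] at h2
    rw [← h2]
    congr 1
    ext x
    have hx : (x : ℂ) - z = ((x - z.re : ℝ) : ℂ) + ((b : ℝ) : ℂ) * I := by
      apply Complex.ext <;> simp [hb]
    have hns : normSq ((x : ℂ) - z) = (x - z.re) ^ 2 + b ^ 2 := by
      rw [Complex.normSq_apply]
      simp [hb]; ring
    have e : (I / (Real.pi : ℂ)) * ((q α x : ℂ) * (1 / ((x : ℂ) - z))) =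
        ((1 / Real.pi * q α x : ℝ) : ℂ) * (I * ((x : ℂ) - z)⁻¹) := by
      push_cast; ring
    rw [e, Complex.re_ofReal_mul, Complex.I_mul_re, Complex.inv_im, hns]
    simp only [Complex.sub_im, Complex.ofReal_im, zero_sub, neg_neg]
    rw [hb]
    ring
  rw [h1, integral_const_mul]
  congr 1
  -- change of variables
  have h3 : ∫ x : ℝ, q α x * (b / ((x - z.re) ^ 2 + b ^ 2)) =
      ∫ x : ℝ, q α (x + z.re) * (b / (x ^ 2 + b ^ 2)) := by
    rw [← integral_add_right_eq_self (fun x : ℝ => q α x * (b / ((x - z.re) ^ 2 + b ^ 2))) z.re]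
    congr 1
    ext x
    rw [add_sub_cancel_right]
  rw [h3]
  have h4 := Measure.integral_comp_mul_left
    (fun x : ℝ => q α (x + z.re) * (b / (x ^ 2 + b ^ 2))) b
  rw [abs_of_pos (inv_pos.mpr hbpos), smul_eq_mul] at h4
  have h5 : ∫ x : ℝ, q α (x + z.re) * (b / (x ^ 2 + b ^ 2)) =
      b * ∫ x : ℝ, q α (b * x + z.re) * (b / ((b * x) ^ 2 + b ^ 2)) := by
    rw [h4, ← mul_assoc, mul_inv_cancel₀ hbpos.ne', one_mul]
  rw [h5, ← integral_const_mul]
  congr 1
  ext t
  have h6 : (b * t) ^ 2 + b ^ 2 = b ^ 2 * (1 + t ^ 2) := by ring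
  rw [h6, add_comm (b * t)]
  have h7 : (1 + t ^ 2 : ℝ) ≠ 0 := by positivity
  field_simp

lemma tendsto_A_real (h0 : 0 < α) (hpi : α < Real.pi) (x₀ : ℝ) :
    Tendsto (fun z : ℂ => ((I / Real.pi) * IA α z).re) (𝓝[{z : ℂ | z.im < 0}] (x₀ : ℂ))
      (𝓝 (q α x₀)) := by
  obtain ⟨M, hM⟩ := exists_q_bound h0 hpi
  have hcq := continuous_q h0 hpi
  have h1 : Tendsto (fun z : ℂ => 1 / Real.pi *
      ∫ t : ℝ, q α (z.re + (-z.im) * t) * (1 + t ^ 2)⁻¹) (𝓝[{z : ℂ | z.im < 0}] (x₀ : ℂ))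
      (𝓝 (1 / Real.pi * ∫ t : ℝ, q α x₀ * (1 + t ^ 2)⁻¹)) := by
    refine Tendsto.const_mul _ ?_
    refine tendsto_integral_filter_of_dominated_convergence (fun t => M * (1 + t ^ 2)⁻¹) ?_ ?_
      (integrable_inv_one_add_sq.const_mul M) ?_
    · refine Eventually.of_forall fun z => ?_
      have : Continuous fun t : ℝ => q α (z.re + (-z.im) * t) * (1 + t ^ 2)⁻¹ := by
        refine (hcq.comp (by fun_prop)).mul ?_
        refine Continuous.inv₀ (by fun_prop) (fun t => by positivity)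
      exact this.aestronglyMeasurable
    · refine Eventually.of_forall fun z => Eventually.of_forall fun t => ?_
      rw [norm_mul, Real.norm_of_nonneg (q_nonneg α _), Real.norm_of_nonneg (by positivity)]
      exact mul_le_mul_of_nonneg_right (hM _) (by positivity)
    · refine Eventually.of_forall fun t => ?_
      have hc : Continuous fun z : ℂ => q α (z.re + (-z.im) * t) * (1 + t ^ 2)⁻¹ := by
        refine (hcq.comp ?_).mul continuous_const
        exact Complex.continuous_re.add (Complex.continuous_im.neg.mul continuous_const)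
      have h2 := hc.tendsto (x₀ : ℂ)
      simp only [Complex.ofReal_re, Complex.ofReal_im, neg_zero, zero_mul, add_zero] at h2
      exact h2.mono_left nhdsWithin_le_nhds
  have h2 : 1 / Real.pi * ∫ t : ℝ, q α x₀ * (1 + t ^ 2)⁻¹ = q α x₀ := by
    rw [integral_const_mul, integral_univ_inv_one_add_sq]
    field_simp
  rw [h2] at h1
  refine h1.congr' ?_
  filter_upwards [self_mem_nhdsWithin] with z hz
  exact (re_A_eq h0 hpi hz).symm

end

end Pool.Agent.Lib.MP_cf7953_an
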