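import Mathlib
import Pool.Agent.Lib.MP_cf7953_an.Identity

/-!
# The Schwarz type formula in the half disc: conclusion
-/

namespace Pool.Agent.Lib.MP_cf7953_an

open Complex Filter Topology Set MeasureTheory

/-- The open lower half disc. -/
def HD : Set ℂ := {z | ‖z‖ < 1 ∧ z.im < 0}

lemma isOpen_HD : IsOpen HD :=
  (isOpen_lt continuous_norm continuous_const).inter (isOpen_lt Complex.continuous_im
    continuous_const)

lemma convex_HD : Convex ℝ HD := by
  have h1 : Convex ℝ (Metric.ball (0 : ℂ) 1) := convex_ball 0 1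
  have h2 : Convex ℝ {z : ℂ | z.im < 0} := convex_halfSpace_im_lt 0
  have : HD = Metric.ball (0 : ℂ) 1 ∩ {z : ℂ | z.im < 0} := by
    ext z; simp [HD]
  rw [this]
  exact h1.inter h2

lemma bounded_HD : Bornology.IsBounded HD := by
  refine Metric.isBounded_ball (x := (0 : ℂ)) (r := 1) |>.subset ?_
  intro z hz
  simpa using hz.1

noncomputable def DD (α : ℝ) (z : ℂ) : ℂ :=
  G (rot α * z) - 1 / 2 - (I / Real.pi) * (IA α z - IR α z)

lemma rot_mul_slit {α : ℝ} (h0 : 0 < α) (hpi : α < Real.pi) {z : ℂ} (hz : z.im < 0) :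
    rot α * z ∈ slitPlane := by
  rw [Complex.mem_slitPlane_iff]
  by_contra hcon
  push Not at hcon
  obtain ⟨h1, h2⟩ := hcon
  rw [Complex.mul_re, rot_re, rot_im] at h1
  rw [Complex.mul_im, rot_re, rot_im] at h2
  have hs : 0 < Real.sin α := Real.sin_pos_of_pos_of_lt_pi h0 hpi
  have hsc := Real.sin_sq_add_cos_sq α
  -- im z = cos * im(rot z) - sin * re(rot z)
  have h3 : z.im = Real.cos α * (Real.cos α * z.im + Real.sin α * z.re) -
      Real.sin α * (Real.cos α * z.re - Real.sin α * z.im) := by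
    linear_combination (-z.im) * hsc
  rw [h2] at h3
  nlinarith

lemma norm_rot_mul' (α : ℝ) (z : ℂ) : ‖rot α * z‖ = ‖z‖ := by
  rw [norm_mul, norm_rot, one_mul]

lemma ne_one_of_norm_lt {d : ℂ} (h : ‖d‖ < 1) : d ≠ 1 := by
  intro h1; rw [h1] at h; simp at h

lemma diff_DD {α : ℝ} (h0 : 0 < α) (hpi : α < Real.pi) : DifferentiableOn ℂ (DD α) HD := by
  intro z hz
  have h1 : DifferentiableAt ℂ G (rot α * z) :=
    differentiableAt_G (rot_mul_slit h0 hpi hz.2)
      (ne_one_of_norm_lt (by rw [norm_rot_mul']; exact hz.1))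
  have h2 : DifferentiableAt ℂ (fun z : ℂ => rot α * z) z := by fun_prop
  have h3 : DifferentiableAt ℂ (fun z : ℂ => G (rot α * z)) z :=
    DifferentiableAt.comp (g := G) (f := fun z : ℂ => rot α * z) z h1 h2
  exact ((h3.sub_const _).sub
    (((diff_A h0 hpi hz.2).sub (diff_R h0 hpi hz.1)).const_mul _)).differentiableWithinAt

/-- On the unit circle the boundary values of `Re G - 1/2` vanish. -/
lemma tendsto_G_circle (α : ℝ) {z₀ : ℂ} (hz : ‖z₀‖ = 1) :
    Tendsto (fun z : ℂ => (G (rot α * z)).re - 1 / 2) (𝓝[HD] z₀) (𝓝 0) := by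
  have hb : Tendsto (fun z : ℂ => -Real.log ‖z‖ / 2) (𝓝[HD] z₀) (𝓝 0) := by
    have h1 : ContinuousAt (fun z : ℂ => -Real.log ‖z‖ / 2) z₀ := by
      have hne : ‖z₀‖ ≠ 0 := by rw [hz]; exact one_ne_zero
      exact ((ContinuousAt.log continuous_norm.continuousAt hne).neg).div_const 2
    have h2 := h1.tendsto
    rw [hz] at h2
    simp only [Real.log_one, neg_zero, zero_div] at h2
    exact h2.mono_left nhdsWithin_le_nhds
  refine squeeze_zero' ?_ ?_ hb
  · filter_upwards [self_mem_nhdsWithin] with z hz'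
    have hne : rot α * z ≠ 0 := by
      rw [← norm_ne_zero_iff, norm_rot_mul', norm_ne_zero_iff]
      intro h; have := hz'.2; rw [h] at this; simp at this
    exact (G_re_bounds hne (by rw [norm_rot_mul']; exact hz'.1)).1
  · filter_upwards [self_mem_nhdsWithin] with z hz'
    have hne : rot α * z ≠ 0 := by
      rw [← norm_ne_zero_iff, norm_rot_mul', norm_ne_zero_iff]
      intro h; have := hz'.2; rw [h] at this; simp at this
    have := (G_re_bounds hne (by rw [norm_rot_mul']; exact hz'.1)).2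
    rwa [norm_rot_mul'] at this

lemma HD_subset_closedBall : HD ⊆ Metric.closedBall 0 1 := by
  intro z hz
  simpa using hz.1.le

lemma boundary_DD {α : ℝ} (h0 : 0 < α) (hpi : α < Real.pi) {z₀ : ℂ} (hz₀ : z₀ ∈ frontier HD) :
    Tendsto (fun z => (DD α z).re) (𝓝[HD] z₀) (𝓝 0) := by
  rw [isOpen_HD.frontier_eq] at hz₀
  obtain ⟨hcl, hnot⟩ := hz₀
  have hnorm : ‖z₀‖ ≤ 1 := by
    have : closure HD ⊆ Metric.closedBall 0 1 :=
      closure_minimal HD_subset_closedBall Metric.isClosed_closedBall
    simpa using this hcl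
  have him : z₀.im ≤ 0 := by
    have : closure HD ⊆ {z : ℂ | z.im ≤ 0} :=
      closure_minimal (fun z hz => hz.2.le) (isClosed_le Complex.continuous_im continuous_const)
    exact this hcl
  have hR : Tendsto (fun z => ((I / Real.pi) * IR α z).re) (𝓝[HD] z₀)
      (𝓝 ((I / Real.pi) * IR α z₀).re) := by
    have h1 := (cont_R h0 hpi hnorm).mono_left (nhdsWithin_mono z₀ HD_subset_closedBall)
    exact (Complex.continuous_re.tendsto _).comp (h1.const_mul _)
  rcases him.lt_or_eq with him' | him'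
  · -- on the open arc
    have hnorm' : ‖z₀‖ = 1 := by
      rcases hnorm.lt_or_eq with h | h
      · exact absurd ⟨h, him'⟩ hnot
      · exact h
    have hA : Tendsto (fun z => ((I / Real.pi) * IA α z).re) (𝓝[HD] z₀)
        (𝓝 ((I / Real.pi) * IA α z₀).re) := by
      have h1 := (diff_A h0 hpi him').continuousAt.tendsto.mono_left
        (nhdsWithin_le_nhds (s := HD))
      exact (Complex.continuous_re.tendsto _).comp (h1.const_mul _)
    have hG := tendsto_G_circle α hnorm'
    have h2 := (hG.sub hA).add hR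
    have hzero : 0 - ((I / Real.pi) * IA α z₀).re + ((I / Real.pi) * IR α z₀).re = 0 := by
      have := re_circle h0 hpi hnorm' him'
      rw [mul_sub, Complex.sub_re] at this
      linarith
    rw [hzero] at h2
    refine h2.congr fun z => ?_
    unfold DD
    simp only [Complex.sub_re, mul_sub]
    norm_num
    ring
  · -- on the diameter
    obtain ⟨x₀, hx₀⟩ : ∃ x : ℝ, z₀ = (x : ℂ) := ⟨z₀.re, by apply Complex.ext <;> simp [him']⟩
    subst hx₀
    have hx1 : |x₀| ≤ 1 := by simpa using hnorm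
    have hA : Tendsto (fun z => ((I / Real.pi) * IA α z).re) (𝓝[HD] (x₀ : ℂ)) (𝓝 (q α x₀)) :=
      (tendsto_A_real h0 hpi x₀).mono_left (nhdsWithin_mono _ fun z hz => hz.2)
    rw [re_R_real] at hR
    have hG : Tendsto (fun z : ℂ => (G (rot α * z)).re - 1 / 2) (𝓝[HD] (x₀ : ℂ))
        (𝓝 (q α x₀)) := by
      rcases hx1.lt_or_eq with h | h
      · have hc : ContinuousAt G (rot α * x₀) := by
          rcases eq_or_ne x₀ 0 with hx0 | hx0
          · subst hx0; simpa using continuousAt_G_zero
          · exact continuousAt_G (rot_mul_mem h0 hpi hx0).1 (rot_mul_mem h0 hpi hx0).2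
        have hlin : ContinuousAt (fun z : ℂ => rot α * z) (x₀ : ℂ) := by fun_prop
        have hc2 : ContinuousAt (fun z : ℂ => G (rot α * z)) (x₀ : ℂ) :=
          ContinuousAt.comp (g := G) (f := fun z : ℂ => rot α * z) hc hlin
        have hc3 : ContinuousAt (fun z : ℂ => (G (rot α * z)).re - 1 / 2) (x₀ : ℂ) :=
          (Complex.continuous_re.continuousAt.comp hc2).sub continuousAt_const
        have h1 := hc3.tendsto.mono_left (nhdsWithin_le_nhds (s := HD))
        have h2 : (G (rot α * (x₀ : ℂ))).re - 1 / 2 = q α x₀ := by simp [q, h]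
        rw [h2] at h1
        exact h1
      · have h1 := tendsto_G_circle α (z₀ := (x₀ : ℂ)) (by simpa using h)
        rw [q_eq_zero h.ge]
        exact h1
    have h2 := (hG.sub hA).add hR
    rw [sub_self, zero_add] at h2
    refine h2.congr fun z => ?_
    unfold DD
    simp only [Complex.sub_re, mul_sub]
    norm_num
    ring

/-- The Schwarz type formula. -/
theorem schwarz_formula {α : ℝ} (h0 : 0 < α) (hpi : α < Real.pi) :
    ∃ c : ℝ, ∀ z : ℂ, ‖z‖ < 1 → z.im < 0 →
      G (rot α * z) = 1 / 2 + (I / Real.pi) * (IA α z - IR α z) + c * I := by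
  obtain ⟨c, hc⟩ := const_of_boundary isOpen_HD bounded_HD convex_HD.isPreconnected
    (diff_DD h0 hpi) (fun z₀ hz₀ => boundary_DD h0 hpi hz₀)
  refine ⟨c, fun z h1 h2 => ?_⟩
  have := hc z ⟨h1, h2⟩
  unfold DD at this
  linear_combination this

end Pool.Agent.Lib.MP_cf7953_an
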