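import Mathlib
import Pool.Agent.Lib.MP_cf7953_an.Formula

/-!
# Diagonalisable operators: functional calculus and the key positivity
-/

namespace Pool.Agent.Lib.MP_cf7953_an

open Complex Filter Topology Set MeasureTheory

section Basic

variable {E : Type*} [NormedAddCommGroup E] [InnerProductSpace ℂ E]
variable {ι : Type*} [Fintype ι]

/-- The operator with eigenvectors `b j` and eigenvalues `f j`. -/
noncomputable def Op (b : Module.Basis ι ℂ E) (f : ι → ℂ) : E →ₗ[ℂ] E :=
  b.constr ℂ (fun j => f j • b j)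

/-- The weights of the quadratic form. -/
noncomputable def wt (b : Module.Basis ι ℂ E) (x : E) (j : ι) : ℂ :=
  b.repr x j * inner ℂ x (b j)

omit [Fintype ι] in
lemma Op_basis (b : Module.Basis ι ℂ E) (f : ι → ℂ) (j : ι) : Op b f (b j) = f j • b j := by
  unfold Op; rw [Module.Basis.constr_basis]

lemma Op_apply (b : Module.Basis ι ℂ E) (f : ι → ℂ) (x : E) :
    Op b f x = ∑ j, (f j * b.repr x j) • b j := by
  unfold Op
  rw [Module.Basis.constr_apply_fintype]
  refine Finset.sum_congr rfl fun j _ => ?_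
  rw [Module.Basis.equivFun_apply, smul_smul, mul_comm]

omit [Fintype ι] in
lemma Op_Op (b : Module.Basis ι ℂ E) (f g : ι → ℂ) (x : E) :
    Op b f (Op b g x) = Op b (fun j => f j * g j) x := by
  have : (Op b f) ∘ₗ (Op b g) = Op b (fun j => f j * g j) := by
    refine b.ext fun j => ?_
    rw [LinearMap.comp_apply, Op_basis, map_smul, Op_basis, Op_basis, smul_smul, mul_comm]
  rw [← this]; rfl

omit [Fintype ι] in
lemma Op_one (b : Module.Basis ι ℂ E) (x : E) : Op b (fun _ => 1) x = x := by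
  have : Op b (fun _ => 1) = LinearMap.id := by
    refine b.ext fun j => ?_
    rw [Op_basis]; simp
  rw [this]; rfl

lemma Op_add (b : Module.Basis ι ℂ E) (f g : ι → ℂ) (x : E) :
    Op b (fun j => f j + g j) x = Op b f x + Op b g x := by
  rw [Op_apply, Op_apply, Op_apply, ← Finset.sum_add_distrib]
  refine Finset.sum_congr rfl fun j _ => ?_
  rw [add_mul, add_smul]

lemma Op_smul (b : Module.Basis ι ℂ E) (c : ℂ) (f : ι → ℂ) (x : E) :
    Op b (fun j => c * f j) x = c • Op b f x := by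
  rw [Op_apply, Op_apply, Finset.smul_sum]
  refine Finset.sum_congr rfl fun j _ => ?_
  rw [smul_smul, mul_assoc]

lemma inner_Op (b : Module.Basis ι ℂ E) (f : ι → ℂ) (x : E) :
    inner ℂ x (Op b f x) = ∑ j, f j * wt b x j := by
  rw [Op_apply, inner_sum]
  refine Finset.sum_congr rfl fun j _ => ?_
  rw [inner_smul_right, wt]; ring

lemma sum_wt (b : Module.Basis ι ℂ E) (x : E) : ∑ j, wt b x j = ((‖x‖ ^ 2 : ℝ) : ℂ) := by
  have h := inner_Op b (fun _ => 1) x
  rw [Op_one] at h
  simp only [one_mul] at h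
  rw [← h, inner_self_eq_norm_sq_to_K]
  norm_cast

end Basic

section Resolvent

variable {E : Type*} [NormedAddCommGroup E] [InnerProductSpace ℂ E]

lemma inner_self_real (u : E) : inner ℂ u u = ((‖u‖ ^ 2 : ℝ) : ℂ) := by
  rw [inner_self_eq_norm_sq_to_K]; norm_cast

lemma re_conj_I_mul (y t : ℝ) : ((starRingEnd ℂ) (I * (y : ℂ)) * (t : ℂ)).re = 0 := by
  rw [map_mul, Complex.conj_I, Complex.conj_ofReal]
  have : -I * (y : ℂ) * (t : ℂ) = ((-(y * t) : ℝ) : ℂ) * I := by push_cast; ring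
  rw [this, Complex.re_ofReal_mul]; simp

/-- Accretive resolvents. -/
lemma re_inner_resolvent (B : E →ₗ[ℂ] E) (hB : ∀ x, 0 ≤ (inner ℂ x (B x)).re) (y : ℝ) (u : E) :
    0 ≤ (inner ℂ (B u - (I * y) • u) u).re := by
  rw [inner_sub_left, inner_smul_left, Complex.sub_re]
  have h1 : (inner ℂ (B u) u).re = (inner ℂ u (B u)).re := by
    rw [← inner_conj_symm, Complex.conj_re]
  have h2 : ((starRingEnd ℂ) (I * (y : ℂ)) * inner ℂ u u).re = 0 := by
    rw [inner_self_real]; exact re_conj_I_mul _ _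
  rw [h1, h2, sub_zero]
  exact hB u

/-- The second resolvent inequality. -/
lemma re_inner_resolvent_le (B : E →ₗ[ℂ] E) (hB : ∀ x, ‖inner ℂ x (B x)‖ ≤ ‖x‖ ^ 2) {y : ℝ}
    (hy : |y| < 1) (u : E) :
    (inner ℂ (u + (I * y) • B u) (B u)).re ≤ ‖u + (I * y) • B u‖ ^ 2 / (1 - y ^ 2) := by
  set N := ‖u‖ with hN
  set L := ‖B u‖ with hL
  set c := inner ℂ u (B u) with hc
  have hy2 : 0 < 1 - y ^ 2 := by
    have : y ^ 2 = |y| ^ 2 := (sq_abs y).symm
    rw [this]
    have := abs_nonneg y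
    nlinarith
  have h1 : (inner ℂ (u + (I * y) • B u) (B u)).re = c.re := by
    rw [inner_add_left, inner_smul_left, Complex.add_re]
    have h2 : ((starRingEnd ℂ) (I * (y : ℂ)) * inner ℂ (B u) (B u)).re = 0 := by
      rw [inner_self_real]; exact re_conj_I_mul _ _
    rw [h2, add_zero]
  have h2 : ‖u + (I * y) • B u‖ ^ 2 = N ^ 2 + y ^ 2 * L ^ 2 - 2 * y * c.im := by
    have h3 := @norm_add_sq ℂ E _ _ _ u ((I * y) • B u)
    rw [h3, norm_smul, inner_smul_right, norm_mul, Complex.norm_I, one_mul, Complex.norm_real,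
      mul_pow, Real.norm_eq_abs, sq_abs]
    have h4 : RCLike.re (I * (y : ℂ) * c) = -(y * c.im) := by
      simp only [RCLike.re_to_complex, Complex.mul_re, Complex.I_re, Complex.I_im, Complex.mul_im,
        Complex.ofReal_re, Complex.ofReal_im]
      ring
    rw [h4]; ring
  rw [h1, h2, le_div_iff₀ hy2]
  set m := ‖c‖ with hm
  have hm0 : 0 ≤ m := norm_nonneg c
  have hmN : m ≤ N ^ 2 := hB u
  have hmNL : m ≤ N * L := norm_inner_le_norm u (B u)
  have hmsq : m ^ 2 = c.re ^ 2 + c.im ^ 2 := by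
    rw [hm, Complex.sq_norm, Complex.normSq_apply]; ring
  -- Cauchy-Schwarz in the plane
  have h5 : c.re * (1 - y ^ 2) + 2 * y * c.im ≤ (1 + y ^ 2) * m := by
    apply le_of_sq_le_sq _ (by positivity)
    rw [mul_pow, hmsq]
    nlinarith [sq_nonneg ((1 - y ^ 2) * c.im - 2 * y * c.re)]
  have h6 : (1 + y ^ 2) * m ≤ N ^ 2 + y ^ 2 * L ^ 2 := by
    rcases eq_or_lt_of_le (norm_nonneg u) with h0 | h0
    · have : m ≤ 0 := by
        have : N = 0 := by rw [hN, ← h0]
        rw [this] at hmN; simpa using hmN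
      nlinarith [sq_nonneg N, sq_nonneg (y * L), sq_nonneg y]
    · have hNpos : 0 < N := h0
      have h7 : m ^ 2 ≤ N ^ 2 * L ^ 2 := by
        rw [← mul_pow]; exact pow_le_pow_left₀ hm0 hmNL 2
      have h8 : 0 ≤ (N ^ 2 - m) * (N ^ 2 - y ^ 2 * m) := by
        apply mul_nonneg (by linarith)
        have : y ^ 2 * m ≤ 1 * m := mul_le_mul_of_nonneg_right (by linarith) hm0
        linarith
      have h9 : (1 + y ^ 2) * m * N ^ 2 ≤ (N ^ 2 + y ^ 2 * L ^ 2) * N ^ 2 := by
        nlinarith [mul_le_mul_of_nonneg_left h7 (sq_nonneg y)]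
      exact le_of_mul_le_mul_right h9 (by positivity)
  linarith

end Resolvent

end Pool.Agent.Lib.MP_cf7953_an
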