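import Mathlib
import Pool.Agent.Lib.MP_cf7953_an.Oper

/-!
# Density of diagonalisable matrices
-/

namespace Pool.Agent.Lib.MP_cf7953_an

open Complex Filter Topology Set Polynomial

/-- Along the segment from `A` to a matrix `D` with separable characteristic polynomial, all but
finitely many matrices have separable characteristic polynomial. -/
theorem exists_finite_exceptional {n : ℕ} (A D : Matrix (Fin n) (Fin n) ℂ)
    (hD : D.charpoly.Separable) :
    ∃ S : Finset ℂ, ∀ z ∉ S, ((1 - z) • A + z • D).charpoly.Separable := by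
  set P : Matrix (Fin n) (Fin n) ℂ[X] :=
    ((1 : ℂ[X]) - X) • A.map (C : ℂ →+* ℂ[X]) + (X : ℂ[X]) • D.map (C : ℂ →+* ℂ[X]) with hP
  have hPz : ∀ z : ℂ, P.map (evalRingHom z) = (1 - z) • A + z • D := by
    intro z
    ext i j
    simp [hP]
    ring
  set r : ℂ[X] := resultant P.charpoly (derivative P.charpoly) n (n - 1) with hr
  have key : ∀ z : ℂ, r.eval z =
      resultant ((1 - z) • A + z • D).charpoly (derivative ((1 - z) • A + z • D).charpoly) := by
    intro z
    have h1 : ((1 - z) • A + z • D).charpoly = P.charpoly.map (evalRingHom z) := by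
      rw [← hPz z, Matrix.charpoly_map]
    have h2 : ((1 - z) • A + z • D).charpoly.natDegree = n := by
      rw [Matrix.charpoly_natDegree_eq_dim]; simp
    have h3 : (derivative ((1 - z) • A + z • D).charpoly).natDegree = n - 1 := by
      rw [natDegree_derivative, h2]
    rw [h2, h3, h1, derivative_map, resultant_map_map, ← hr]
    rfl
  have hsep : ∀ z : ℂ, r.eval z ≠ 0 → ((1 - z) • A + z • D).charpoly.Separable := by
    intro z hz
    rw [key z, Ne, resultant_eq_zero_iff, not_and, not_not] at hz
    exact hz (Or.inl (Matrix.charpoly_monic _).ne_zero)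
  have hr1 : r.eval 1 ≠ 0 := by
    rw [key 1, Ne, resultant_eq_zero_iff, not_and, not_not]
    intro _
    have : (1 - (1 : ℂ)) • A + (1 : ℂ) • D = D := by simp
    rw [this]
    exact hD
  have hr0 : r ≠ 0 := by
    intro h
    rw [h] at hr1
    simp at hr1
  refine ⟨r.roots.toFinset, fun z hz => hsep z fun h => hz ?_⟩
  rw [Multiset.mem_toFinset, mem_roots hr0]
  exact h

/-- A matrix with separable characteristic polynomial is diagonalisable. -/
theorem exists_eigenbasis {n : ℕ} (hn : 0 < n) (A : Matrix (Fin n) (Fin n) ℂ)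
    (hA : A.charpoly.Separable) :
    ∃ (b : Module.Basis (Fin n) ℂ (EuclideanSpace ℂ (Fin n))) (l : Fin n → ℂ),
      Matrix.toEuclideanLin A = Op b l := by
  have hdeg : A.charpoly.natDegree = n := by
    rw [Matrix.charpoly_natDegree_eq_dim]; simp
  have hcard : A.charpoly.roots.toFinset.card = n := by
    rw [Multiset.toFinset_card_of_nodup (nodup_roots hA)]
    have := (IsAlgClosed.splits A.charpoly).natDegree_eq_card_roots
    rw [← this, hdeg]
  set e := A.charpoly.roots.toFinset.equivFinOfCardEq hcard with he
  set l : Fin n → ℂ := fun i => (e.symm i : ℂ) with hl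
  have hlinj : Function.Injective l := by
    intro i j h
    exact e.symm.injective (Subtype.ext h)
  have hchar : (Matrix.toEuclideanLin A).charpoly = A.charpoly := by
    have : Matrix.toEuclideanLin A = Matrix.toLin (PiLp.basisFun 2 ℂ (Fin n))
        (PiLp.basisFun 2 ℂ (Fin n)) A := rfl
    rw [this, Matrix.charpoly_toLin]
  have heig : ∀ i, Module.End.HasEigenvalue (Matrix.toEuclideanLin A) (l i) := by
    intro i
    rw [Module.End.hasEigenvalue_iff_isRoot_charpoly, hchar]
    have := (e.symm i).2
    rw [Multiset.mem_toFinset] at this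
    exact isRoot_of_mem_roots this
  choose v hv using fun i => (heig i).exists_hasEigenvector
  have hli : LinearIndependent ℂ v :=
    Module.End.eigenvectors_linearIndependent' _ l hlinj v hv
  have : Nonempty (Fin n) := ⟨⟨0, hn⟩⟩
  have hfr : Fintype.card (Fin n) = Module.finrank ℂ (EuclideanSpace ℂ (Fin n)) := by
    rw [finrank_euclideanSpace]
  refine ⟨basisOfLinearIndependentOfCardEqFinrank hli hfr, l, ?_⟩
  refine (basisOfLinearIndependentOfCardEqFinrank hli hfr).ext fun i => ?_
  rw [Op_basis, coe_basisOfLinearIndependentOfCardEqFinrank]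
  exact (hv i).apply_eq_smul

/-- The comparison matrix `diag(1, ..., n)`. -/
noncomputable def Dmat (n : ℕ) : Matrix (Fin n) (Fin n) ℂ :=
  Matrix.diagonal fun i => ((i : ℕ) : ℂ) + 1

theorem Dmat_separable (n : ℕ) : (Dmat n).charpoly.Separable := by
  unfold Dmat
  rw [Matrix.charpoly_diagonal]
  apply separable_prod_X_sub_C_iff.mpr
  intro i j h
  have h' : ((i : ℕ) : ℂ) = ((j : ℕ) : ℂ) := by simpa using h
  exact Fin.ext (by exact_mod_cast h')

end Pool.Agent.Lib.MP_cf7953_an
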