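import Mathlib
import Pool.Agent.Lib.MP_cf7953_an.Oper

/-!
# The key positivity
-/

namespace Pool.Agent.Lib.MP_cf7953_an

open Complex Filter Topology Set MeasureTheory

section Key

variable {E : Type*} [NormedAddCommGroup E] [InnerProductSpace ℂ E]
variable {ι : Type*} [Fintype ι] {b : Module.Basis ι ℂ E}

omit [Fintype ι] in
lemma inner_eig (b : Module.Basis ι ℂ E) (β : ι → ℂ) (j : ι) :
    inner ℂ (b j) (Op b β (b j)) = β j * ((‖b j‖ ^ 2 : ℝ) : ℂ) := by
  rw [Op_basis, inner_smul_right, inner_self_real]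

omit [Fintype ι] in
lemma eig_re_pos {β : ι → ℂ} (hacc : ∀ x ≠ 0, 0 < (inner ℂ x (Op b β x)).re) (j : ι) :
    0 < (β j).re := by
  have hne : b j ≠ 0 := b.ne_zero j
  have h := hacc (b j) hne
  rw [inner_eig, mul_comm, Complex.re_ofReal_mul] at h
  have hpos : 0 < ‖b j‖ ^ 2 := by
    have := norm_pos_iff.mpr hne
    positivity
  exact (mul_pos_iff_of_pos_left hpos).mp h

omit [Fintype ι] in
lemma eig_norm_le {β : ι → ℂ} {ρ : ℝ} (h : ∀ x, ‖inner ℂ x (Op b β x)‖ ≤ ρ * ‖x‖ ^ 2) (j : ι) :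
    ‖β j‖ ≤ ρ := by
  have hne : b j ≠ 0 := b.ne_zero j
  have h1 := h (b j)
  have hpos : 0 < ‖b j‖ ^ 2 := by
    have := norm_pos_iff.mpr hne
    positivity
  rw [inner_eig, norm_mul, Complex.norm_real, Real.norm_of_nonneg hpos.le] at h1
  exact le_of_mul_le_mul_right h1 hpos

lemma kernel_A_nonneg {β : ι → ℂ} (hacc : ∀ x ≠ 0, 0 < (inner ℂ x (Op b β x)).re) (y : ℝ)
    (v : E) : 0 ≤ (∑ j, (1 / (β j - I * y)) * wt b v j).re := by
  have hne : ∀ j, β j - I * y ≠ 0 := by
    intro j h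
    have h1 := congrArg Complex.re h
    have h2 := eig_re_pos hacc j
    simp at h1
    linarith
  have hacc' : ∀ x, 0 ≤ (inner ℂ x (Op b β x)).re := by
    intro x
    rcases eq_or_ne x 0 with h | h
    · subst h; simp
    · exact (hacc x h).le
  rw [← inner_Op]
  set u := Op b (fun j => 1 / (β j - I * y)) v with hu
  have hv : v = Op b β u - (I * y) • u := by
    have h1 : Op b (fun j => (β j - I * y) * (1 / (β j - I * y))) v = v := by
      have : (fun j => (β j - I * y) * (1 / (β j - I * y))) = fun _ : ι => (1 : ℂ) := by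
        ext j
        rw [mul_one_div, div_self (hne j)]
      rw [this, Op_one]
    have h2 : Op b (fun j => (β j - I * y) * (1 / (β j - I * y))) v =
        Op b (fun j => β j + (-(I * y)) * 1) u := by
      rw [hu, Op_Op]
      congr 2
      ext j
      ring
    rw [← h1, h2, Op_add, Op_smul, Op_one, neg_smul, sub_eq_add_neg]
  have := re_inner_resolvent (Op b β) hacc' y u
  rwa [← hv] at this

lemma kernel_R_le {β : ι → ℂ} (hB : ∀ x, ‖inner ℂ x (Op b β x)‖ ≤ ‖x‖ ^ 2) {y : ℝ}
    (hy : |y| < 1) (v : E) :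
    (∑ j, (β j / (1 + I * y * β j)) * wt b v j).re ≤ ‖v‖ ^ 2 / (1 - y ^ 2) := by
  have hnorm : ∀ j, ‖β j‖ ≤ 1 := fun j => eig_norm_le (b := b) (β := β) (by simpa using hB) j
  have hne : ∀ j, 1 + I * y * β j ≠ 0 := by
    intro j h
    have h1 : I * y * β j = -1 := by linear_combination h
    have h2 : ‖I * y * β j‖ = 1 := by rw [h1]; simp
    rw [norm_mul, norm_mul, Complex.norm_I, one_mul, Complex.norm_real, Real.norm_eq_abs] at h2
    have := hnorm j
    have := norm_nonneg (β j)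
    have := abs_nonneg y
    nlinarith
  rw [← inner_Op]
  set u := Op b (fun j => 1 / (1 + I * y * β j)) v with hu
  have hv : v = u + (I * y) • Op b β u := by
    have h1 : Op b (fun j => (1 + I * y * β j) * (1 / (1 + I * y * β j))) v = v := by
      have : (fun j => (1 + I * y * β j) * (1 / (1 + I * y * β j))) = fun _ : ι => (1 : ℂ) := by
        ext j
        rw [mul_one_div, div_self (hne j)]
      rw [this, Op_one]
    have h2 : Op b (fun j => (1 + I * y * β j) * (1 / (1 + I * y * β j))) v =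
        Op b (fun j => 1 + (I * y) * β j) u := by
      rw [hu, Op_Op]
    rw [← h1, h2, Op_add, Op_smul, Op_one]
  have hBu : Op b (fun j => β j / (1 + I * y * β j)) v = Op b β u := by
    rw [hu, Op_Op]
    congr 2
    ext j
    ring
  have := re_inner_resolvent_le (Op b β) hB hy u
  rw [← hv] at this
  rw [hBu]
  exact this

/-- **Key positivity.** -/
theorem key_nonneg {β : ι → ℂ} (hacc : ∀ x ≠ 0, 0 < (inner ℂ x (Op b β x)).re) {ρ : ℝ}
    (hρ : ρ < 1) (hB : ∀ x, ‖inner ℂ x (Op b β x)‖ ≤ ρ * ‖x‖ ^ 2) {α : ℝ} (h0 : 0 < α)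
    (hpi : α < Real.pi) (v : E) :
    0 ≤ (∑ j, G (rot α * (-I * β j)) * wt b v j).re := by
  obtain ⟨c, hc⟩ := schwarz_formula h0 hpi
  have hre : ∀ j, 0 < (β j).re := eig_re_pos hacc
  have hnorm : ∀ j, ‖β j‖ ≤ ρ := eig_norm_le hB
  have hB1 : ∀ x, ‖inner ℂ x (Op b β x)‖ ≤ ‖x‖ ^ 2 := fun x => (hB x).trans (by
    have := sq_nonneg ‖x‖; nlinarith)
  set z : ι → ℂ := fun j => -I * β j with hz
  have hzn : ∀ j, ‖z j‖ < 1 := by
    intro j
    simp only [hz, norm_mul, norm_neg, Complex.norm_I, one_mul]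
    exact lt_of_le_of_lt (hnorm j) hρ
  have hzi : ∀ j, (z j).im < 0 := by
    intro j
    have : (z j).im = -(β j).re := by simp [hz]
    rw [this]; linarith [hre j]
  -- the kernel sum
  set F : ℝ → ℂ := fun x => (q α x : ℂ) * ((∑ j, (1 / (β j - I * x)) * wt b v j) -
    ∑ j, (β j / (1 + I * x * β j)) * wt b v j) with hF
  have hterm : ∀ j, ∀ x : ℝ, I * ((q α x : ℂ) * (1 / ((x : ℂ) - z j)) -
      (q α x : ℂ) * (z j / (1 - (x : ℂ) * z j))) * wt b v j =
      (q α x : ℂ) * ((1 / (β j - I * x)) * wt b v j - (β j / (1 + I * x * β j)) * wt b v j) := by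
    intro j x
    have e1 : (x : ℂ) - z j = I * (β j - I * x) := by
      simp only [hz]
      linear_combination (x : ℂ) * Complex.I_sq
    have e2 : 1 - (x : ℂ) * z j = 1 + I * x * β j := by
      simp only [hz]; ring
    have e3 : I * (1 / ((x : ℂ) - z j)) = 1 / (β j - I * x) := by
      rw [e1, one_div, mul_inv, ← mul_assoc, mul_inv_cancel₀ Complex.I_ne_zero, one_mul, one_div]
    have e4 : I * (z j / (1 - (x : ℂ) * z j)) = β j / (1 + I * x * β j) := by
      rw [e2, ← mul_div_assoc]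
      congr 1
      simp only [hz]
      linear_combination (-β j) * Complex.I_sq
    linear_combination ((q α x : ℂ) * wt b v j) * e3 - ((q α x : ℂ) * wt b v j) * e4
  have hint : ∀ j, Integrable (fun x : ℝ => I * ((q α x : ℂ) * (1 / ((x : ℂ) - z j)) -
      (q α x : ℂ) * (z j / (1 - (x : ℂ) * z j))) * wt b v j) := by
    intro j
    exact (((integrable_A h0 hpi (hzi j)).sub (integrable_R h0 hpi (hzn j).le)).const_mul I).mul_const _
  have hFsum : F = fun x => ∑ j, I * ((q α x : ℂ) * (1 / ((x : ℂ) - z j)) -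
      (q α x : ℂ) * (z j / (1 - (x : ℂ) * z j))) * wt b v j := by
    ext x
    simp only [hF]
    rw [← Finset.sum_sub_distrib, Finset.mul_sum]
    exact Finset.sum_congr rfl fun j _ => (hterm j x).symm
  have hFint : Integrable F := by
    rw [hFsum]
    exact integrable_finsetSum _ fun j _ => hint j
  have hFI : ∫ x, F x = ∑ j, I * (IA α (z j) - IR α (z j)) * wt b v j := by
    rw [hFsum, integral_finsetSum _ fun j _ => hint j]
    refine Finset.sum_congr rfl fun j _ => ?_
    rw [integral_mul_const, integral_const_mul,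
      integral_sub (integrable_A h0 hpi (hzi j)) (integrable_R h0 hpi (hzn j).le)]
    rfl
  -- rewrite the target
  have hsum : ∑ j, G (rot α * (-I * β j)) * wt b v j =
      (((1 / 2 : ℝ) : ℂ) + (c : ℂ) * I) * ((‖v‖ ^ 2 : ℝ) : ℂ) + ((1 / Real.pi : ℝ) : ℂ) * ∫ x, F x := by
    rw [hFI, ← sum_wt b v, Finset.mul_sum, Finset.mul_sum, ← Finset.sum_add_distrib]
    refine Finset.sum_congr rfl fun j _ => ?_
    have := hc (z j) (hzn j) (hzi j)
    simp only [hz] at this ⊢
    rw [this]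
    push_cast
    ring
  rw [hsum, Complex.add_re, Complex.re_ofReal_mul]
  have h1 : ((((1 / 2 : ℝ) : ℂ) + (c : ℂ) * I) * ((‖v‖ ^ 2 : ℝ) : ℂ)).re = 1 / 2 * ‖v‖ ^ 2 := by
    rw [mul_comm, Complex.re_ofReal_mul, Complex.add_re, Complex.ofReal_re, Complex.re_ofReal_mul]
    simp
    ring
  have h2 : -(Real.pi / 2 * ‖v‖ ^ 2) ≤ (∫ x, F x).re := by
    have h3 := integral_re (𝕜 := ℂ) hFint
    simp only [RCLike.re_to_complex] at h3
    rw [← h3]
    have h4 : ∫ x : ℝ, -(q α x / (1 - x ^ 2) * ‖v‖ ^ 2) ≤ ∫ x, (F x).re := by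
      refine integral_mono ((integrable_q_div_sq h0 hpi).mul_const _).neg hFint.re fun x => ?_
      simp only [hF]
      rw [Complex.re_ofReal_mul, Complex.sub_re]
      by_cases hx : |x| < 1
      · have k1 := kernel_A_nonneg hacc x v
        have k2 := kernel_R_le hB1 hx v
        have k3 := q_nonneg α x
        have k4 : q α x * (-(‖v‖ ^ 2 / (1 - x ^ 2))) ≤ q α x *
            ((∑ j, (1 / (β j - I * x)) * wt b v j).re -
              (∑ j, (β j / (1 + I * x * β j)) * wt b v j).re) :=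
          mul_le_mul_of_nonneg_left (by linarith) k3
        refine le_trans (le_of_eq ?_) k4
        ring
      · rw [q_eq_zero (not_lt.mp hx)]; simp
    refine le_trans ?_ h4
    rw [integral_neg, integral_mul_const]
    have h5 := integral_q_div_sq_le h0 hpi
    have h6 : 0 ≤ ‖v‖ ^ 2 := by positivity
    nlinarith
  rw [h1]
  have h7 : 1 / Real.pi * (-(Real.pi / 2 * ‖v‖ ^ 2)) ≤ 1 / Real.pi * (∫ x, F x).re :=
    mul_le_mul_of_nonneg_left h2 (by positivity)
  have h8 : 1 / Real.pi * (-(Real.pi / 2 * ‖v‖ ^ 2)) = -(1 / 2 * ‖v‖ ^ 2) := by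
    field_simp
  linarith

end Key

end Pool.Agent.Lib.MP_cf7953_an
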