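import Mathlib
import Pool.Agent.Lib.MP_cf7953_an.Key

/-!
# The infinitesimal inequality
-/

namespace Pool.Agent.Lib.MP_cf7953_an

open Complex Filter Topology Set MeasureTheory

section

variable {E : Type*} [NormedAddCommGroup E] [InnerProductSpace ℂ E]

lemma weak_adjoint (N : E →ₗ[ℂ] E) (hN : ∀ x, ‖inner ℂ x (N x)‖ ≤ ‖x‖ ^ 2) {x₀ : E}
    (hx₀ : ‖x₀‖ = 1) (h1 : inner ℂ x₀ (N x₀) = 1) (y : E) :
    inner ℂ x₀ (N y) + inner ℂ (N x₀) y = 2 * inner ℂ x₀ y := by
  set P : E → ℝ := fun x => ‖x‖ ^ 2 - (inner ℂ x (N x)).re with hP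
  have hPn : ∀ x, 0 ≤ P x := by
    intro x
    have h2 := hN x
    have h3 := Complex.re_le_norm (inner ℂ x (N x))
    simp only [hP]; linarith
  set H : ℂ := 2 * inner ℂ x₀ y - inner ℂ x₀ (N y) - inner ℂ (N x₀) y with hH
  have hexp : ∀ t : ℂ, P (x₀ + t • y) = (t * H).re + ‖t‖ ^ 2 * P y := by
    intro t
    simp only [hP]
    have h2 := @norm_add_sq ℂ E _ _ _ x₀ (t • y)
    rw [h2, norm_smul, inner_smul_right, hx₀]
    have h3 : inner ℂ (x₀ + t • y) (N (x₀ + t • y)) = inner ℂ x₀ (N x₀) + t * inner ℂ x₀ (N y) +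
        (starRingEnd ℂ) t * inner ℂ y (N x₀) + ((‖t‖ ^ 2 : ℝ) : ℂ) * inner ℂ y (N y) := by
      rw [map_add, map_smul, inner_add_left, inner_add_right, inner_add_right, inner_smul_left,
        inner_smul_right, inner_smul_left, inner_smul_right]
      have : (starRingEnd ℂ) t * (t * inner ℂ y (N y)) =
          ((‖t‖ ^ 2 : ℝ) : ℂ) * inner ℂ y (N y) := by
        rw [← mul_assoc, ← Complex.normSq_eq_norm_sq, Complex.normSq_eq_conj_mul_self]
      rw [this]; ring
    rw [h3, h1]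
    have h4 : ((starRingEnd ℂ) t * inner ℂ y (N x₀)).re = (t * inner ℂ (N x₀) y).re := by
      rw [← Complex.conj_re, map_mul, Complex.conj_conj, inner_conj_symm]
    simp only [Complex.add_re, h4, Complex.one_re, RCLike.re_to_complex, Complex.re_ofReal_mul]
    rw [hH]
    simp only [mul_sub, Complex.sub_re]
    have h5 : (t * (2 * inner ℂ x₀ y)).re = 2 * (t * inner ℂ x₀ y).re := by
      have : t * (2 * inner ℂ x₀ y) = ((2 : ℝ) : ℂ) * (t * inner ℂ x₀ y) := by push_cast; ring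
      rw [this, Complex.re_ofReal_mul]
    rw [h5]
    ring
  have hH0 : H = 0 := by
    by_contra hne
    have hpos : 0 < ‖H‖ := norm_pos_iff.mpr hne
    set ε := 1 / (P y + 1) with hε
    have hPy := hPn y
    have hεpos : 0 < ε := by positivity
    have h2 := hPn (x₀ + (-(ε : ℂ) * (starRingEnd ℂ) H) • y)
    rw [hexp] at h2
    have h3 : (-(ε : ℂ) * (starRingEnd ℂ) H * H).re = -(ε * ‖H‖ ^ 2) := by
      have : -(ε : ℂ) * (starRingEnd ℂ) H * H = ((-(ε * ‖H‖ ^ 2) : ℝ) : ℂ) := by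
        rw [← Complex.normSq_eq_norm_sq]
        push_cast
        rw [Complex.normSq_eq_conj_mul_self]; ring
      rw [this, Complex.ofReal_re]
    have h4 : ‖-(ε : ℂ) * (starRingEnd ℂ) H‖ = ε * ‖H‖ := by
      rw [norm_mul, norm_neg, Complex.norm_real, Real.norm_of_nonneg hεpos.le, RCLike.norm_conj]
    rw [h3, h4] at h2
    have h5 : ε * (P y + 1) = 1 := by rw [hε]; field_simp
    have h6 : 0 < ε * ‖H‖ ^ 2 := by positivity
    have h7 : (ε * ‖H‖) ^ 2 * P y = (ε * ‖H‖ ^ 2) * (1 - ε) := by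
      have : ε * P y = 1 - ε := by linarith
      calc (ε * ‖H‖) ^ 2 * P y = (ε * ‖H‖ ^ 2) * (ε * P y) := by ring
        _ = _ := by rw [this]
    rw [h7] at h2
    nlinarith
  rw [hH] at hH0
  linear_combination -hH0

variable {ι : Type*} [Fintype ι] {b : Module.Basis ι ℂ E}

/-- **The infinitesimal inequality.** -/
theorem infinitesimal {β : ι → ℂ} (hacc : ∀ x ≠ 0, 0 < (inner ℂ x (Op b β x)).re)
    (hB : ∀ x, ‖inner ℂ x (Op b β x)‖ ≤ ‖x‖ ^ 2) {x₀ : E} (hx₀ : ‖x₀‖ = 1) {w : ℂ}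
    (hw : ‖w‖ = 1) (h1 : inner ℂ x₀ (Op b β x₀) = w) :
    ((starRingEnd ℂ) w * ∑ j, β j * log (β j) * wt b x₀ j).re ≤ 0 := by
  have hx0ne : x₀ ≠ 0 := by
    intro h; rw [h, norm_zero] at hx₀; exact zero_ne_one hx₀
  have hwre : 0 < w.re := by rw [← h1]; exact hacc x₀ hx0ne
  have hw0 : w ≠ 0 := by intro h; rw [h] at hwre; simp at hwre
  set θ := arg w with hθ
  have hθ1 : |θ| < Real.pi / 2 := Complex.abs_arg_lt_pi_div_two_iff.mpr (Or.inl hwre)
  have hθ2 := abs_lt.mp hθ1
  set α := Real.pi / 2 - θ with hα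
  have hα0 : 0 < α := by rw [hα]; linarith [hθ2.2]
  have hαpi : α < Real.pi := by rw [hα]; linarith [hθ2.1]
  have hwexp : w = Complex.exp (θ * I) := by
    have := Complex.norm_mul_exp_arg_mul_I w
    rw [hw, Complex.ofReal_one, one_mul] at this
    exact this.symm
  have hconjw : (starRingEnd ℂ) w = Complex.exp (-(θ * I)) := by
    rw [hwexp, ← Complex.exp_conj]
    congr 1
    rw [map_mul, Complex.conj_I, Complex.conj_ofReal]; ring
  have hrot : rot α = I * (starRingEnd ℂ) w := by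
    rw [hconjw]
    unfold rot
    have : ((α : ℝ) : ℂ) * I = (Real.pi / 2 : ℂ) * I + (-(θ * I)) := by
      rw [hα]; push_cast; ring
    rw [this, Complex.exp_add, Complex.exp_pi_div_two_mul_I]
  have hconjmul : (starRingEnd ℂ) w * w = 1 := by
    rw [← Complex.normSq_eq_conj_mul_self, Complex.normSq_eq_norm_sq, hw]; simp
  set δ : ι → ℂ := fun j => (starRingEnd ℂ) w * β j with hδ
  have hrotδ : ∀ (r : ℝ) j, rot α * (-I * ((r : ℂ) * β j)) = (r : ℂ) * δ j := by
    intro r j
    rw [hrot]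
    simp only [hδ]
    linear_combination (-(starRingEnd ℂ) w * (r : ℂ) * β j) * Complex.I_sq
  have hre : ∀ j, 0 < (β j).re := eig_re_pos hacc
  have hnorm : ∀ j, ‖β j‖ ≤ 1 := fun j => eig_norm_le (b := b) (β := β) (by simpa using hB) j
  have hslit : ∀ j, δ j ∈ slitPlane := by
    intro j
    have h2 := rot_mul_slit hα0 hαpi (z := -I * β j) (by
      have : (-I * β j).im = -(β j).re := by simp
      rw [this]; linarith [hre j])
    have h3 := hrotδ 1 j
    rw [Complex.ofReal_one, one_mul, one_mul] at h3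
    rwa [h3] at h2
  -- the operator N
  set N : E →ₗ[ℂ] E := Op b δ with hN
  have hNB : ∀ x, N x = (starRingEnd ℂ) w • Op b β x := by
    intro x; rw [hN, hδ, Op_smul]
  have hNn : ∀ x, ‖inner ℂ x (N x)‖ ≤ ‖x‖ ^ 2 := by
    intro x
    rw [hNB, inner_smul_right, norm_mul, RCLike.norm_conj, hw, one_mul]
    exact hB x
  have hN1 : inner ℂ x₀ (N x₀) = 1 := by
    rw [hNB, inner_smul_right, h1]; exact hconjmul
  have hweak := weak_adjoint N hNn hx₀ hN1
  set v : E := Op b (fun j => 1 - δ j) x₀ with hv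
  have hOp1 : ∀ y : E, Op b (fun j => 1 - δ j) y = y - N y := by
    intro y
    have : (fun j => 1 - δ j) = fun j => (1 : ℂ) + (-1) * δ j := by ext j; ring
    rw [this, Op_add, Op_one, Op_smul, neg_one_smul, sub_eq_add_neg]
  have hvy : ∀ y : E, inner ℂ v y = -inner ℂ x₀ (Op b (fun j => 1 - δ j) y) := by
    intro y
    rw [hv, hOp1, hOp1, inner_sub_left, inner_sub_right]
    linear_combination -(hweak y)
  have hrel : ∀ f : ι → ℂ, ∑ j, f j * wt b v j = -∑ j, (1 - δ j) ^ 2 * f j * wt b x₀ j := by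
    intro f
    rw [← inner_Op, hvy, Op_Op]
    congr 1
    rw [hv, Op_Op, inner_Op]
    refine Finset.sum_congr rfl fun j _ => ?_
    ring
  -- inequality for r < 1
  have hr : ∀ r : ℝ, 0 < r → r < 1 →
      (∑ j, (1 - δ j) ^ 2 * G ((r : ℂ) * δ j) * wt b x₀ j).re ≤ 0 := by
    intro r hr0 hr1
    have hOpr : ∀ x, Op b (fun j => (r : ℂ) * β j) x = (r : ℂ) • Op b β x := fun x => Op_smul b _ _ x
    have hacc' : ∀ x ≠ 0, 0 < (inner ℂ x (Op b (fun j => (r : ℂ) * β j) x)).re := by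
      intro x hx
      rw [hOpr, inner_smul_right, Complex.re_ofReal_mul]
      exact mul_pos hr0 (hacc x hx)
    have hB' : ∀ x, ‖inner ℂ x (Op b (fun j => (r : ℂ) * β j) x)‖ ≤ r * ‖x‖ ^ 2 := by
      intro x
      rw [hOpr, inner_smul_right, norm_mul, Complex.norm_real, Real.norm_of_nonneg hr0.le]
      exact mul_le_mul_of_nonneg_left (hB x) hr0.le
    have hk := key_nonneg hacc' hr1 hB' hα0 hαpi v
    have h2 : ∑ j, G (rot α * (-I * ((r : ℂ) * β j))) * wt b v j =
        -∑ j, (1 - δ j) ^ 2 * G ((r : ℂ) * δ j) * wt b x₀ j := by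
      rw [← hrel (fun j => G ((r : ℂ) * δ j))]
      refine Finset.sum_congr rfl fun j _ => ?_
      rw [hrotδ]
    rw [h2, Complex.neg_re] at hk
    linarith
  -- the limit r → 1
  have hlim : Tendsto (fun r : ℝ => (∑ j, (1 - δ j) ^ 2 * G ((r : ℂ) * δ j) * wt b x₀ j).re)
      (𝓝[<] 1) (𝓝 (∑ j, (δ j * log (δ j) + 1 - δ j) * wt b x₀ j).re) := by
    refine (Complex.continuous_re.tendsto _).comp ?_
    refine tendsto_finsetSum _ fun j _ => ?_
    refine Tendsto.mul_const _ ?_
    by_cases hj : δ j = 1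
    · simp only [hj]
      simp
    · have hG : ContinuousAt G (δ j) := continuousAt_G (hslit j) hj
      have hval : (1 - δ j) ^ 2 * G (δ j) = δ j * log (δ j) + 1 - δ j := by
        unfold G
        have : (1 - δ j) ^ 2 ≠ 0 := pow_ne_zero 2 (sub_ne_zero.mpr (Ne.symm hj))
        field_simp
      rw [← hval]
      refine Tendsto.const_mul _ ?_
      have hc : ContinuousAt (fun r : ℝ => G ((r : ℂ) * δ j)) 1 := by
        have hlin : ContinuousAt (fun r : ℝ => (r : ℂ) * δ j) 1 := by fun_prop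
        have hG' : ContinuousAt G (((1 : ℝ) : ℂ) * δ j) := by simpa using hG
        exact ContinuousAt.comp (g := G) (f := fun r : ℝ => (r : ℂ) * δ j) hG' hlin
      have := hc.tendsto
      simp only [Complex.ofReal_one, one_mul] at this
      exact this.mono_left nhdsWithin_le_nhds
  have hle : (∑ j, (δ j * log (δ j) + 1 - δ j) * wt b x₀ j).re ≤ 0 := by
    refine le_of_tendsto hlim ?_
    have : Ioo (0 : ℝ) 1 ∈ 𝓝[<] (1 : ℝ) := Ioo_mem_nhdsLT zero_lt_one
    filter_upwards [this] with r hr'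
    exact hr r hr'.1 hr'.2
  -- conclusion
  have hsum1 : ∑ j, wt b x₀ j = 1 := by rw [sum_wt, hx₀]; simp
  have hsumδ : ∑ j, δ j * wt b x₀ j = 1 := by rw [← inner_Op]; exact hN1
  have hlogβ : ∀ j, log (β j) = log (δ j) + θ * I := by
    intro j
    have hβ0 : β j ≠ 0 := by intro h; have := hre j; rw [h] at this; simp at this
    have hargβ : |arg (β j)| < Real.pi / 2 :=
      Complex.abs_arg_lt_pi_div_two_iff.mpr (Or.inl (hre j))
    have hargβ' := abs_lt.mp hargβ
    have hδexp : δ j = Complex.exp (log (β j) - θ * I) := by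
      simp only [hδ]
      rw [hconjw, Complex.exp_sub, Complex.exp_log hβ0, Complex.exp_neg]
      ring
    have him : (log (β j) - θ * I).im = arg (β j) - θ := by
      rw [Complex.sub_im, Complex.log_im]; simp
    rw [hδexp, Complex.log_exp]
    · ring
    · rw [him]; linarith [hθ2.2, hargβ'.1]
    · rw [him]; linarith [hθ2.1, hargβ'.2]
  have hfin : (starRingEnd ℂ) w * ∑ j, β j * log (β j) * wt b x₀ j =
      (∑ j, (δ j * log (δ j) + 1 - δ j) * wt b x₀ j) + θ * I := by
    have e : ∀ j, (starRingEnd ℂ) w * (β j * log (β j) * wt b x₀ j) =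
        (δ j * log (δ j) + 1 - δ j) * wt b x₀ j - wt b x₀ j + δ j * wt b x₀ j +
          θ * I * (δ j * wt b x₀ j) := by
      intro j
      rw [hlogβ j]
      simp only [hδ]
      ring
    rw [Finset.mul_sum, Finset.sum_congr rfl fun j _ => e j, Finset.sum_add_distrib,
      Finset.sum_add_distrib, Finset.sum_sub_distrib, ← Finset.mul_sum, hsum1, hsumδ]
    ring
  rw [hfin, Complex.add_re, Complex.re_ofReal_mul, Complex.I_re, mul_zero, add_zero]
  exact hle

end

end Pool.Agent.Lib.MP_cf7953_an
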