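import Mathlib

/-!
# The scalar integral formula for fractional powers
-/

namespace Pool.Agent.Lib.MP_cf7953_an

open Complex Filter Topology Set MeasureTheory

lemma integral_exp_mul {c : ℝ} (hc : 0 < c) : ∫ x in Ioi (0 : ℝ), Real.exp (-(c * x)) = 1 / c := by
  have h := Real.integral_rpow_mul_exp_neg_mul_Ioi (a := 1) (r := c) one_pos hc
  simpa using h

lemma integrable_exp_mul {c : ℝ} (hc : 0 < c) :
    IntegrableOn (fun x : ℝ => Real.exp (-(c * x))) (Ioi (0 : ℝ)) := by
  have := integrableOn_exp_mul_Ioi (a := -c) (by linarith) 0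
  refine this.congr_fun (fun x _ => ?_) measurableSet_Ioi
  simp only [neg_mul]

lemma integrable_pow_div {p : ℝ} (hp0 : 0 < p) (hp1 : p < 1) {c : ℝ} (hc : 0 < c) :
    IntegrableOn (fun t : ℝ => t ^ (p - 1) / (t + c)) (Ioi (0 : ℝ)) := by
  have h := Real.integrableOn_rpowIntegrand₀₁_Ioi (p := p) (x := c) ⟨hp0, hp1⟩ hc.le
  have h2 : IntegrableOn (fun t : ℝ => t ^ (p - 1) * c / (t + c)) (Ioi (0 : ℝ)) :=
    h.congr_fun (Real.rpowIntegrand₀₁_eqOn_pow_div ⟨hp0, hp1⟩ hc.le) measurableSet_Ioi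
  have h3 : IntegrableOn (fun t : ℝ => c⁻¹ * (t ^ (p - 1) * c / (t + c))) (Ioi (0 : ℝ)) :=
    h2.const_mul c⁻¹
  refine h3.congr_fun (fun t _ => ?_) measurableSet_Ioi
  field_simp

/-- `∫_0^∞ t^(p-1)/(t+1) dt = π / sin (π p)`. -/
lemma integral_const {p : ℝ} (hp0 : 0 < p) (hp1 : p < 1) :
    ∫ t in Ioi (0 : ℝ), t ^ (p - 1) / (t + 1) = Real.pi / Real.sin (Real.pi * p) := by
  have hmeas : AEStronglyMeasurable
      (Function.uncurry fun (t x : ℝ) => t ^ (p - 1) * Real.exp (-((t + 1) * x)))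
      ((volume.restrict (Ioi (0 : ℝ))).prod (volume.restrict (Ioi (0 : ℝ)))) := by
    apply Measurable.aestronglyMeasurable
    unfold Function.uncurry
    fun_prop
  have hint : Integrable (Function.uncurry fun (t x : ℝ) => t ^ (p - 1) * Real.exp (-((t + 1) * x)))
      ((volume.restrict (Ioi (0 : ℝ))).prod (volume.restrict (Ioi (0 : ℝ)))) := by
    rw [integrable_prod_iff hmeas]
    constructor
    · filter_upwards [ae_restrict_mem measurableSet_Ioi] with t ht
      simp only [Function.uncurry]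
      have ht' : 0 < t + 1 := by have := mem_Ioi.mp ht; linarith
      exact (integrable_exp_mul ht').const_mul _
    · have h1 := integrable_pow_div hp0 hp1 one_pos
      refine h1.congr_fun (fun t ht => ?_) measurableSet_Ioi
      simp only [Function.uncurry]
      have ht0 : 0 < t := ht
      have ht' : 0 < t + 1 := by linarith
      have h2 : ∀ x : ℝ, ‖t ^ (p - 1) * Real.exp (-((t + 1) * x))‖ =
          t ^ (p - 1) * Real.exp (-((t + 1) * x)) := fun x =>
        Real.norm_of_nonneg (by positivity)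
      simp_rw [h2]
      rw [integral_const_mul, integral_exp_mul ht']
      ring
  have hswap := integral_integral_swap hint
  have hL : ∫ t in Ioi (0 : ℝ), ∫ x in Ioi (0 : ℝ), t ^ (p - 1) * Real.exp (-((t + 1) * x)) =
      ∫ t in Ioi (0 : ℝ), t ^ (p - 1) / (t + 1) := by
    refine setIntegral_congr_fun measurableSet_Ioi fun t ht => ?_
    have ht0 : 0 < t := ht
    have ht' : 0 < t + 1 := by linarith
    rw [integral_const_mul, integral_exp_mul ht']
    ring
  have hR : ∫ x in Ioi (0 : ℝ), ∫ t in Ioi (0 : ℝ), t ^ (p - 1) * Real.exp (-((t + 1) * x)) =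
      Real.Gamma p * Real.Gamma (1 - p) := by
    have h1 : ∀ x ∈ Ioi (0 : ℝ), ∫ t in Ioi (0 : ℝ), t ^ (p - 1) * Real.exp (-((t + 1) * x)) =
        Real.Gamma p * (x ^ ((1 - p) - 1) * Real.exp (-(1 * x))) := by
      intro x hx
      have hx0 : 0 < x := hx
      have h2 : ∀ t : ℝ, t ^ (p - 1) * Real.exp (-((t + 1) * x)) =
          Real.exp (-x) * (t ^ (p - 1) * Real.exp (-(x * t))) := by
        intro t
        have : -((t + 1) * x) = -x + -(x * t) := by ring
        rw [this, Real.exp_add]; ring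
      simp_rw [h2]
      rw [integral_const_mul, Real.integral_rpow_mul_exp_neg_mul_Ioi hp0 hx0]
      have h3 : (1 / x) ^ p = x ^ ((1 - p) - 1) := by
        rw [one_div, Real.inv_rpow hx0.le, ← Real.rpow_neg hx0.le]
        congr 1; ring
      rw [h3, one_mul]; ring
    rw [setIntegral_congr_fun measurableSet_Ioi h1, integral_const_mul,
      Real.integral_rpow_mul_exp_neg_mul_Ioi (by linarith) one_pos]
    simp
  rw [hL] at hswap
  rw [hswap, hR, Real.Gamma_mul_Gamma_one_sub]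

/-- Integrand. -/
noncomputable def pint (p : ℝ) (l : ℂ) (t : ℝ) : ℂ := ((t ^ (p - 1) : ℝ) : ℂ) * (l / ((t : ℂ) + l))

lemma norm_add_ge {l : ℂ} {t : ℝ} (_ht : 0 < t) {c : ℝ} (hc : c ≤ l.re) (_hc0 : 0 < c) :
    t + c ≤ ‖(t : ℂ) + l‖ := by
  have h := Complex.re_le_norm ((t : ℂ) + l)
  rw [Complex.add_re, Complex.ofReal_re] at h
  linarith

lemma meas_pint (p : ℝ) (l : ℂ) : Measurable (pint p l) := by
  unfold pint
  have h1 : Measurable fun t : ℝ => ((t ^ (p - 1) : ℝ) : ℂ) :=
    Complex.measurable_ofReal.comp (by fun_prop)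
  have h2 : Measurable fun t : ℝ => (l / ((t : ℂ) + l)) :=
    measurable_const.div (Complex.measurable_ofReal.add_const l)
  exact h1.mul h2

lemma norm_pint_le {p : ℝ} {l : ℂ} {c : ℝ} (hc : c ≤ l.re) (hc0 : 0 < c) {t : ℝ} (ht : 0 < t) :
    ‖pint p l t‖ ≤ ‖l‖ * (t ^ (p - 1) / (t + c)) := by
  unfold pint
  rw [norm_mul, norm_div, Complex.norm_real, Real.norm_of_nonneg (by positivity)]
  have h1 := norm_add_ge ht hc hc0
  have h2 : 0 < t + c := by linarith
  rw [← mul_div_assoc, ← mul_div_assoc, mul_comm (‖l‖)]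
  exact div_le_div_of_nonneg_left (by positivity) h2 h1

lemma integrable_pint {p : ℝ} (hp0 : 0 < p) (hp1 : p < 1) {l : ℂ} (hl : 0 < l.re) :
    IntegrableOn (pint p l) (Ioi (0 : ℝ)) := by
  refine Integrable.mono' ((integrable_pow_div hp0 hp1 hl).const_mul ‖l‖)
    (meas_pint p l).aestronglyMeasurable ?_
  filter_upwards [ae_restrict_mem measurableSet_Ioi] with t ht
  exact norm_pint_le le_rfl hl ht

lemma diff_pint {p : ℝ} (hp0 : 0 < p) (hp1 : p < 1) {l₀ : ℂ} (hl : 0 < l₀.re) :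
    DifferentiableAt ℂ (fun l => ∫ t in Ioi (0 : ℝ), pint p l t) l₀ := by
  set c := l₀.re / 2 with hc
  have hcpos : 0 < c := by linarith
  have hball : ∀ w ∈ Metric.ball l₀ c, c ≤ w.re := by
    intro w hw
    rw [Metric.mem_ball, dist_eq_norm] at hw
    have h1 := Complex.abs_re_le_norm (w - l₀)
    rw [Complex.sub_re] at h1
    have h2 := (abs_le.mp (h1.trans hw.le)).1
    rw [hc] at h2 ⊢
    linarith
  have hmeas' : AEStronglyMeasurable
      (fun t : ℝ => ((t ^ (p - 1) : ℝ) : ℂ) * ((t : ℂ) / ((t : ℂ) + l₀) ^ 2))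
      (volume.restrict (Ioi (0 : ℝ))) := by
    have h1 : Measurable fun t : ℝ => ((t ^ (p - 1) : ℝ) : ℂ) :=
      Complex.measurable_ofReal.comp (by fun_prop)
    have h2 : Measurable fun t : ℝ => ((t : ℂ) / ((t : ℂ) + l₀) ^ 2) :=
      Complex.measurable_ofReal.div ((Complex.measurable_ofReal.add_const l₀).pow_const 2)
    exact (h1.mul h2).aestronglyMeasurable
  have := hasDerivAt_integral_of_dominated_loc_of_deriv_le
    (F := fun (l : ℂ) (t : ℝ) => pint p l t)
    (F' := fun (l : ℂ) (t : ℝ) => ((t ^ (p - 1) : ℝ) : ℂ) * ((t : ℂ) / ((t : ℂ) + l) ^ 2))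
    (bound := fun t => t ^ (p - 1) / (t + c)) (μ := volume.restrict (Ioi (0 : ℝ)))
    (Metric.ball_mem_nhds l₀ hcpos)
    (Eventually.of_forall fun l => (meas_pint p l).aestronglyMeasurable)
    (integrable_pint hp0 hp1 hl) hmeas' ?_ (integrable_pow_div hp0 hp1 hcpos) ?_
  · exact this.2.differentiableAt
  · filter_upwards [ae_restrict_mem measurableSet_Ioi] with t ht w hw
    have ht0 : 0 < t := ht
    rw [norm_mul, norm_div, norm_pow, Complex.norm_real, Complex.norm_real,
      Real.norm_of_nonneg (by positivity), Real.norm_of_nonneg ht0.le,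
      div_eq_mul_one_div (t ^ (p - 1)) (t + c)]
    apply mul_le_mul_of_nonneg_left _ (by positivity)
    have h1 := norm_add_ge ht0 (hball w hw) hcpos
    have h2 : 0 < t + c := by linarith
    have h3 : (t + c) ^ 2 ≤ ‖(t : ℂ) + w‖ ^ 2 := pow_le_pow_left₀ h2.le h1 2
    have h4 : 0 < ‖(t : ℂ) + w‖ ^ 2 := by
      have : 0 < ‖(t : ℂ) + w‖ := by linarith
      positivity
    rw [div_le_div_iff₀ h4 h2]
    nlinarith
  · filter_upwards [ae_restrict_mem measurableSet_Ioi] with t ht w hw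
    have ht0 : 0 < t := ht
    have hne : (t : ℂ) + w ≠ 0 := by
      intro h
      have h1 := norm_add_ge ht0 (hball w hw) hcpos
      rw [h, norm_zero] at h1; linarith
    have h1 : HasDerivAt (fun z : ℂ => (t : ℂ) + z) 1 w := (hasDerivAt_id w).const_add (t : ℂ)
    have h2 := ((hasDerivAt_id w).div h1 hne).const_mul (((t ^ (p - 1) : ℝ) : ℂ))
    refine h2.congr_deriv ?_
    simp only [id_eq]
    congr 2
    ring

/-- The scalar formula on the right half plane. -/
theorem cpow_eq_integral {p : ℝ} (hp0 : 0 < p) (hp1 : p < 1) {l : ℂ} (hl : 0 < l.re) :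
    ((Real.sin (p * Real.pi) / Real.pi : ℝ) : ℂ) * ∫ t in Ioi (0 : ℝ), pint p l t =
      l ^ (p : ℂ) := by
  set U : Set ℂ := {z | 0 < z.re} with hU
  have hUo : IsOpen U := isOpen_lt continuous_const Complex.continuous_re
  have hUc : IsPreconnected U := (convex_halfSpace_re_gt 0).isPreconnected
  have hf : AnalyticOnNhd ℂ (fun l => ((Real.sin (p * Real.pi) / Real.pi : ℝ) : ℂ) *
      ∫ t in Ioi (0 : ℝ), pint p l t) U := by
    apply DifferentiableOn.analyticOnNhd _ hUo
    intro z hz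
    exact ((diff_pint hp0 hp1 hz).const_mul _).differentiableWithinAt
  have hg : AnalyticOnNhd ℂ (fun l : ℂ => l ^ (p : ℂ)) U := by
    apply DifferentiableOn.analyticOnNhd _ hUo
    intro z hz
    exact (DifferentiableAt.cpow differentiableAt_id (differentiableAt_const _)
      (Or.inl hz)).differentiableWithinAt
  have hreal : ∀ x : ℝ, 0 < x → ((Real.sin (p * Real.pi) / Real.pi : ℝ) : ℂ) *
      ∫ t in Ioi (0 : ℝ), pint p (x : ℂ) t = (x : ℂ) ^ (p : ℂ) := by
    intro x hx
    have h1 := Real.integral_rpowIntegrand₀₁_eq_rpow_mul_const (p := p) (x := x) ⟨hp0, hp1⟩ hx.le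
    have h2 : ∫ t in Ioi (0 : ℝ), Real.rpowIntegrand₀₁ p t x =
        ∫ t in Ioi (0 : ℝ), t ^ (p - 1) * x / (t + x) :=
      setIntegral_congr_fun measurableSet_Ioi (Real.rpowIntegrand₀₁_eqOn_pow_div ⟨hp0, hp1⟩ hx.le)
    have h3 : ∫ t in Ioi (0 : ℝ), Real.rpowIntegrand₀₁ p t 1 =
        ∫ t in Ioi (0 : ℝ), t ^ (p - 1) / (t + 1) := by
      rw [setIntegral_congr_fun measurableSet_Ioi
        (Real.rpowIntegrand₀₁_eqOn_pow_div ⟨hp0, hp1⟩ zero_le_one)]
      simp
    rw [h2, h3, integral_const hp0 hp1] at h1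
    have h4 : ∫ t in Ioi (0 : ℝ), pint p (x : ℂ) t =
        ((∫ t in Ioi (0 : ℝ), t ^ (p - 1) * x / (t + x) : ℝ) : ℂ) := by
      rw [← integral_complex_ofReal]
      refine setIntegral_congr_fun measurableSet_Ioi fun t _ => ?_
      unfold pint
      push_cast
      ring
    have hsin : 0 < Real.sin (p * Real.pi) :=
      Real.sin_pos_of_pos_of_lt_pi (by positivity) (by nlinarith [Real.pi_pos])
    rw [h4, h1, ← Complex.ofReal_mul, ← Complex.ofReal_cpow hx.le]
    congr 1
    rw [mul_comm Real.pi p]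
    field_simp
  have h1mem : (1 : ℂ) ∈ U := by simp [hU]
  have hfreq : ∃ᶠ z in 𝓝[≠] (1 : ℂ), ((Real.sin (p * Real.pi) / Real.pi : ℝ) : ℂ) *
      ∫ t in Ioi (0 : ℝ), pint p z t = z ^ (p : ℂ) := by
    have ht : Tendsto (fun n : ℕ => ((1 + 1 / ((n : ℝ) + 1) : ℝ) : ℂ)) atTop (𝓝[≠] (1 : ℂ)) := by
      rw [tendsto_nhdsWithin_iff]
      constructor
      · have h1 : Tendsto (fun n : ℕ => (1 + 1 / ((n : ℝ) + 1) : ℝ)) atTop (𝓝 (1 + 0)) :=
          tendsto_const_nhds.add tendsto_one_div_add_atTop_nhds_zero_nat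
        have h2 : Tendsto (fun n : ℕ => ((1 + 1 / ((n : ℝ) + 1) : ℝ) : ℂ)) atTop
            (𝓝 ((1 + 0 : ℝ) : ℂ)) := (Complex.continuous_ofReal.tendsto _).comp h1
        rw [add_zero, Complex.ofReal_one] at h2
        exact h2
      · refine Eventually.of_forall fun n => ?_
        simp only [mem_compl_iff, mem_singleton_iff]
        intro h
        have h3 : (1 + 1 / ((n : ℝ) + 1) : ℝ) = 1 := by exact_mod_cast h
        have h4 : (0 : ℝ) < 1 / ((n : ℝ) + 1) := by positivity
        linarith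
    exact ht.frequently (Frequently.of_forall fun n => hreal _ (by positivity))
  exact hf.eqOn_of_preconnected_of_frequently_eq hg hUc h1mem hfreq hl

end Pool.Agent.Lib.MP_cf7953_an
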