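import Mathlib
import Pool.Agent.Lib.MP_cf7953_an.Infin
import Pool.Agent.Lib.MP_cf7953_an.Power

/-!
# Monotonicity along powers
-/

namespace Pool.Agent.Lib.MP_cf7953_an

open Complex Filter Topology Set MeasureTheory

section

variable {E : Type*} [NormedAddCommGroup E] [InnerProductSpace ℂ E]
variable {ι : Type*} [Fintype ι] {b : Module.Basis ι ℂ E}

lemma re_kernel_pos {l : ι → ℂ} (hacc : ∀ x ≠ 0, 0 < (inner ℂ x (Op b l x)).re) {t : ℝ}
    (ht : 0 < t) {x : E} (hx : x ≠ 0) :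
    0 < (∑ j, (l j / ((t : ℂ) + l j)) * wt b x j).re := by
  have hne : ∀ j, (t : ℂ) + l j ≠ 0 := by
    intro j h
    have h1 := congrArg Complex.re h
    have h2 := eig_re_pos hacc j
    simp at h1
    linarith
  rw [← inner_Op]
  set u := Op b (fun j => 1 / ((t : ℂ) + l j)) x with hu
  have hv : x = (t : ℂ) • u + Op b l u := by
    have h1 : Op b (fun j => ((t : ℂ) + l j) * (1 / ((t : ℂ) + l j))) x = x := by
      have : (fun j => ((t : ℂ) + l j) * (1 / ((t : ℂ) + l j))) = fun _ : ι => (1 : ℂ) := by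
        ext j
        rw [mul_one_div, div_self (hne j)]
      rw [this, Op_one]
    have h2 : Op b (fun j => ((t : ℂ) + l j) * (1 / ((t : ℂ) + l j))) x =
        Op b (fun j => (t : ℂ) * 1 + l j) u := by
      rw [hu, Op_Op]
      congr 2
      ext j
      ring
    rw [← h1, h2, Op_add, Op_smul, Op_one]
  have hBu : Op b (fun j => l j / ((t : ℂ) + l j)) x = Op b l u := by
    rw [hu, Op_Op]
    congr 2
    ext j
    ring
  have hu0 : u ≠ 0 := by
    intro h
    rw [h] at hv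
    simp at hv
    exact hx hv
  rw [hBu]
  have h3 : inner ℂ x (Op b l u) = inner ℂ ((t : ℂ) • u + Op b l u) (Op b l u) := by rw [← hv]
  rw [h3, inner_add_left, inner_smul_left, Complex.conj_ofReal, inner_self_real, Complex.add_re,
    Complex.re_ofReal_mul, Complex.ofReal_re]
  have := hacc u hu0
  have h4 : 0 < t * (inner ℂ u (Op b l u)).re := mul_pos ht this
  have h5 : 0 ≤ ‖Op b l u‖ ^ 2 := by positivity
  linarith

lemma accretive_pow {l : ι → ℂ} (hacc : ∀ x ≠ 0, 0 < (inner ℂ x (Op b l x)).re) {s : ℝ}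
    (hs0 : 0 < s) (hs1 : s ≤ 1) {x : E} (hx : x ≠ 0) :
    0 < (inner ℂ x (Op b (fun j => (l j) ^ (s : ℂ)) x)).re := by
  rcases hs1.lt_or_eq with hs1 | hs1
  · have hre := eig_re_pos hacc
    set C := Real.sin (s * Real.pi) / Real.pi with hC
    have hCpos : 0 < C := by
      have : 0 < Real.sin (s * Real.pi) :=
        Real.sin_pos_of_pos_of_lt_pi (by positivity) (by nlinarith [Real.pi_pos])
      positivity
    set F : ℝ → ℂ := fun t => ∑ j, pint s (l j) t * wt b x j with hF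
    have hFint : IntegrableOn F (Ioi (0 : ℝ)) := by
      apply integrable_finsetSum
      intro j _
      exact (integrable_pint hs0 hs1 (hre j)).mul_const _
    have h1 : inner ℂ x (Op b (fun j => (l j) ^ (s : ℂ)) x) =
        (C : ℂ) * ∫ t in Ioi (0 : ℝ), F t := by
      rw [inner_Op, hF, integral_finsetSum _ fun j _ =>
        (integrable_pint hs0 hs1 (hre j)).mul_const _, Finset.mul_sum]
      refine Finset.sum_congr rfl fun j _ => ?_
      rw [integral_mul_const, ← cpow_eq_integral hs0 hs1 (hre j), hC]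
      ring
    rw [h1, Complex.re_ofReal_mul]
    apply mul_pos hCpos
    have h2 := integral_re (𝕜 := ℂ) hFint
    simp only [RCLike.re_to_complex] at h2
    rw [← h2]
    have hFre : ∀ t ∈ Ioi (0 : ℝ), 0 < (F t).re := by
      intro t ht
      have ht0 : 0 < t := ht
      have h3 : F t = ((t ^ (s - 1) : ℝ) : ℂ) * ∑ j, (l j / ((t : ℂ) + l j)) * wt b x j := by
        simp only [hF, pint]
        rw [Finset.mul_sum]
        refine Finset.sum_congr rfl fun j _ => ?_
        ring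
      rw [h3, Complex.re_ofReal_mul]
      exact mul_pos (by positivity) (re_kernel_pos hacc ht0 hx)
    rw [setIntegral_pos_iff_support_of_nonneg_ae]
    · have hsub : Ioi (0 : ℝ) ⊆ Function.support (fun t => (F t).re) ∩ Ioi 0 :=
        fun t ht => ⟨(hFre t ht).ne', ht⟩
      refine lt_of_lt_of_le ?_ (measure_mono hsub)
      simp
    · filter_upwards [ae_restrict_mem measurableSet_Ioi] with t ht
      exact (hFre t ht).le
    · exact hFint.re
  · subst hs1
    have : (fun j => (l j) ^ ((1 : ℝ) : ℂ)) = l := by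
      ext j; rw [Complex.ofReal_one, Complex.cpow_one]
    rw [this]
    exact hacc x hx

/-- The numerical radius of a linear map. -/
noncomputable def nr (T : E →ₗ[ℂ] E) : ℝ := sSup {r | ∃ x : E, ‖x‖ = 1 ∧ r = ‖inner ℂ x (T x)‖}

lemma exists_nr [FiniteDimensional ℂ E] [Nontrivial E] (T : E →ₗ[ℂ] E) :
    (∃ x : E, ‖x‖ = 1 ∧ ‖inner ℂ x (T x)‖ = nr T) ∧
      ∀ x : E, ‖inner ℂ x (T x)‖ ≤ nr T * ‖x‖ ^ 2 := by
  have hTc : Continuous T := T.continuous_of_finiteDimensional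
  have hcont : Continuous fun x : E => ‖inner ℂ x (T x)‖ :=
    (continuous_id.inner hTc).norm
  have : ProperSpace E := FiniteDimensional.proper ℂ E
  have hcpt : IsCompact (Metric.sphere (0 : E) 1) := isCompact_sphere 0 1
  have hne : (Metric.sphere (0 : E) 1).Nonempty := by
    let _ : NormedSpace ℝ E := NormedSpace.restrictScalars ℝ ℂ E
    exact NormedSpace.sphere_nonempty.mpr zero_le_one
  obtain ⟨x₀, hx₀, hmax⟩ := hcpt.exists_isMaxOn hne hcont.continuousOn
  have hx₀' : ‖x₀‖ = 1 := by simpa using hx₀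
  have hub : ∀ r ∈ {r | ∃ x : E, ‖x‖ = 1 ∧ r = ‖inner ℂ x (T x)‖}, r ≤ ‖inner ℂ x₀ (T x₀)‖ := by
    rintro r ⟨x, hx, rfl⟩
    exact hmax (by simpa using hx : x ∈ Metric.sphere (0 : E) 1)
  have hmem : ‖inner ℂ x₀ (T x₀)‖ ∈ {r | ∃ x : E, ‖x‖ = 1 ∧ r = ‖inner ℂ x (T x)‖} :=
    ⟨x₀, hx₀', rfl⟩
  have hnr : nr T = ‖inner ℂ x₀ (T x₀)‖ :=
    le_antisymm (csSup_le ⟨_, hmem⟩ hub) (le_csSup ⟨_, hub⟩ hmem)
  refine ⟨⟨x₀, hx₀', hnr.symm⟩, fun x => ?_⟩
  rcases eq_or_ne x 0 with h | h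
  · subst h; simp
  · have hpos : 0 < ‖x‖ := norm_pos_iff.mpr h
    set y : E := ((‖x‖⁻¹ : ℝ) : ℂ) • x with hy
    have hyn : ‖y‖ = 1 := by
      rw [hy, norm_smul, Complex.norm_real, norm_inv, norm_norm, inv_mul_cancel₀ hpos.ne']
    have h1 := hub _ ⟨y, hyn, rfl⟩
    have h2 : ‖inner ℂ y (T y)‖ = ‖inner ℂ x (T x)‖ / ‖x‖ ^ 2 := by
      rw [hy, map_smul, inner_smul_left, inner_smul_right, norm_mul, norm_mul, RCLike.norm_conj,
        Complex.norm_real, norm_inv, norm_norm]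
      field_simp
    rw [h2, ← hnr, div_le_iff₀ (by positivity)] at h1
    exact h1

lemma nr_nonneg (T : E →ₗ[ℂ] E) : 0 ≤ nr T :=
  Real.sSup_nonneg (by rintro r ⟨x, _, rfl⟩; exact norm_nonneg _)

lemma nr_pos [FiniteDimensional ℂ E] [Nontrivial E] {T : E →ₗ[ℂ] E}
    (hacc : ∀ x ≠ 0, 0 < (inner ℂ x (T x)).re) : 0 < nr T := by
  obtain ⟨⟨x, hx, hx'⟩, _⟩ := exists_nr T
  rw [← hx']
  have hx0 : x ≠ 0 := by intro h; rw [h, norm_zero] at hx; exact zero_ne_one hx
  exact lt_of_lt_of_le (hacc x hx0) (Complex.re_le_norm _)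

/-- Derivative bound at a maximiser. -/
lemma deriv_bound {l : ι → ℂ} (hacc : ∀ x ≠ 0, 0 < (inner ℂ x (Op b l x)).re) {s : ℝ}
    (hs0 : 0 < s) (hs1 : s ≤ 1) {m : ℝ} (hm : 0 < m)
    (hmax : ∀ x, ‖inner ℂ x (Op b (fun j => (l j) ^ (s : ℂ)) x)‖ ≤ m * ‖x‖ ^ 2)
    {x₀ : E} (hx₀ : ‖x₀‖ = 1) {w : ℂ} (hw : ‖w‖ = 1)
    (hW : inner ℂ x₀ (Op b (fun j => (l j) ^ (s : ℂ)) x₀) = m * w) :
    s * ((starRingEnd ℂ) w * ∑ j, (l j) ^ (s : ℂ) * log (l j) * wt b x₀ j).re ≤
      m * Real.log m := by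
  have hre := eig_re_pos hacc
  set β : ι → ℂ := fun j => ((m⁻¹ : ℝ) : ℂ) * (l j) ^ (s : ℂ) with hβ
  have hOpβ : ∀ x, Op b β x = ((m⁻¹ : ℝ) : ℂ) • Op b (fun j => (l j) ^ (s : ℂ)) x :=
    fun x => Op_smul b _ _ x
  have hinv : 0 < m⁻¹ := inv_pos.mpr hm
  have hacc' : ∀ x ≠ 0, 0 < (inner ℂ x (Op b β x)).re := by
    intro x hx
    rw [hOpβ, inner_smul_right, Complex.re_ofReal_mul]
    exact mul_pos hinv (accretive_pow hacc hs0 hs1 hx)
  have hB : ∀ x, ‖inner ℂ x (Op b β x)‖ ≤ ‖x‖ ^ 2 := by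
    intro x
    rw [hOpβ, inner_smul_right, norm_mul, Complex.norm_real, Real.norm_of_nonneg hinv.le]
    calc m⁻¹ * _ ≤ m⁻¹ * (m * ‖x‖ ^ 2) := mul_le_mul_of_nonneg_left (hmax x) hinv.le
      _ = ‖x‖ ^ 2 := by rw [← mul_assoc, inv_mul_cancel₀ hm.ne', one_mul]
  have hw1 : inner ℂ x₀ (Op b β x₀) = w := by
    rw [hOpβ, inner_smul_right, hW, ← mul_assoc, ← Complex.ofReal_mul, inv_mul_cancel₀ hm.ne',
      Complex.ofReal_one, one_mul]
  have key := infinitesimal hacc' hB hx₀ hw hw1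
  have hlog : ∀ j, log (β j) = s * log (l j) - Real.log m := by
    intro j
    have hl0 : l j ≠ 0 := by intro h; have := hre j; rw [h] at this; simp at this
    have hp0 : (l j) ^ (s : ℂ) ≠ 0 := by
      rw [Complex.cpow_def_of_ne_zero hl0]; exact Complex.exp_ne_zero _
    simp only [hβ]
    rw [Complex.log_ofReal_mul hinv hp0, Complex.cpow_def_of_ne_zero hl0]
    have harg : |arg (l j)| < Real.pi / 2 :=
      Complex.abs_arg_lt_pi_div_two_iff.mpr (Or.inl (hre j))
    have harg' := abs_lt.mp harg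
    have him : (log (l j) * (s : ℂ)).im = s * arg (l j) := by
      rw [mul_comm, Complex.im_ofReal_mul, Complex.log_im]
    have hpi := Real.pi_pos
    rw [Complex.log_exp, Real.log_inv]
    · push_cast; ring
    · rw [him]; nlinarith
    · rw [him]; nlinarith
  have hsum : (starRingEnd ℂ) w * ∑ j, β j * log (β j) * wt b x₀ j =
      ((m⁻¹ : ℝ) : ℂ) * (((s : ℝ) : ℂ) *
        ((starRingEnd ℂ) w * ∑ j, (l j) ^ (s : ℂ) * log (l j) * wt b x₀ j) -
        ((m * Real.log m : ℝ) : ℂ)) := by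
    have hconj : (starRingEnd ℂ) w * w = 1 := by
      rw [← Complex.normSq_eq_conj_mul_self, Complex.normSq_eq_norm_sq, hw]; simp
    have e1 : ∀ j, β j * log (β j) * wt b x₀ j =
        ((m⁻¹ : ℝ) : ℂ) * ((s : ℂ) * ((l j) ^ (s : ℂ) * log (l j) * wt b x₀ j)) -
          ((m⁻¹ : ℝ) : ℂ) * (Real.log m * ((l j) ^ (s : ℂ) * wt b x₀ j)) := by
      intro j
      rw [hlog j]
      simp only [hβ]
      ring
    have hWs : ∑ j, (l j) ^ (s : ℂ) * wt b x₀ j = m * w := by rw [← inner_Op]; exact hW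
    rw [Finset.sum_congr rfl fun j _ => e1 j, Finset.sum_sub_distrib, ← Finset.mul_sum,
      ← Finset.mul_sum, ← Finset.mul_sum, ← Finset.mul_sum, hWs]
    push_cast
    linear_combination (-((m : ℂ)⁻¹ * (Real.log m : ℂ) * (m : ℂ))) * hconj
  rw [hsum, Complex.re_ofReal_mul, Complex.sub_re, Complex.re_ofReal_mul, Complex.ofReal_re] at key
  have h2 : s * ((starRingEnd ℂ) w * ∑ j, (l j) ^ (s : ℂ) * log (l j) * wt b x₀ j).re -
      m * Real.log m ≤ 0 := by
    by_contra hcon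
    push Not at hcon
    have := mul_pos hinv hcon
    linarith
  linarith

/-- Bound on the weights on the unit sphere. -/
lemma exists_wt_bound [FiniteDimensional ℂ E] (b : Module.Basis ι ℂ E) :
    ∃ C : ℝ, 0 ≤ C ∧ ∀ x : E, ‖x‖ = 1 → ∀ j, ‖wt b x j‖ ≤ C := by
  have : ProperSpace E := FiniteDimensional.proper ℂ E
  have hcpt : IsCompact (Metric.sphere (0 : E) 1) := isCompact_sphere 0 1
  have hcont : Continuous fun x : E => ∑ j, ‖wt b x j‖ := by
    refine continuous_finsetSum _ fun j _ => ?_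
    unfold wt
    have h1 : Continuous fun x : E => b.coord j x := (b.coord j).continuous_of_finiteDimensional
    exact (h1.mul (continuous_id.inner continuous_const)).norm
  obtain ⟨C, hC⟩ := hcpt.exists_bound_of_continuousOn hcont.continuousOn
  refine ⟨max C 0, le_max_right _ _, fun x hx j => ?_⟩
  have h1 := hC x (by simpa using hx)
  have h2 : ‖wt b x j‖ ≤ ∑ j, ‖wt b x j‖ :=
    Finset.single_le_sum (f := fun j => ‖wt b x j‖) (fun _ _ => norm_nonneg _) (Finset.mem_univ j)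
  have h3 : ∑ j, ‖wt b x j‖ ≤ ‖∑ j, ‖wt b x j‖‖ := le_abs_self _
  exact (h2.trans (h3.trans h1)).trans (le_max_left _ _)

lemma nr_le_add [FiniteDimensional ℂ E] [Nontrivial E] {C : ℝ} (_hC0 : 0 ≤ C)
    (hC : ∀ x : E, ‖x‖ = 1 → ∀ j, ‖wt b x j‖ ≤ C) (f g : ι → ℂ) :
    nr (Op b f) ≤ nr (Op b g) + C * ∑ j, ‖f j - g j‖ := by
  obtain ⟨⟨x, hx, hx'⟩, _⟩ := exists_nr (Op b f)
  have hg := (exists_nr (Op b g)).2 x
  rw [hx, one_pow, mul_one] at hg
  rw [← hx']
  have h1 : inner ℂ x (Op b f x) = inner ℂ x (Op b g x) + ∑ j, (f j - g j) * wt b x j := by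
    rw [inner_Op, inner_Op, ← Finset.sum_add_distrib]
    refine Finset.sum_congr rfl fun j _ => ?_
    ring
  rw [h1]
  refine (norm_add_le _ _).trans (add_le_add hg ?_)
  calc ‖∑ j, (f j - g j) * wt b x j‖ ≤ ∑ j, ‖(f j - g j) * wt b x j‖ := norm_sum_le _ _
    _ ≤ ∑ j, C * ‖f j - g j‖ := by
        refine Finset.sum_le_sum fun j _ => ?_
        rw [norm_mul, mul_comm]
        exact mul_le_mul_of_nonneg_right (hC x hx j) (norm_nonneg _)
    _ = C * ∑ j, ‖f j - g j‖ := by rw [Finset.mul_sum]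

omit [Fintype ι] in
lemma continuous_cpow_exponent {l : ι → ℂ} (hl : ∀ j, l j ≠ 0) (j : ι) :
    Continuous fun s : ℝ => (l j) ^ (s : ℂ) := by
  have : (fun s : ℝ => (l j) ^ (s : ℂ)) = fun s : ℝ => Complex.exp (log (l j) * s) := by
    ext s; rw [Complex.cpow_def_of_ne_zero (hl j)]
  rw [this]
  fun_prop

lemma continuous_nr_pow [FiniteDimensional ℂ E] [Nontrivial E] {l : ι → ℂ} (hl : ∀ j, l j ≠ 0) :
    Continuous fun s : ℝ => nr (Op b (fun j => (l j) ^ (s : ℂ))) := by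
  obtain ⟨C, hC0, hC⟩ := exists_wt_bound b
  rw [continuous_iff_continuousAt]
  intro s₀
  unfold ContinuousAt
  rw [tendsto_iff_norm_sub_tendsto_zero]
  have hlim : Tendsto (fun s : ℝ => C * ∑ j, ‖(l j) ^ (s : ℂ) - (l j) ^ (s₀ : ℂ)‖) (𝓝 s₀)
      (𝓝 0) := by
    have h1 : Continuous fun s : ℝ => C * ∑ j, ‖(l j) ^ (s : ℂ) - (l j) ^ (s₀ : ℂ)‖ := by
      refine continuous_const.mul (continuous_finsetSum _ fun j _ => ?_)
      exact ((continuous_cpow_exponent hl j).sub continuous_const).norm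
    have h2 := h1.tendsto s₀
    simpa using h2
  refine squeeze_zero (fun s => norm_nonneg _) (fun s => ?_) hlim
  rw [Real.norm_eq_abs, abs_le]
  have h1 := nr_le_add hC0 hC (fun j => (l j) ^ (s : ℂ)) (fun j => (l j) ^ (s₀ : ℂ))
  have h2 := nr_le_add hC0 hC (fun j => (l j) ^ (s₀ : ℂ)) (fun j => (l j) ^ (s : ℂ))
  have h3 : ∑ j, ‖(l j) ^ (s₀ : ℂ) - (l j) ^ (s : ℂ)‖ = ∑ j, ‖(l j) ^ (s : ℂ) - (l j) ^ (s₀ : ℂ)‖ :=
    Finset.sum_congr rfl fun j _ => norm_sub_rev _ _
  rw [h3] at h2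
  constructor <;> linarith

/-- If `nr` is `1` then the powers have `nr` at least `1`. -/
lemma nr_pow_ge_one [FiniteDimensional ℂ E] [Nontrivial E] {l : ι → ℂ}
    (hacc : ∀ x ≠ 0, 0 < (inner ℂ x (Op b l x)).re) (h1 : nr (Op b l) = 1) {t : ℝ} (ht0 : 0 < t)
    (ht1 : t ≤ 1) : 1 ≤ nr (Op b (fun j => (l j) ^ (t : ℂ))) := by
  have hre := eig_re_pos hacc
  have hl0 : ∀ j, l j ≠ 0 := by
    intro j h; have := hre j; rw [h] at this; simp at this
  set m : ℝ → ℝ := fun s => nr (Op b (fun j => (l j) ^ (s : ℂ))) with hm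
  have hmc : Continuous m := continuous_nr_pow hl0
  have hm1 : m 1 = 1 := by
    simp only [hm]
    have : (fun j => (l j) ^ ((1 : ℝ) : ℂ)) = l := by
      ext j; rw [Complex.ofReal_one, Complex.cpow_one]
    rw [this, h1]
  have hmpos : ∀ s, 0 < s → s ≤ 1 → 0 < m s := fun s hs0 hs1 =>
    nr_pos (fun x hx => accretive_pow hacc hs0 hs1 hx)
  refine le_of_forall_pos_le_add fun ε hε => ?_
  have hmain := image_le_of_liminf_slope_right_lt_deriv_boundary'
    (f := fun r => -m (1 - r)) (f' := fun r => m (1 - r) * Real.log (m (1 - r)) / (1 - r))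
    (a := 0) (b := 1 - t) (B := fun r => -1 + ε * r) (B' := fun _ => ε) ?_ ?_ ?_ ?_ ?_ ?_
  · have h2 := hmain (right_mem_Icc.mpr (by linarith : (0 : ℝ) ≤ 1 - t))
    simp only [sub_sub_cancel] at h2
    have h3 : ε * (1 - t) ≤ ε := by nlinarith
    change 1 ≤ m t + ε
    linarith
  · exact (hmc.comp (continuous_const.sub continuous_id)).neg.continuousOn
  · -- slopes
    intro r hr ρ hρ
    set s := 1 - r with hs
    have hs0 : 0 < s := by rw [hs]; linarith [hr.2]
    have hs1 : s ≤ 1 := by rw [hs]; linarith [hr.1]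
    have hms := hmpos s hs0 hs1
    obtain ⟨⟨x₀, hx₀, hW⟩, hmax⟩ := exists_nr (Op b (fun j => (l j) ^ (s : ℂ)))
    set W := inner ℂ x₀ (Op b (fun j => (l j) ^ (s : ℂ)) x₀) with hWdef
    have hWm : ‖W‖ = m s := hW
    set w : ℂ := ((m s)⁻¹ : ℝ) * W with hw
    have hwn : ‖w‖ = 1 := by
      rw [hw, norm_mul, Complex.norm_real, Real.norm_of_nonneg (inv_nonneg.mpr hms.le), hWm,
        inv_mul_cancel₀ hms.ne']
    have hWw : W = m s * w := by
      rw [hw, ← mul_assoc, ← Complex.ofReal_mul, mul_inv_cancel₀ hms.ne', Complex.ofReal_one,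
        one_mul]
    have hdb := deriv_bound hacc hs0 hs1 hms hmax hx₀ hwn hWw
    -- comparison function
    set φ : ℝ → ℝ := fun z =>
      ((starRingEnd ℂ) w * ∑ j, (l j) ^ ((1 - z : ℝ) : ℂ) * wt b x₀ j).re with hφ
    have hφr : φ r = m s := by
      simp only [hφ]
      rw [← inner_Op, ← hs, ← hWdef, hWw]
      have hconj : (starRingEnd ℂ) w * w = 1 := by
        rw [← Complex.normSq_eq_conj_mul_self, Complex.normSq_eq_norm_sq, hwn]; simp
      have : (starRingEnd ℂ) w * ((m s : ℂ) * w) = ((m s : ℝ) : ℂ) := by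
        linear_combination (m s : ℂ) * hconj
      rw [this, Complex.ofReal_re]
    have hφle : ∀ z, φ z ≤ m (1 - z) := by
      intro z
      simp only [hφ]
      rw [← inner_Op]
      refine (Complex.re_le_norm _).trans ?_
      rw [norm_mul, RCLike.norm_conj, hwn, one_mul]
      have := (exists_nr (Op b (fun j => (l j) ^ ((1 - z : ℝ) : ℂ)))).2 x₀
      rw [hx₀, one_pow, mul_one] at this
      exact this
    have hφd : HasDerivAt φ
        (-((starRingEnd ℂ) w * ∑ j, (l j) ^ (s : ℂ) * log (l j) * wt b x₀ j).re) r := by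
      have h2 : HasDerivAt (fun z : ℝ => (starRingEnd ℂ) w *
          ∑ j, (l j) ^ ((1 - z : ℝ) : ℂ) * wt b x₀ j)
          ((starRingEnd ℂ) w * ∑ j, (-((l j) ^ (s : ℂ) * log (l j))) * wt b x₀ j) r := by
        refine HasDerivAt.const_mul _ ?_
        refine HasDerivAt.fun_sum fun j _ => ?_
        refine HasDerivAt.mul_const ?_ _
        have h3 : (fun z : ℝ => (l j) ^ ((1 - z : ℝ) : ℂ)) =
            fun z : ℝ => Complex.exp (log (l j) * ((1 - z : ℝ) : ℂ)) := by
          ext z; rw [Complex.cpow_def_of_ne_zero (hl0 j)]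
        rw [h3, Complex.cpow_def_of_ne_zero (hl0 j)]
        have h4 : HasDerivAt (fun z : ℝ => ((1 - z : ℝ) : ℂ)) (((-1 : ℝ)) : ℂ) r := by
          have h5 : HasDerivAt (fun z : ℝ => (1 - z : ℝ)) (-1) r := by
            simpa using (hasDerivAt_id r).const_sub 1
          exact h5.ofReal_comp
        have h6 := (h4.const_mul (log (l j))).cexp
        refine h6.congr_deriv ?_
        rw [← hs]
        push_cast
        ring
      have h7 : HasDerivAt (fun z : ℝ => ((starRingEnd ℂ) w *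
          ∑ j, (l j) ^ ((1 - z : ℝ) : ℂ) * wt b x₀ j).re)
          ((starRingEnd ℂ) w * ∑ j, (-((l j) ^ (s : ℂ) * log (l j))) * wt b x₀ j).re r := by
        exact Complex.reCLM.hasFDerivAt.comp_hasDerivAt r h2
      refine h7.congr_deriv ?_
      rw [← Complex.neg_re]
      congr 1
      rw [← mul_neg, ← Finset.sum_neg_distrib]
      congr 1
      refine Finset.sum_congr rfl fun j _ => ?_
      ring
    have hslope : Tendsto (fun z => -slope φ r z) (𝓝[>] r)
        (𝓝 ((starRingEnd ℂ) w * ∑ j, (l j) ^ (s : ℂ) * log (l j) * wt b x₀ j).re) := by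
      have h2 := (hφd.tendsto_slope.mono_left (nhdsWithin_mono r (fun z hz => ne_of_gt hz :
        Ioi r ⊆ {r}ᶜ))).neg
      rw [neg_neg] at h2
      exact h2
    have hlt : ((starRingEnd ℂ) w * ∑ j, (l j) ^ (s : ℂ) * log (l j) * wt b x₀ j).re < ρ := by
      refine lt_of_le_of_lt ?_ hρ
      rw [le_div_iff₀ hs0]
      linarith
    have hev : ∀ᶠ z in 𝓝[>] r, slope (fun r => -m (1 - r)) r z < ρ := by
      filter_upwards [hslope.eventually (gt_mem_nhds hlt), self_mem_nhdsWithin] with z hz hzr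
      refine lt_of_le_of_lt ?_ hz
      have hzr' : 0 < z - r := sub_pos.mpr hzr
      rw [slope_def_field, slope_def_field, ← neg_div]
      apply div_le_div_of_nonneg_right _ hzr'.le
      have := hφle z
      rw [hφr, ← hs]
      linarith
    exact hev.frequently
  · simp only [sub_zero, hm1, mul_zero, add_zero]; exact le_rfl
  · fun_prop
  · intro r _
    have : HasDerivAt (fun r : ℝ => -1 + ε * r) ε r := by
      simpa using ((hasDerivAt_id r).const_mul ε).const_add (-1)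
    exact this.hasDerivWithinAt
  · intro r hr hfr
    have hs0 : 0 < 1 - r := by linarith [hr.2]
    have hs1 : 1 - r ≤ 1 := by linarith [hr.1]
    have hms := hmpos (1 - r) hs0 hs1
    have hle : m (1 - r) ≤ 1 := by
      have : 0 ≤ ε * r := mul_nonneg hε.le hr.1
      linarith
    have hlog : Real.log (m (1 - r)) ≤ 0 := Real.log_nonpos hms.le hle
    have : m (1 - r) * Real.log (m (1 - r)) / (1 - r) ≤ 0 := by
      apply div_nonpos_of_nonpos_of_nonneg _ hs0.le
      exact mul_nonpos_of_nonneg_of_nonpos hms.le hlog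
    linarith

lemma nr_smul [FiniteDimensional ℂ E] [Nontrivial E] {c : ℝ} (hc : 0 < c) (f : ι → ℂ) :
    nr (Op b (fun j => (c : ℂ) * f j)) = c * nr (Op b f) := by
  have hsm : ∀ x, inner ℂ x (Op b (fun j => (c : ℂ) * f j) x) = (c : ℂ) * inner ℂ x (Op b f x) := by
    intro x; rw [Op_smul, inner_smul_right]
  have h1 := exists_nr (Op b (fun j => (c : ℂ) * f j))
  have h2 := exists_nr (Op b f)
  apply le_antisymm
  · obtain ⟨x, hx, hx'⟩ := h1.1
    rw [← hx', hsm, norm_mul, Complex.norm_real, Real.norm_of_nonneg hc.le]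
    have := h2.2 x
    rw [hx, one_pow, mul_one] at this
    exact mul_le_mul_of_nonneg_left this hc.le
  · obtain ⟨x, hx, hx'⟩ := h2.1
    rw [← hx']
    have := h1.2 x
    rw [hx, one_pow, mul_one, hsm, norm_mul, Complex.norm_real, Real.norm_of_nonneg hc.le] at this
    exact this

/-- The main inequality for diagonalisable accretive operators. -/
theorem nr_pow_ge [FiniteDimensional ℂ E] [Nontrivial E] {l : ι → ℂ}
    (hacc : ∀ x ≠ 0, 0 < (inner ℂ x (Op b l x)).re) {t : ℝ} (ht0 : 0 < t) (ht1 : t ≤ 1) :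
    nr (Op b l) ^ t ≤ nr (Op b (fun j => (l j) ^ (t : ℂ))) := by
  have hre := eig_re_pos hacc
  have hl0 : ∀ j, l j ≠ 0 := by
    intro j h; have := hre j; rw [h] at this; simp at this
  set μ := nr (Op b l) with hμ
  have hμpos : 0 < μ := nr_pos hacc
  have hinv : 0 < μ⁻¹ := inv_pos.mpr hμpos
  set l' : ι → ℂ := fun j => ((μ⁻¹ : ℝ) : ℂ) * l j with hl'
  have hacc' : ∀ x ≠ 0, 0 < (inner ℂ x (Op b l' x)).re := by
    intro x hx
    rw [hl', Op_smul, inner_smul_right, Complex.re_ofReal_mul]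
    exact mul_pos hinv (hacc x hx)
  have h1 : nr (Op b l') = 1 := by
    rw [hl', nr_smul hinv, ← hμ, inv_mul_cancel₀ hμpos.ne']
  have h2 := nr_pow_ge_one hacc' h1 ht0 ht1
  have hμt : 0 < μ ^ t := Real.rpow_pos_of_pos hμpos t
  have h3 : (fun j => (l' j) ^ (t : ℂ)) = fun j => (((μ ^ t)⁻¹ : ℝ) : ℂ) * (l j) ^ (t : ℂ) := by
    ext j
    have hl'0 : l' j ≠ 0 := by
      simp only [hl']
      exact mul_ne_zero (by exact_mod_cast hinv.ne') (hl0 j)
    rw [Complex.cpow_def_of_ne_zero hl'0, Complex.cpow_def_of_ne_zero (hl0 j)]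
    simp only [hl']
    rw [Complex.log_ofReal_mul hinv (hl0 j), add_mul, Complex.exp_add]
    congr 1
    rw [← Real.rpow_neg hμpos.le, Real.rpow_def_of_pos hμpos, Real.log_inv]
    push_cast
    congr 1
    ring
  rw [h3, nr_smul (inv_pos.mpr hμt)] at h2
  rwa [← div_eq_inv_mul, le_div_iff₀ hμt, one_mul] at h2

end

end Pool.Agent.Lib.MP_cf7953_an
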