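import Mathlib
import Pool.Agent.Lib.MP_cf7953_an.Defs
import Pool.Agent.Lib.MP_cf7953_an.Mono

/-!
# The inequality for diagonalisable matrices
-/

namespace Pool.Agent.Lib.MP_cf7953_an

open Complex Filter Topology Set MeasureTheory Matrix

variable {n : ℕ}

lemma inner_toEuclideanLin (A : Matrix (Fin n) (Fin n) ℂ) (x : EuclideanSpace ℂ (Fin n)) :
    inner ℂ x (Matrix.toEuclideanLin A x) =
      star (WithLp.ofLp x) ⬝ᵥ (A *ᵥ (WithLp.ofLp x)) := by
  rw [EuclideanSpace.inner_eq_star_dotProduct, dotProduct_comm]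
  rfl

lemma dot_self (x : Fin n → ℂ) : star x ⬝ᵥ x = ((‖WithLp.toLp 2 x‖ ^ 2 : ℝ) : ℂ) := by
  rw [← inner_self_real, EuclideanSpace.inner_eq_star_dotProduct, dotProduct_comm]

lemma norm_eq_one_iff_dot (x : EuclideanSpace ℂ (Fin n)) :
    ‖x‖ = 1 ↔ star (WithLp.ofLp x) ⬝ᵥ (WithLp.ofLp x) = 1 := by
  have h : star (WithLp.ofLp x) ⬝ᵥ (WithLp.ofLp x) = ((‖x‖ ^ 2 : ℝ) : ℂ) := by
    rw [← inner_self_real, EuclideanSpace.inner_eq_star_dotProduct, dotProduct_comm]
  rw [h]
  constructor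
  · intro h1; rw [h1]; simp
  · intro h1
    have h2 : ‖x‖ ^ 2 = 1 := by exact_mod_cast h1
    exact (pow_eq_one_iff_of_nonneg (norm_nonneg x) two_ne_zero).mp h2

lemma numRadius_eq_nr (A : Matrix (Fin n) (Fin n) ℂ) :
    numRadius A = nr (Matrix.toEuclideanLin A) := by
  unfold numRadius nr
  congr 1
  ext r
  constructor
  · rintro ⟨x, hx, rfl⟩
    refine ⟨WithLp.toLp 2 x, (norm_eq_one_iff_dot _).mpr hx, ?_⟩
    rw [inner_toEuclideanLin]
  · rintro ⟨x, hx, rfl⟩
    refine ⟨WithLp.ofLp x, (norm_eq_one_iff_dot _).mp hx, ?_⟩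
    rw [inner_toEuclideanLin]

lemma isAccretive_iff (A : Matrix (Fin n) (Fin n) ℂ) :
    IsAccretive A ↔ ∀ x : EuclideanSpace ℂ (Fin n), x ≠ 0 →
      0 < (inner ℂ x (Matrix.toEuclideanLin A x)).re := by
  constructor
  · intro h x hx
    rw [inner_toEuclideanLin]
    apply h
    intro h0
    exact hx (by ext i; exact congrFun h0 i)
  · intro h x hx
    have := h (WithLp.toLp 2 x) (by
      intro h0
      apply hx
      have := congrArg WithLp.ofLp h0
      exact this)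
    rw [inner_toEuclideanLin] at this
    exact this

/-- `s + A` is invertible for `A` accretive and `s ≥ 0`. -/
lemma isUnit_det_add {A : Matrix (Fin n) (Fin n) ℂ} (hA : IsAccretive A) {s : ℝ} (hs : 0 ≤ s) :
    IsUnit ((s : ℂ) • (1 : Matrix (Fin n) (Fin n) ℂ) + A).det := by
  rw [isUnit_iff_ne_zero]
  intro h
  obtain ⟨v, hv, hv'⟩ := Matrix.exists_mulVec_eq_zero_iff.mpr h
  have h1 := hA v hv
  have h2 : A *ᵥ v = -((s : ℂ) • v) := by
    rw [Matrix.add_mulVec, Matrix.smul_mulVec, Matrix.one_mulVec] at hv'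
    exact eq_neg_of_add_eq_zero_right hv'
  rw [h2, dotProduct_neg, dotProduct_smul, smul_eq_mul, Complex.neg_re, Complex.re_ofReal_mul] at h1
  have h3 : 0 ≤ (star v ⬝ᵥ v).re := by
    rw [dot_self, Complex.ofReal_re]
    positivity
  nlinarith

lemma toEuclideanLin_resolvent {A : Matrix (Fin n) (Fin n) ℂ} (hA : IsAccretive A)
    {b : Module.Basis (Fin n) ℂ (EuclideanSpace ℂ (Fin n))} {l : Fin n → ℂ}
    (hb : Matrix.toEuclideanLin A = Op b l) (hl : ∀ j, 0 < (l j).re) {s : ℝ} (hs : 0 < s) :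
    Matrix.toEuclideanLin (A * ((s : ℂ) • (1 : Matrix (Fin n) (Fin n) ℂ) + A)⁻¹) =
      Op b (fun j => l j / ((s : ℂ) + l j)) := by
  have hne : ∀ j, (s : ℂ) + l j ≠ 0 := by
    intro j h
    have h1 := congrArg Complex.re h
    have h2 := hl j
    simp at h1
    linarith
  set B := (s : ℂ) • (1 : Matrix (Fin n) (Fin n) ℂ) + A with hB
  have hBu : IsUnit B.det := isUnit_det_add hA hs.le
  have hTB : ∀ x, Matrix.toEuclideanLin B x = Op b (fun j => (s : ℂ) + l j) x := by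
    intro x
    rw [hB, map_add, map_smul, LinearMap.add_apply, LinearMap.smul_apply, hb]
    have h1 : Op b (fun j => (s : ℂ) + l j) x = Op b (fun j => (s : ℂ) * 1 + l j) x := by
      simp
    rw [h1, Op_add, Op_smul, Op_one]
    congr 2
    simp
  have hinv : ∀ x, Matrix.toEuclideanLin B⁻¹ x = Op b (fun j => ((s : ℂ) + l j)⁻¹) x := by
    intro x
    set y := Op b (fun j => ((s : ℂ) + l j)⁻¹) x with hy
    have h1 : Matrix.toEuclideanLin B y = x := by
      rw [hTB, hy, Op_Op]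
      have : (fun j => ((s : ℂ) + l j) * ((s : ℂ) + l j)⁻¹) = fun _ : Fin n => (1 : ℂ) := by
        ext j
        rw [mul_inv_cancel₀ (hne j)]
      rw [this, Op_one]
    have h2 : Matrix.toEuclideanLin B⁻¹ (Matrix.toEuclideanLin B y) = y := by
      rw [← LinearMap.comp_apply, ← Matrix.toLpLin_mul_same, Matrix.nonsing_inv_mul _ hBu,
        Matrix.toLpLin_one, LinearMap.id_apply]
    rw [h1] at h2
    exact h2
  ext1 x
  rw [Matrix.toLpLin_mul_same, LinearMap.comp_apply]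
  have h3 : (Matrix.toLpLin 2 2) B⁻¹ x = Op b (fun j => ((s : ℂ) + l j)⁻¹) x := hinv x
  have h4 : (Matrix.toLpLin 2 2) A = Op b l := hb
  rw [h3, h4, Op_Op]
  congr 2

/-- The matrix of `Op b f`. -/
noncomputable def opMat (b : Module.Basis (Fin n) ℂ (EuclideanSpace ℂ (Fin n))) (f : Fin n → ℂ) :
    Matrix (Fin n) (Fin n) ℂ := Matrix.toEuclideanLin.symm (Op b f)

lemma opMat_apply (b : Module.Basis (Fin n) ℂ (EuclideanSpace ℂ (Fin n))) (f : Fin n → ℂ)
    (i j : Fin n) : opMat b f i j = ∑ k, f k * opMat b (Pi.single k 1) i j := by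
  have h : Op b f = ∑ k, f k • Op b (Pi.single k 1) := by
    refine b.ext fun m => ?_
    rw [Op_basis, LinearMap.sum_apply]
    simp only [LinearMap.smul_apply, Op_basis]
    rw [Finset.sum_eq_single m]
    · simp
    · intro k _ hk
      rw [Pi.single_eq_of_ne hk.symm, zero_smul, smul_zero]
    · simp
  unfold opMat
  rw [h, map_sum, Matrix.sum_apply]
  refine Finset.sum_congr rfl fun k _ => ?_
  rw [map_smul, Matrix.smul_apply, smul_eq_mul]

/-- The fractional power of a diagonalisable accretive matrix. -/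
theorem toEuclideanLin_fracPow {A : Matrix (Fin n) (Fin n) ℂ} (hA : IsAccretive A)
    {b : Module.Basis (Fin n) ℂ (EuclideanSpace ℂ (Fin n))} {l : Fin n → ℂ}
    (hb : Matrix.toEuclideanLin A = Op b l) (hl : ∀ j, 0 < (l j).re) {t : ℝ} (ht0 : 0 < t)
    (ht1 : t < 1) :
    Matrix.toEuclideanLin (fracPow A t) = Op b (fun j => (l j) ^ (t : ℂ)) := by
  rw [← LinearEquiv.eq_symm_apply]
  ext i j
  have h1 : ∀ s ∈ Ioi (0 : ℝ),
      ((s ^ (t - 1) : ℝ) : ℂ) * (A * ((s : ℂ) • (1 : Matrix (Fin n) (Fin n) ℂ) + A)⁻¹) i j =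
      ∑ k, pint t (l k) s * opMat b (Pi.single k 1) i j := by
    intro s hs
    have h2 := toEuclideanLin_resolvent hA hb hl (mem_Ioi.mp hs)
    rw [← LinearEquiv.eq_symm_apply] at h2
    rw [h2]
    have h3 := opMat_apply b (fun j => l j / ((s : ℂ) + l j)) i j
    unfold opMat at h3
    rw [h3, Finset.mul_sum]
    refine Finset.sum_congr rfl fun k _ => ?_
    rw [pint]
    unfold opMat
    ring
  have h4 : fracPow A t i j = ((Real.sin (t * Real.pi) / Real.pi : ℝ) : ℂ) *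
      ∫ s in Set.Ioi (0 : ℝ),
        ((s ^ (t - 1) : ℝ) : ℂ) * (A * ((s : ℂ) • (1 : Matrix (Fin n) (Fin n) ℂ) + A)⁻¹) i j := rfl
  rw [h4, setIntegral_congr_fun measurableSet_Ioi h1,
    integral_finsetSum _ fun k _ => (integrable_pint ht0 ht1 (hl k)).mul_const _, Finset.mul_sum]
  have h5 := opMat_apply b (fun j => (l j) ^ (t : ℂ)) i j
  unfold opMat at h5
  rw [h5]
  refine Finset.sum_congr rfl fun k _ => ?_
  rw [integral_mul_const, ← mul_assoc, cpow_eq_integral ht0 ht1 (hl k)]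
  rfl

/-- The inequality for diagonalisable matrices. -/
theorem numRadius_pow_le_of_diag [NeZero n] {A : Matrix (Fin n) (Fin n) ℂ} (hA : IsAccretive A)
    {b : Module.Basis (Fin n) ℂ (EuclideanSpace ℂ (Fin n))} {l : Fin n → ℂ}
    (hb : Matrix.toEuclideanLin A = Op b l) {t : ℝ} (ht0 : 0 < t) (ht1 : t < 1) :
    numRadius A ^ t ≤ numRadius (fracPow A t) := by
  have hacc : ∀ x ≠ 0, 0 < (inner ℂ x (Op b l x)).re := by
    rw [← hb]; exact (isAccretive_iff A).mp hA
  have hl := eig_re_pos hacc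
  rw [numRadius_eq_nr, numRadius_eq_nr, toEuclideanLin_fracPow hA hb hl ht0 ht1, hb]
  exact nr_pow_ge hacc ht0 ht1.le

end Pool.Agent.Lib.MP_cf7953_an
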