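import Mathlib
import Pool.Agent.Lib.MP_cf7953_an.Diag
import Pool.Agent.Lib.MP_cf7953_an.Dense

/-!
# Passage to the limit: the inequality for all accretive matrices
-/

namespace Pool.Agent.Lib.MP_cf7953_an

open Complex Filter Topology Set MeasureTheory Matrix

variable {n : ℕ}

/-- The sum of the absolute values of the entries. -/
noncomputable def entrySum (M : Matrix (Fin n) (Fin n) ℂ) : ℝ := ∑ i, ∑ j, ‖M i j‖

lemma entrySum_nonneg (M : Matrix (Fin n) (Fin n) ℂ) : 0 ≤ entrySum M :=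
  Finset.sum_nonneg fun _ _ => Finset.sum_nonneg fun _ _ => norm_nonneg _

lemma norm_inner_le (M : Matrix (Fin n) (Fin n) ℂ) (x y : EuclideanSpace ℂ (Fin n)) :
    ‖inner ℂ y (Matrix.toEuclideanLin M x)‖ ≤ entrySum M * (‖y‖ * ‖x‖) := by
  have h1 : inner ℂ y (Matrix.toEuclideanLin M x) =
      ∑ i, ∑ j, star (y i) * (M i j * x j) := by
    rw [EuclideanSpace.inner_eq_star_dotProduct, dotProduct_comm]
    simp only [dotProduct, Matrix.ofLp_toLpLin, Matrix.toLin'_apply, Matrix.mulVec,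
      Finset.mul_sum, Pi.star_apply]
  rw [h1, entrySum, Finset.sum_mul]
  refine (norm_sum_le _ _).trans (Finset.sum_le_sum fun i _ => ?_)
  rw [Finset.sum_mul]
  refine (norm_sum_le _ _).trans (Finset.sum_le_sum fun j _ => ?_)
  rw [norm_mul, norm_mul, norm_star]
  have hy : ‖y i‖ ≤ ‖y‖ := PiLp.norm_apply_le y i
  have hx : ‖x j‖ ≤ ‖x‖ := PiLp.norm_apply_le x j
  calc ‖y i‖ * (‖M i j‖ * ‖x j‖) = ‖M i j‖ * (‖y i‖ * ‖x j‖) := by ring
    _ ≤ ‖M i j‖ * (‖y‖ * ‖x‖) := by gcongr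

lemma norm_toEuclideanLin_le (M : Matrix (Fin n) (Fin n) ℂ) (x : EuclideanSpace ℂ (Fin n)) :
    ‖Matrix.toEuclideanLin M x‖ ≤ entrySum M * ‖x‖ := by
  set w := Matrix.toEuclideanLin M x with hw
  have h := norm_inner_le M x w
  rw [← hw, inner_self_real, Complex.norm_real, Real.norm_of_nonneg (by positivity)] at h
  rcases (norm_nonneg w).eq_or_lt with h0 | h0
  · rw [← h0]
    exact mul_nonneg (entrySum_nonneg M) (norm_nonneg x)
  · have : ‖w‖ * ‖w‖ ≤ ‖w‖ * (entrySum M * ‖x‖) := by nlinarith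
    exact le_of_mul_le_mul_left this h0

lemma numRadius_le_add [NeZero n] (A B : Matrix (Fin n) (Fin n) ℂ) :
    numRadius A ≤ numRadius B + entrySum (A - B) := by
  rw [numRadius_eq_nr, numRadius_eq_nr]
  obtain ⟨x, hx, hx'⟩ := (exists_nr (Matrix.toEuclideanLin A)).1
  have h2 := (exists_nr (Matrix.toEuclideanLin B)).2 x
  have h3 := norm_inner_le (A - B) x x
  rw [hx, one_pow, mul_one] at h2
  rw [hx, one_mul, mul_one] at h3
  rw [← hx']
  have h4 : inner ℂ x (Matrix.toEuclideanLin A x) = inner ℂ x (Matrix.toEuclideanLin B x) +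
      inner ℂ x (Matrix.toEuclideanLin (A - B) x) := by
    rw [← inner_add_right, map_sub, LinearMap.sub_apply, add_sub_cancel]
  rw [h4]
  exact (norm_add_le _ _).trans (add_le_add h2 h3)

lemma entrySum_neg (M : Matrix (Fin n) (Fin n) ℂ) : entrySum (-M) = entrySum M := by
  unfold entrySum
  simp only [Matrix.neg_apply, norm_neg]

lemma abs_numRadius_sub_le [NeZero n] (A B : Matrix (Fin n) (Fin n) ℂ) :
    |numRadius A - numRadius B| ≤ entrySum (A - B) := by
  rw [abs_sub_le_iff]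
  constructor
  · have := numRadius_le_add A B; linarith
  · have := numRadius_le_add B A
    rw [← entrySum_neg, neg_sub] at this
    linarith

lemma tendsto_numRadius [NeZero n] {F : Filter ℝ} {M : ℝ → Matrix (Fin n) (Fin n) ℂ}
    {A : Matrix (Fin n) (Fin n) ℂ} (h : ∀ i j, Tendsto (fun z => M z i j) F (𝓝 (A i j))) :
    Tendsto (fun z => numRadius (M z)) F (𝓝 (numRadius A)) := by
  have h1 : Tendsto (fun z => entrySum (M z - A)) F (𝓝 0) := by
    have : Tendsto (fun z => entrySum (M z - A)) F (𝓝 (∑ _i : Fin n, ∑ _j : Fin n, (0 : ℝ))) := by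
      unfold entrySum
      refine tendsto_finsetSum _ fun i _ => tendsto_finsetSum _ fun j _ => ?_
      have := ((h i j).sub_const (A i j)).norm
      simpa using this
    simpa using this
  rw [tendsto_iff_norm_sub_tendsto_zero]
  refine squeeze_zero (fun _ => norm_nonneg _) (fun z => ?_) h1
  rw [Real.norm_eq_abs]
  exact abs_numRadius_sub_le _ _

/-- The bound for the entries of `B (s + B)⁻¹`. -/
lemma norm_resolvent_le {B : Matrix (Fin n) (Fin n) ℂ} (hB : IsAccretive B) {s : ℝ} (hs : 0 < s)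
    (i j : Fin n) :
    ‖(B * ((s : ℂ) • (1 : Matrix (Fin n) (Fin n) ℂ) + B)⁻¹) i j‖ ≤
      (entrySum B + 1) / (s + 1) := by
  set C := (s : ℂ) • (1 : Matrix (Fin n) (Fin n) ℂ) + B with hC
  have hCu : IsUnit C.det := isUnit_det_add hB hs.le
  set x : EuclideanSpace ℂ (Fin n) := EuclideanSpace.single j 1 with hx
  have hx1 : ‖x‖ = 1 := by rw [hx]; simp
  set u := Matrix.toEuclideanLin C⁻¹ x with hu
  set w := Matrix.toEuclideanLin B u with hw
  have hentry : (B * C⁻¹) i j = w i := by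
    have h1 : w = Matrix.toEuclideanLin (B * C⁻¹) x := by
      rw [hw, hu]
      show (Matrix.toLpLin 2 2 B) ((Matrix.toLpLin 2 2 C⁻¹) x) = Matrix.toLpLin 2 2 (B * C⁻¹) x
      rw [Matrix.toLpLin_mul_same, LinearMap.comp_apply]
    rw [h1, hx, Matrix.toLpLin_apply]
    simp only [PiLp.ofLp_single, Matrix.mulVec_single_one, Matrix.col_apply]
  have hxu : x = (s : ℂ) • u + w := by
    have h1 : Matrix.toEuclideanLin C u = x := by
      rw [hu]
      show (Matrix.toLpLin 2 2 C) ((Matrix.toLpLin 2 2 C⁻¹) x) = x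
      rw [← LinearMap.comp_apply, ← Matrix.toLpLin_mul_same, Matrix.mul_nonsing_inv _ hCu,
        Matrix.toLpLin_one, LinearMap.id_apply]
    rw [← h1, hC, map_add, map_smul, LinearMap.add_apply, LinearMap.smul_apply]
    congr 2
    simp
  have hre : 0 ≤ (inner ℂ u w).re := by
    rcases eq_or_ne u 0 with h0 | h0
    · rw [h0]; simp
    · exact ((isAccretive_iff B).mp hB u h0).le
  have hnorm : ‖x‖ ^ 2 = (s * ‖u‖) ^ 2 + 2 * (s * (inner ℂ u w).re) + ‖w‖ ^ 2 := by
    rw [hxu, @norm_add_sq ℂ, norm_smul, inner_smul_left, Complex.conj_ofReal, Complex.norm_real,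
      Real.norm_of_nonneg hs.le]
    simp only [RCLike.re_to_complex, Complex.re_ofReal_mul]
  rw [hx1] at hnorm
  have hw1 : ‖w‖ ≤ 1 := by
    have : 0 ≤ s * (inner ℂ u w).re := mul_nonneg hs.le hre
    nlinarith [norm_nonneg w, sq_nonneg (s * ‖u‖)]
  have hu1 : s * ‖u‖ ≤ 1 := by
    have : 0 ≤ s * (inner ℂ u w).re := mul_nonneg hs.le hre
    have h2 : 0 ≤ s * ‖u‖ := by positivity
    nlinarith [norm_nonneg w, sq_nonneg (‖w‖)]
  have hw2 : ‖w‖ ≤ entrySum B * ‖u‖ := norm_toEuclideanLin_le B u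
  rw [hentry]
  have hwi : ‖w i‖ ≤ ‖w‖ := PiLp.norm_apply_le w i
  refine hwi.trans ?_
  rw [le_div_iff₀ (by linarith)]
  have h5 : entrySum B * (s * ‖u‖) ≤ entrySum B * 1 :=
    mul_le_mul_of_nonneg_left hu1 (entrySum_nonneg B)
  nlinarith [mul_le_mul_of_nonneg_left hw2 hs.le]

lemma entry_formula (B : Matrix (Fin n) (Fin n) ℂ) (s : ℝ) (i j : Fin n) :
    (B * ((s : ℂ) • (1 : Matrix (Fin n) (Fin n) ℂ) + B)⁻¹) i j =
      (((s : ℂ) • (1 : Matrix (Fin n) (Fin n) ℂ) + B).det)⁻¹ *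
        (B * ((s : ℂ) • (1 : Matrix (Fin n) (Fin n) ℂ) + B).adjugate) i j := by
  rw [Matrix.inv_def, Ring.inverse_eq_inv', Matrix.mul_smul, Matrix.smul_apply, smul_eq_mul]

lemma measurable_entry (B : Matrix (Fin n) (Fin n) ℂ) (t : ℝ) (i j : Fin n) :
    Measurable fun s : ℝ => ((s ^ (t - 1) : ℝ) : ℂ) *
      (B * ((s : ℂ) • (1 : Matrix (Fin n) (Fin n) ℂ) + B)⁻¹) i j := by
  have hC : Continuous fun s : ℝ => (s : ℂ) • (1 : Matrix (Fin n) (Fin n) ℂ) + B :=
    (Complex.continuous_ofReal.smul continuous_const).add continuous_const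
  have h1 : Measurable fun s : ℝ =>
      (((s : ℂ) • (1 : Matrix (Fin n) (Fin n) ℂ) + B).det)⁻¹ := hC.matrix_det.measurable.inv
  have h2 : Measurable fun s : ℝ =>
      (B * ((s : ℂ) • (1 : Matrix (Fin n) (Fin n) ℂ) + B).adjugate) i j :=
    ((continuous_const.matrix_mul hC.matrix_adjugate).matrix_elem i j).measurable
  simp only [entry_formula]
  refine Measurable.mul ?_ (h1.mul h2)
  exact Complex.measurable_ofReal.comp (measurable_id.pow_const (t - 1))

/-- The integrals defining the fractional power of an accretive matrix converge absolutely. -/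
theorem integrable_fracPow {B : Matrix (Fin n) (Fin n) ℂ} (hB : IsAccretive B) {t : ℝ}
    (ht0 : 0 < t) (ht1 : t < 1) (i j : Fin n) :
    IntegrableOn (fun s : ℝ => ((s ^ (t - 1) : ℝ) : ℂ) *
      (B * ((s : ℂ) • (1 : Matrix (Fin n) (Fin n) ℂ) + B)⁻¹) i j) (Ioi (0 : ℝ)) := by
  have hb := (integrable_pow_div ht0 ht1 zero_lt_one).const_mul (entrySum B + 1)
  refine Integrable.mono' hb (measurable_entry B t i j).aestronglyMeasurable ?_
  filter_upwards [ae_restrict_mem measurableSet_Ioi] with s hs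
  have hs0 : 0 < s := hs
  rw [norm_mul, Complex.norm_real, Real.norm_of_nonneg (by positivity)]
  have h1 := norm_resolvent_le hB hs0 i j
  calc s ^ (t - 1) * ‖(B * ((s : ℂ) • (1 : Matrix (Fin n) (Fin n) ℂ) + B)⁻¹) i j‖
      ≤ s ^ (t - 1) * ((entrySum B + 1) / (s + 1)) := by gcongr
    _ = (entrySum B + 1) * (s ^ (t - 1) / (s + 1)) := by ring

/-- Continuity of the fractional power along a path of accretive matrices. -/
theorem tendsto_fracPow {F : Filter ℝ} [F.IsCountablyGenerated]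
    {M : ℝ → Matrix (Fin n) (Fin n) ℂ} {A : Matrix (Fin n) (Fin n) ℂ} (hA : IsAccretive A)
    (hM : ∀ᶠ z in F, IsAccretive (M z)) (h : Tendsto M F (𝓝 A)) {t : ℝ} (ht0 : 0 < t)
    (ht1 : t < 1) (i j : Fin n) :
    Tendsto (fun z => fracPow (M z) t i j) F (𝓝 (fracPow A t i j)) := by
  have hent : ∀ i j, Tendsto (fun z => M z i j) F (𝓝 (A i j)) := fun i j =>
    ((continuous_id.matrix_elem i j).tendsto A).comp h
  have hsum : Tendsto (fun z => entrySum (M z)) F (𝓝 (entrySum A)) := by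
    unfold entrySum
    exact tendsto_finsetSum _ fun i _ => tendsto_finsetSum _ fun j _ => (hent i j).norm
  have hbd : ∀ᶠ z in F, entrySum (M z) ≤ entrySum A + 1 :=
    (hsum.eventually (gt_mem_nhds (by linarith : entrySum A < entrySum A + 1))).mono
      fun z hz => hz.le
  unfold fracPow
  simp only [Matrix.of_apply]
  apply Tendsto.const_mul
  apply tendsto_integral_filter_of_dominated_convergence
    (fun s : ℝ => (entrySum A + 1 + 1) * (s ^ (t - 1) / (s + 1)))
  · exact Eventually.of_forall fun z => (measurable_entry (M z) t i j).aestronglyMeasurable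
  · filter_upwards [hM, hbd] with z hz hz'
    filter_upwards [ae_restrict_mem measurableSet_Ioi] with s hs
    have hs0 : 0 < s := hs
    rw [norm_mul, Complex.norm_real, Real.norm_of_nonneg (by positivity)]
    have h1 := norm_resolvent_le hz hs0 i j
    calc s ^ (t - 1) * ‖(M z * ((s : ℂ) • (1 : Matrix (Fin n) (Fin n) ℂ) + M z)⁻¹) i j‖
        ≤ s ^ (t - 1) * ((entrySum (M z) + 1) / (s + 1)) := by gcongr
      _ ≤ s ^ (t - 1) * ((entrySum A + 1 + 1) / (s + 1)) := by gcongr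
      _ = (entrySum A + 1 + 1) * (s ^ (t - 1) / (s + 1)) := by ring
  · exact (integrable_pow_div ht0 ht1 zero_lt_one).const_mul _
  · filter_upwards [ae_restrict_mem measurableSet_Ioi] with s hs
    have hs0 : 0 < s := hs
    apply Tendsto.const_mul
    simp only [entry_formula]
    have hcont : Continuous fun B : Matrix (Fin n) (Fin n) ℂ =>
        (s : ℂ) • (1 : Matrix (Fin n) (Fin n) ℂ) + B := continuous_const.add continuous_id
    have hdet : (((s : ℂ) • (1 : Matrix (Fin n) (Fin n) ℂ) + A).det) ≠ 0 :=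
      (isUnit_det_add hA hs0.le).ne_zero
    have h1 : Tendsto (fun z => (((s : ℂ) • (1 : Matrix (Fin n) (Fin n) ℂ) + M z).det)⁻¹) F
        (𝓝 ((((s : ℂ) • (1 : Matrix (Fin n) (Fin n) ℂ) + A).det)⁻¹)) :=
      Tendsto.inv₀ ((hcont.matrix_det.tendsto A).comp h) hdet
    have h2 : Tendsto (fun z => (M z *
        ((s : ℂ) • (1 : Matrix (Fin n) (Fin n) ℂ) + M z).adjugate) i j) F
        (𝓝 ((A * ((s : ℂ) • (1 : Matrix (Fin n) (Fin n) ℂ) + A).adjugate) i j)) :=
      (((continuous_id.matrix_mul hcont.matrix_adjugate).matrix_elem i j).tendsto A).comp h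
    exact h1.mul h2

/-- Convex combinations of accretive matrices are accretive. -/
lemma isAccretive_segment {A D : Matrix (Fin n) (Fin n) ℂ} (hA : IsAccretive A)
    (hD : IsAccretive D) {z : ℝ} (hz0 : 0 ≤ z) (hz1 : z < 1) :
    IsAccretive ((1 - (z : ℂ)) • A + (z : ℂ) • D) := by
  intro x hx
  rw [Matrix.add_mulVec, Matrix.smul_mulVec, Matrix.smul_mulVec, dotProduct_add, dotProduct_smul,
    dotProduct_smul, smul_eq_mul, smul_eq_mul, Complex.add_re]
  have h1 : (1 - (z : ℂ)) = ((1 - z : ℝ) : ℂ) := by push_cast; ring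
  rw [h1, Complex.re_ofReal_mul, Complex.re_ofReal_mul]
  have h2 := hA x hx
  have h3 := hD x hx
  have h4 : 0 < (1 - z) * (star x ⬝ᵥ A *ᵥ x).re := mul_pos (by linarith) h2
  have h5 : 0 ≤ z * (star x ⬝ᵥ D *ᵥ x).re := mul_nonneg hz0 h3.le
  linarith

lemma isAccretive_Dmat (n : ℕ) : IsAccretive (Dmat n) := by
  intro x hx
  have h1 : (star x ⬝ᵥ Dmat n *ᵥ x) =
      ∑ i : Fin n, (((((i : ℕ) : ℝ) + 1) * ‖x i‖ ^ 2 : ℝ) : ℂ) := by
    unfold Dmat
    simp only [dotProduct, Matrix.mulVec_diagonal, Pi.star_apply]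
    refine Finset.sum_congr rfl fun i _ => ?_
    have : star (x i) * x i = ((‖x i‖ ^ 2 : ℝ) : ℂ) := by
      rw [mul_comm, Complex.star_def, Complex.mul_conj, Complex.normSq_eq_norm_sq]
    calc star (x i) * ((((i : ℕ) : ℂ) + 1) * x i)
        = (((i : ℕ) : ℂ) + 1) * (star (x i) * x i) := by ring
      _ = _ := by rw [this]; push_cast; ring
  rw [h1, ← Complex.ofReal_sum, Complex.ofReal_re]
  obtain ⟨k, hk⟩ := Function.ne_iff.mp hx
  refine Finset.sum_pos' (fun i _ => by positivity) ⟨k, Finset.mem_univ k, ?_⟩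
  have : 0 < ‖x k‖ := norm_pos_iff.mpr hk
  positivity

/-- **The main theorem**: `ω(A)^t ≤ ω(A^t)` for all accretive `A` and `0 < t < 1`. -/
theorem numRadius_pow_le (hn : 1 ≤ n) {A : Matrix (Fin n) (Fin n) ℂ} (hA : IsAccretive A) {t : ℝ}
    (ht0 : 0 < t) (ht1 : t < 1) : numRadius A ^ t ≤ numRadius (fracPow A t) := by
  have : NeZero n := ⟨by omega⟩
  obtain ⟨S, hS⟩ := exists_finite_exceptional A (Dmat n) (Dmat_separable n)
  set M : ℝ → Matrix (Fin n) (Fin n) ℂ := fun z => (1 - (z : ℂ)) • A + (z : ℂ) • Dmat n with hM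
  have hMc : Continuous M :=
    ((continuous_const.sub Complex.continuous_ofReal).smul continuous_const).add
      (Complex.continuous_ofReal.smul continuous_const)
  have hM0 : M 0 = A := by simp [hM]
  have hMt : Tendsto M (𝓝[>] (0 : ℝ)) (𝓝 A) := by
    have := (hMc.tendsto 0).mono_left (nhdsWithin_le_nhds (s := Ioi (0 : ℝ)))
    rwa [hM0] at this
  have hMacc : ∀ᶠ z in 𝓝[>] (0 : ℝ), IsAccretive (M z) := by
    filter_upwards [Ioo_mem_nhdsGT (zero_lt_one : (0 : ℝ) < 1)] with z hz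
    exact isAccretive_segment hA (isAccretive_Dmat n) hz.1.le hz.2
  have hSf : Set.Finite {z : ℝ | (z : ℂ) ∈ S} :=
    S.finite_toSet.preimage Complex.ofReal_injective.injOn
  have hns : ∀ᶠ z : ℝ in 𝓝[>] (0 : ℝ), (z : ℂ) ∉ S := by
    have h1 : ∀ᶠ z in 𝓝[≠] (0 : ℝ), z ∉ {z : ℝ | (z : ℂ) ∈ S} := by
      have := hSf.isClosed.isOpen_compl
      by_cases h0 : (0 : ℝ) ∈ {z : ℝ | (z : ℂ) ∈ S}
      · have h2 : IsClosed ({z : ℝ | (z : ℂ) ∈ S} \ {0}) := (hSf.subset sdiff_subset).isClosed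
        have h3 : ({z : ℝ | (z : ℂ) ∈ S} \ {0})ᶜ ∈ 𝓝 (0 : ℝ) :=
          h2.isOpen_compl.mem_nhds (by simp)
        filter_upwards [mem_nhdsWithin_of_mem_nhds h3, self_mem_nhdsWithin] with z hz hz0 hzS
        exact hz ⟨hzS, hz0⟩
      · exact mem_nhdsWithin_of_mem_nhds (this.mem_nhds h0)
    refine h1.filter_mono (nhdsWithin_mono 0 fun z hz => ?_)
    have hz' : 0 < z := hz
    exact hz'.ne'
  have hineq : ∀ᶠ z in 𝓝[>] (0 : ℝ), numRadius (M z) ^ t ≤ numRadius (fracPow (M z) t) := by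
    filter_upwards [hMacc, hns] with z hz1 hz2
    obtain ⟨b, l, hb⟩ := exists_eigenbasis (by omega) (M z) (hS z hz2)
    exact numRadius_pow_le_of_diag hz1 hb ht0 ht1
  have hlim1 : Tendsto (fun z => numRadius (M z) ^ t) (𝓝[>] (0 : ℝ)) (𝓝 (numRadius A ^ t)) :=
    (tendsto_numRadius fun i j => ((continuous_id.matrix_elem i j).tendsto A).comp hMt).rpow_const
      (Or.inr ht0.le)
  have hlim2 : Tendsto (fun z => numRadius (fracPow (M z) t)) (𝓝[>] (0 : ℝ))
      (𝓝 (numRadius (fracPow A t))) :=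
    tendsto_numRadius fun i j => tendsto_fracPow hA hMacc hMt ht0 ht1 i j
  exact le_of_tendsto_of_tendsto hlim1 hlim2 hineq

end Pool.Agent.Lib.MP_cf7953_an
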